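import Pool.Agent.H80C.Stm2
import Pool.Agent.H80GE.HKMain

/-!
# AVZF of project CE: from the fibre averages to the points of the extension

Copy of `smooth_le` (`H80GE/Smooth.lean`) and `AV_zero_of_BB` (`H80GE/HKMain.lean`) for several maps.
-/

set_option autoImplicit false

open Filter Topology MeasureTheory ProbabilityTheory Finset
open scoped ENNReal ComplexConjugate

noncomputable section

namespace Pool.Agent.H80C.AVZF

open Pool.Agent.Y311.UB Pool.Agent.Y311.CX Pool.Agent.H80GE Pool.Agent.H80IE Pool.Agent.H80C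

section Smooth

variable {Y K : Type} [MeasurableSpace Y] [Group K] [MeasurableSpace K] [MeasurableMul₂ K]
  {ρ : Measure K} [IsProbabilityMeasure ρ] {m : ℕ} {S : Fin m → Y → Y} {σ : Fin m → Y → K}
  {g : Fin m → Y × K → ℂ}

lemma uuF_meas (hS : ∀ j, Measurable (S j)) (hσ : ∀ j, Measurable (σ j)) (hg : ∀ j, Measurable (g j)) (n : ℕ) :
    Measurable (fun p : Y × (Fin m → K) => uuF S σ g n p.1 p.2) := by
  unfold uuF
  refine Finset.measurable_prod _ fun j _ => (hg j).comp ?_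
  exact ((sk_meas (hS j) (hσ j)).iterate _).comp (measurable_fst.prodMk ((measurable_pi_apply j).comp measurable_snd))

lemma uuF_bound {D : ℝ} (hD : ∀ j z, ‖g j z‖ ≤ D) (n : ℕ) (y : Y) (κ : Fin m → K) :
    ‖uuF S σ g n y κ‖ ≤ D ^ m := by
  unfold uuF
  rw [norm_prod]
  calc ∏ j, ‖g j ((sk (S j) (σ j))^[n + 1] (y, κ j))‖ ≤ ∏ _j : Fin m, D :=
        Finset.prod_le_prod (fun _ _ => norm_nonneg _) fun j _ => hD j _
    _ = D ^ m := by simp

lemma uuF_meas_right (hS : ∀ j, Measurable (S j)) (hσ : ∀ j, Measurable (σ j)) (hg : ∀ j, Measurable (g j)) (n : ℕ)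
    (y : Y) : Measurable (fun κ => uuF S σ g n y κ) :=
  (uuF_meas hS hσ hg n).comp (measurable_const.prodMk measurable_id)

/-- The averages of the convolutions are controlled at every point of the fibre. -/
lemma smooth_leF [ρ.IsMulLeftInvariant] (hS : ∀ j, Measurable (S j)) (hσ : ∀ j, Measurable (σ j)) (hg : ∀ j, Measurable (g j)) {D : ℝ}
    (hD : ∀ j z, ‖g j z‖ ≤ D) (q : Fin m → K → ℝ) (hq : ∀ j, Measurable (q j)) {Q : ℝ} (hQ0 : 0 < Q)
    (hQ : ∀ j l, |q j l| ≤ Q) (N : ℕ) (y : Y) (κ : K) :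
    ‖av N (fun n => ∏ j, cv ρ (q j) (g j) ((sk (S j) (σ j))^[n + 1] (y, κ)))‖ ^ 2 ≤
      (Q ^ m) ^ 2 * BBF ρ S σ g N y := by
  set P : Measure (Fin m → K) := Measure.pi fun _ => ρ with hP
  have hum : ∀ n, Measurable (fun l : Fin m → K => uuF S σ g n y ((fun _ => κ) * l)) := fun n =>
    (uuF_meas_right hS hσ hg n y).comp (measurable_const_mul _)
  have hqm : Measurable (fun l : Fin m → K => ∏ j, ((q j (l j) : ℝ) : ℂ)) :=
    Finset.measurable_prod _ fun j _ => Complex.measurable_ofReal.comp ((hq j).comp (measurable_pi_apply j))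
  have hqb : ∀ l : Fin m → K, ‖∏ j, ((q j (l j) : ℝ) : ℂ)‖ ≤ Q ^ m := by
    intro l
    rw [norm_prod]
    calc ∏ j, ‖((q j (l j) : ℝ) : ℂ)‖ ≤ ∏ _j : Fin m, Q :=
          Finset.prod_le_prod (fun _ _ => norm_nonneg _) fun j _ => by
            rw [Complex.norm_real, Real.norm_eq_abs]; exact hQ j _
      _ = Q ^ m := by simp
  have hQm : 0 < Q ^ m := by positivity
  have e1 : ∀ n, ∏ j, cv ρ (q j) (g j) ((sk (S j) (σ j))^[n + 1] (y, κ)) =
      ∫ l, (∏ j, ((q j (l j) : ℝ) : ℂ)) * uuF S σ g n y ((fun _ => κ) * l) ∂P := by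
    intro n
    simp_rw [cv_iter]
    rw [hP, ← integral_fintype_prod_eq_prod (μ := fun _ : Fin m => ρ) (fun (j : Fin m) (l : K) =>
      g j ((sk (S j) (σ j))^[n + 1] (y, κ * l)) * ((q j l : ℝ) : ℂ))]
    refine integral_congr_ae (Eventually.of_forall fun l => ?_)
    simp only [uuF, Pi.mul_apply]
    rw [Finset.prod_mul_distrib, mul_comm]
  have hub : ∀ n l, ‖uuF S σ g n y ((fun _ => κ) * l)‖ ≤ D ^ m := fun n l => uuF_bound hD n y _
  have e2 : av N (fun n => ∏ j, cv ρ (q j) (g j) ((sk (S j) (σ j))^[n + 1] (y, κ))) =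
      ∫ l, ((∏ j, ((q j (l j) : ℝ) : ℂ)) * ((Q ^ m : ℝ) : ℂ)⁻¹) *
        (((Q ^ m : ℝ) : ℂ) * av N (fun n => uuF S σ g n y ((fun _ => κ) * l))) ∂P := by
    simp_rw [e1]
    unfold av
    rw [← integral_finsetSum, ← integral_const_mul]
    · refine integral_congr_ae (Eventually.of_forall fun l => ?_)
      simp only
      rw [← Finset.mul_sum]
      have : ((Q ^ m : ℝ) : ℂ) ≠ 0 := by exact_mod_cast hQm.ne'
      field_simp
    · intro n _
      refine Integrable.of_bound (hqm.mul (hum n)).aestronglyMeasurable (Q ^ m * D ^ m)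
        (Eventually.of_forall fun l => ?_)
      rw [norm_mul]
      exact mul_le_mul (hqb l) (hub n l) (norm_nonneg _) hQm.le
  rw [e2]
  have hDm : 0 ≤ D ^ m := (norm_nonneg _).trans (hub 0 1)
  have havm : Measurable (fun l : Fin m → K => ((Q ^ m : ℝ) : ℂ) *
      av N (fun n => uuF S σ g n y ((fun _ => κ) * l))) :=
    ((Finset.measurable_sum _ fun n _ => hum n).const_mul _).const_mul _
  refine (norm_int_sq_le P (D := Q ^ m * D ^ m) ?_ havm.aestronglyMeasurable ?_).trans (le_of_eq ?_)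
  · intro l
    rw [norm_mul, norm_inv, Complex.norm_real, Real.norm_eq_abs, abs_of_pos hQm]
    rw [← div_eq_mul_inv, div_le_one hQm]
    exact hqb l
  · intro l
    rw [norm_mul, Complex.norm_real, Real.norm_eq_abs, abs_of_pos hQm]
    exact mul_le_mul_of_nonneg_left (av_norm_le hDm fun n => hub n l) hQm.le
  · have e3 : ∀ l : Fin m → K, ‖((Q ^ m : ℝ) : ℂ) * av N (fun n => uuF S σ g n y ((fun _ => κ) * l))‖ ^ 2 =
        (Q ^ m) ^ 2 * ‖av N (fun n => uuF S σ g n y ((fun _ => κ) * l))‖ ^ 2 := by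
      intro l
      rw [norm_mul, Complex.norm_real, Real.norm_eq_abs, abs_of_pos hQm, mul_pow]
    simp_rw [e3]
    rw [integral_const_mul]
    congr 1
    unfold BBF
    exact integral_mul_left_eq_self (μ := P) (fun l => ‖av N (fun n => uuF S σ g n y l)‖ ^ 2) (fun _ => κ)

end Smooth

theorem t (h : Pool.Agent.H80C.CLF) : Pool.Agent.H80C.AVZF := by
  intro Y K _ _ _ _ _ _ _ _ _ μ _ ρ _ _ m S σ f hS hσ hf hf1 hBB
  have hT := fun j => mp_sk μ ρ (hS j) (hσ j)
  have hconv : ∀ᵐ x ∂(μ.prod ρ), ∃ L, Tendsto (fun N => AVF (fun j => sk (S j) (σ j)) f N x) atTop (𝓝 L) ∧ L = 0 := by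
    have hz := zero_of_approx (μ.prod ρ) (fun N x => AVF (fun j => sk (S j) (σ j)) f N x) ?_
    · filter_upwards [hz] with x hx
      exact ⟨0, hx, rfl⟩
    intro δ hδ ε hε
    set ε' : ℝ := ε * (δ / 2) / ((m + 1) * (m + 1)) with hε'
    have hε'0 : 0 < ε' := by positivity
    have happ := fun j => approx (ρ := ρ) μ (hf j) (hf1 j) ε' hε'0
    choose q hqm hq0 hqQ hq1 hqa using happ
    choose Q hQ using hqQ
    obtain ⟨Q', hQ'0, hQ'⟩ : ∃ Q' : ℝ, 0 < Q' ∧ ∀ j l, |q j l| ≤ Q' := by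
      refine ⟨∑ j, |Q j| + 1, by positivity, fun j l => ?_⟩
      rw [abs_of_nonneg (hq0 j l)]
      have h1 : |Q j| ≤ ∑ j, |Q j| := Finset.single_le_sum (f := fun j => |Q j|) (fun _ _ => abs_nonneg _)
        (Finset.mem_univ j)
      have h2 := hQ j l
      have h3 := le_abs_self (Q j)
      linarith
    have hcvm : ∀ j, Measurable (cv ρ (q j) (f j)) := fun j => cv_meas (hqm j) (hf j)
    have hcv1 : ∀ j x, ‖cv ρ (q j) (f j) x‖ ≤ 1 := by
      intro j x
      unfold cv
      calc ‖∫ l, f j (x.1, x.2 * l) * ((q j l : ℝ) : ℂ) ∂ρ‖ ≤ ∫ l, ‖f j (x.1, x.2 * l) * ((q j l : ℝ) : ℂ)‖ ∂ρ :=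
            norm_integral_le_integral_norm _
        _ ≤ ∫ l, q j l ∂ρ := by
            refine integral_mono_of_nonneg (Eventually.of_forall fun l => norm_nonneg _) ?_
              (Eventually.of_forall fun l => ?_)
            · exact Integrable.of_bound (hqm j).aestronglyMeasurable Q'
                (Eventually.of_forall fun l => by rw [Real.norm_eq_abs]; exact hQ' j l)
            · change ‖f j (x.1, x.2 * l) * ((q j l : ℝ) : ℂ)‖ ≤ q j l
              rw [norm_mul, Complex.norm_real, Real.norm_eq_abs, abs_of_nonneg (hq0 j l)]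
              exact mul_le_of_le_one_left (hq0 j l) (hf1 _ _)
        _ = 1 := hq1 j
    have hcl := h (Y × K) (μ.prod ρ) m (fun j => sk (S j) (σ j)) hT f (fun j => cv ρ (q j) (f j)) hf hcvm 1 le_rfl hf1
      hcv1 ε' hqa (δ / 2) (by positivity)
    -- the averages of the convolutions tend to zero
    have hcv0 : ∀ᵐ x ∂(μ.prod ρ), Tendsto (fun N => AVF (fun j => sk (S j) (σ j)) (fun j => cv ρ (q j) (f j)) N x) atTop (𝓝 0) := by
      have h1 : ∀ᵐ x ∂(μ.prod ρ), Tendsto (fun N => BBF ρ S σ f N x.1) atTop (𝓝 0) :=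
        Measure.quasiMeasurePreserving_fst.ae hBB
      filter_upwards [h1] with x hx
      have h2 : Tendsto (fun N => (Q' ^ m) ^ 2 * BBF ρ S σ f N x.1) atTop (𝓝 0) := by
        have := hx.const_mul ((Q' ^ m) ^ 2)
        rwa [mul_zero] at this
      have h3 : Tendsto (fun N => ‖AVF (fun j => sk (S j) (σ j)) (fun j => cv ρ (q j) (f j)) N x‖ ^ 2) atTop (𝓝 0) := by
        refine squeeze_zero (fun N => by positivity) (fun N => ?_) h2
        exact smooth_leF (fun j => (hS j).measurable) hσ hf hf1 q hqm hQ'0 hQ' N x.1 x.2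
      have h4 := h3.sqrt
      rw [Real.sqrt_zero] at h4
      simp_rw [Real.sqrt_sq (norm_nonneg _)] at h4
      exact tendsto_zero_iff_norm_tendsto_zero.2 h4
    have hsub : {x | ¬ ∀ᶠ N : ℕ in atTop, ‖AVF (fun j => sk (S j) (σ j)) f N x‖ ≤ δ} ≤ᵐ[μ.prod ρ]
        {x | ¬ ∀ᶠ N : ℕ in atTop, ‖AVF (fun j => sk (S j) (σ j)) f N x - AVF (fun j => sk (S j) (σ j)) (fun j => cv ρ (q j) (f j)) N x‖ ≤ δ / 2} := by
      filter_upwards [hcv0] with x hx hbad
      change ¬ _
      intro hev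
      apply hbad
      have h1 := (tendsto_zero_iff_norm_tendsto_zero.1 hx).eventually (eventually_le_nhds (show (0 : ℝ) < δ / 2 by positivity))
      filter_upwards [hev, h1] with N h2 h3
      have := norm_add_le (AVF (fun j => sk (S j) (σ j)) f N x - AVF (fun j => sk (S j) (σ j)) (fun j => cv ρ (q j) (f j)) N x)
        (AVF (fun j => sk (S j) (σ j)) (fun j => cv ρ (q j) (f j)) N x)
      rw [sub_add_cancel] at this
      linarith
    refine (measure_mono_ae hsub).trans (hcl.trans ?_)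
    apply ENNReal.ofReal_le_ofReal
    have e : (m : ℝ) * (1 ^ m * (m + 1) * ε' / (δ / 2)) = ε * (m / (m + 1)) := by
      rw [hε', one_pow]; field_simp
    rw [e]
    have e3 : (m : ℝ) / (m + 1) ≤ 1 := by rw [div_le_one (by positivity)]; linarith
    nlinarith
  filter_upwards [hconv] with x hx
  obtain ⟨L, hL, rfl⟩ := hx
  exact hL


end Pool.Agent.H80C.AVZF
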