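import Pool.Agent.H80C.Stm

set_option autoImplicit false

open Filter Topology MeasureTheory ProbabilityTheory
open scoped ENNReal ComplexConjugate

noncomputable section

namespace Pool.Agent.H80C.CONQ

open Pool.Agent.Y311.UB Pool.Agent.Y311.CX Pool.Agent.H80GE Pool.Agent.H80IE Pool.Agent.H80C

theorem A3_add_left {X : Type} (Ψ Ψ' : ℤ → Equiv.Perm X) (u v G : X × X → ℝ) (N : ℕ) (p : X × (X × X)) :
    A3 Ψ Ψ' (fun z => u z + v z) G N p = A3 Ψ Ψ' u G N p + A3 Ψ Ψ' v G N p := by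
  unfold A3 av
  rw [← mul_add, ← Finset.sum_add_distrib]
  congr 1
  refine Finset.sum_congr rfl fun n _ => ?_
  push_cast
  ring

theorem A3_add_right {X : Type} (Ψ Ψ' : ℤ → Equiv.Perm X) (F u v : X × X → ℝ) (N : ℕ) (p : X × (X × X)) :
    A3 Ψ Ψ' F (fun z => u z + v z) N p = A3 Ψ Ψ' F u N p + A3 Ψ Ψ' F v N p := by
  unfold A3 av
  rw [← mul_add, ← Finset.sum_add_distrib]
  congr 1
  refine Finset.sum_congr rfl fun n _ => ?_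
  push_cast
  ring

theorem com' {X : Type} [MeasurableSpace X] {μ : Measure X} {Φ Ψ Ψ' : ℤ → Equiv.Perm X} (hΦ : Act μ Φ)
    (hc : Com Φ Ψ) (he : ∀ n, Ψ' n = Φ n * Ψ n) : Com Φ Ψ' := by
  intro m n x
  rw [he, Equiv.Perm.mul_apply, Equiv.Perm.mul_apply, hΦ.comm_apply, hc]

theorem inv_D2 {X : Type} [MeasurableSpace X] [StandardBorelSpace X] {ν : Measure (X × X)} {Ψ : ℤ → Equiv.Perm X}
    (h : Act ν (D2 Ψ)) {k : X × X → ℝ} (hk : ∀ z, k (D2 Ψ 1 z) = k z) (n : ℤ) (x y : X) :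
    k (Ψ n x, Ψ n y) = k (x, y) := by
  have h1 := h.inv_zsmul (w := 1) hk n (x, y)
  rw [smul_eq_mul, mul_one, D2_apply] at h1
  exact h1

theorem base (hI : INV) (hM : M3P) (X : Type) [MeasurableSpace X] [StandardBorelSpace X] (μ : Measure X)
    [IsProbabilityMeasure μ] (Φ Ψ Ψ' : ℤ → Equiv.Perm X) (hΦ : Act μ Φ) (hΨ : Act μ Ψ) (hΨ' : Act μ Ψ')
    (hc : Com Φ Ψ) (he : ∀ n, Ψ' n = Φ n * Ψ n) (k k' : X × X → ℝ) (g g' : X → ℝ)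
    (hk : ∀ z, k (D2 Ψ 1 z) = k z) (hk' : ∀ z, k' (D2 Ψ' 1 z) = k' z) (hg : BMr g) (hg' : BMr g') :
    ∀ᵐ p ∂(M3 μ Φ), ∃ L, Tendsto (fun N => A3 Ψ Ψ' (fun z => k z * g z.2) (fun z => k' z * g' z.2) N p)
      atTop (𝓝 L) := by
  obtain ⟨hA, hτ⟩ := hI X μ Φ Ψ hΦ hΨ hc
  obtain ⟨hA', -⟩ := hI X μ Φ Ψ' hΦ hΨ' (com' hΦ hc he)
  obtain ⟨-, -, hp, -⟩ := hM X μ Φ hΦ
  have hτe : (fun z : X × X => (Ψ 1 z.1, Φ 1 (Ψ 1 z.2))) = Prod.map (Ψ 1) (Ψ' 1) := by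
    funext z
    rw [he 1]
    rfl
  rw [hτe] at hτ
  set f : X × X → ℝ := fun z => g (Ψ 1 z.1) * g' (Ψ' 1 z.2) with hf
  have hfB : BMr f :=
    (hg.comp ((hΨ.measurable 1).comp measurable_fst)).mul (hg'.comp ((hΨ'.measurable 1).comp measurable_snd))
  obtain ⟨hfm, C, hC⟩ := hfB
  have hb := Pool.Agent.H165R3.BPE.birkhoff hτ f hfm C hC
  have hb' := hp.quasiMeasurePreserving.ae hb
  filter_upwards [hb'] with p hp'
  obtain ⟨x, y, z⟩ := p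
  have h1 : Tendsto (fun N : ℕ => (((N : ℝ)⁻¹ * ∑ n ∈ Finset.range N, f ((Prod.map (Ψ 1) (Ψ' 1))^[n] (y, z)) : ℝ) : ℂ))
      atTop (𝓝 _) := (Complex.continuous_ofReal.tendsto _).comp hp'
  refine ⟨_, (h1.const_mul (((k (x, y) * k' (x, z) : ℝ) : ℂ))).congr fun N => ?_⟩
  unfold A3 av
  push_cast
  rw [mul_left_comm, Finset.mul_sum]
  congr 1
  refine Finset.sum_congr rfl fun n _ => ?_
  rw [Prod.map_iterate]
  have e1 : k (Ψ ((n : ℤ) + 1) x, Ψ ((n : ℤ) + 1) y) = k (x, y) := inv_D2 hA hk _ _ _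
  have e2 : k' (Ψ' ((n : ℤ) + 1) x, Ψ' ((n : ℤ) + 1) z) = k' (x, z) := inv_D2 hA' hk' _ _ _
  have e3 : Ψ 1 ((Ψ 1)^[n] y) = Ψ ((n : ℤ) + 1) y := by
    rw [hΨ.iterate, ← hΨ.add_apply]
    congr 2
    simp [add_comm]
  have e4 : Ψ' 1 ((Ψ' 1)^[n] z) = Ψ' ((n : ℤ) + 1) z := by
    rw [hΨ'.iterate, ← hΨ'.add_apply]
    congr 2
    simp [add_comm]
  simp only [hf, Prod.map_apply]
  rw [e1, e2, e3, e4]
  push_cast
  ring

theorem t (hI : INV) (hM : M3P) : CONQ := by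
  intro X _ _ μ _ Φ Ψ Ψ' hΦ hΨ hΨ' hc he F G hF hG
  induction hF with
  | base k g _ hk hg =>
    induction hG with
    | base k' g' _ hk' hg' => exact base hI hM X μ Φ Ψ Ψ' hΦ hΨ hΨ' hc he k k' g g' hk hk' hg hg'
    | add u v _ _ ihu ihv =>
      filter_upwards [ihu, ihv] with p h1 h2
      obtain ⟨L1, h1⟩ := h1
      obtain ⟨L2, h2⟩ := h2
      refine ⟨L1 + L2, (h1.add h2).congr fun N => ?_⟩
      rw [A3_add_right]
  | add u v _ _ ihu ihv =>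
    filter_upwards [ihu, ihv] with p h1 h2
    obtain ⟨L1, h1⟩ := h1
    obtain ⟨L2, h2⟩ := h2
    refine ⟨L1 + L2, (h1.add h2).congr fun N => ?_⟩
    rw [A3_add_left]

end Pool.Agent.H80C.CONQ
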