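import Pool.Agent.H80C.Stm
import Pool.Agent.H80GE.Transfer

/-! Project CE (helper80), stub CON: the closure of CONQ (helper92). -/

set_option autoImplicit false

open Filter Topology MeasureTheory ProbabilityTheory
open scoped ENNReal ComplexConjugate

namespace Pool.Agent.H80C.CON

open Pool.Agent.Y311.UB Pool.Agent.Y311.CX Pool.Agent.H80GE Pool.Agent.H80IE Pool.Agent.H80C

theorem qi_bmr {X : Type} [MeasurableSpace X] {Ψ : ℤ → Equiv.Perm X} {u : X × X → ℝ}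
    (h : QI Ψ u) : BMr u := by
  induction h with
  | base k g hk hi hg => exact hk.mul (hg.comp measurable_snd)
  | add u v _ _ ihu ihv => exact BMr.add' ihu ihv

theorem iter {Z : Type} [MeasurableSpace Z] {μ : Measure Z} {Ψ : ℤ → Equiv.Perm Z}
    (h : Act μ Ψ) (n : ℕ) (z : Z) : (Ψ 1)^[n] z = Ψ n z := by
  induction n with
  | zero => simp [h.zero]
  | succ n ih =>
    rw [Function.iterate_succ_apply', ih, ← h.add_apply]
    push_cast
    rw [add_comm]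

/-- the estimate for one function -/
theorem abs_step {P Z : Type} [MeasurableSpace P] [MeasurableSpace Z] (M : Measure P) (ν : Measure Z)
    [IsProbabilityMeasure ν] (π : P → Z) (hπ : MeasurePreserving π M ν) (T : Z → Z)
    (hT : MeasurePreserving T ν ν) (F v : Z → ℝ) (hF : BMr F) (hv : BMr v) (b : ℕ → P → ℝ) (C : ℝ)
    (hC : 0 < C) (hb : ∀ n p, |b n p| ≤ C) (ε : ℝ) (hε : ∫ z, |F z - v z| ∂ν ≤ ε) (δ : ℝ)
    (hδ : 0 < δ) :
    M {p | ¬ ∀ᶠ N : ℕ in atTop, ‖av N (fun n => ((F (T^[n + 1] (π p)) * b n p : ℝ) : ℂ)) -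
      av N (fun n => ((v (T^[n + 1] (π p)) * b n p : ℝ) : ℂ))‖ ≤ δ} ≤
      ENNReal.ofReal (C * ε / δ) := by
  obtain ⟨hFm, B, hB⟩ := hF
  obtain ⟨hvm, B', hB'⟩ := hv
  have h1 := avg_small ν hT 1 (fun z => |F z - v z|) (hFm.sub hvm).abs (B + B')
    (fun z => abs_nonneg _) (fun z => (abs_sub _ _).trans (add_le_add (hB z) (hB' z))) (δ / C)
    (by positivity)
  refine (measure_mono (t := π ⁻¹' {z | ¬ ∀ᶠ N : ℕ in atTop,
    (N : ℝ)⁻¹ * ∑ n ∈ Finset.range N, |F (T^[1 * (n + 1)] z) - v (T^[1 * (n + 1)] z)| ≤ δ / C})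
    ?_).trans ?_
  · intro p hp hcon
    apply hp
    filter_upwards [hcon] with N hN
    have e1 : av N (fun n => ((F (T^[n + 1] (π p)) * b n p : ℝ) : ℂ)) -
        av N (fun n => ((v (T^[n + 1] (π p)) * b n p : ℝ) : ℂ)) =
        (((N : ℝ)⁻¹ * ∑ n ∈ Finset.range N,
          (F (T^[n + 1] (π p)) - v (T^[n + 1] (π p))) * b n p : ℝ) : ℂ) := by
      unfold av
      rw [← mul_sub, ← Finset.sum_sub_distrib]
      push_cast
      congr 1
      refine Finset.sum_congr rfl fun n _ => ?_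
      ring
    rw [e1, Complex.norm_real, Real.norm_eq_abs, abs_mul, abs_inv, Nat.abs_cast]
    simp only [one_mul] at hN
    calc (N : ℝ)⁻¹ * |∑ n ∈ Finset.range N, (F (T^[n + 1] (π p)) - v (T^[n + 1] (π p))) * b n p|
        ≤ (N : ℝ)⁻¹ * ∑ n ∈ Finset.range N, |F (T^[n + 1] (π p)) - v (T^[n + 1] (π p))| * C := by
          refine mul_le_mul_of_nonneg_left ((Finset.abs_sum_le_sum_abs _ _).trans
            (Finset.sum_le_sum fun n _ => ?_)) (by positivity)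
          rw [abs_mul]
          exact mul_le_mul_of_nonneg_left (hb n p) (abs_nonneg _)
      _ = C * ((N : ℝ)⁻¹ * ∑ n ∈ Finset.range N, |F (T^[n + 1] (π p)) - v (T^[n + 1] (π p))|) := by
          rw [← Finset.sum_mul]
          ring
      _ ≤ C * (δ / C) := mul_le_mul_of_nonneg_left hN hC.le
      _ = δ := by field_simp
  · refine (Measure.le_map_apply hπ.measurable.aemeasurable _).trans ?_
    rw [hπ.map_eq]
    refine h1.trans (ENNReal.ofReal_le_ofReal ?_)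
    rw [div_div_eq_mul_div, mul_comm C]
    gcongr

theorem t (hI : INV) (hM : M3P) (hQ : CONQ) : Pool.Agent.H80C.CON := by
  intro X _ _ μ _ Φ Ψ Ψ' hΦ hΨ hΨ' hC hΨΨ F G hF hG
  have hC' : Com Φ Ψ' := by
    intro m n x
    have h1 : ∀ y, Φ m (Φ n y) = Φ n (Φ m y) := by
      intro y
      rw [← hΦ.add_apply, ← hΦ.add_apply, add_comm]
    rw [hΨΨ, Equiv.Perm.mul_apply, Equiv.Perm.mul_apply, h1, hC m n x]
  obtain ⟨hA, -⟩ := hI X μ Φ Ψ hΦ hΨ hC
  obtain ⟨hA', -⟩ := hI X μ Φ Ψ' hΦ hΨ' hC'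
  obtain ⟨m1, m2, -, -⟩ := hM X μ Φ hΦ
  have bd : ∀ f : X × X → ℝ, BMr f → ∃ C : ℝ, 0 < C ∧ ∀ z, |f z| ≤ C := by
    intro f hf
    obtain ⟨-, C, hC⟩ := hf
    exact ⟨max C 1, by positivity, fun z => (hC z).trans (le_max_left _ _)⟩
  have e1 : ∀ (n : ℕ) (z : X × X), (D2 Ψ 1)^[n + 1] z = (Ψ (n + 1) z.1, Ψ (n + 1) z.2) := by
    intro n z
    rw [iter hA, D2_apply]
    push_cast
    rfl
  have e2 : ∀ (n : ℕ) (z : X × X), (D2 Ψ' 1)^[n + 1] z = (Ψ' (n + 1) z.1, Ψ' (n + 1) z.2) := by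
    intro n z
    rw [iter hA', D2_apply]
    push_cast
    rfl
  -- the first function
  have stepF : ∀ G' : X × X → ℝ, QI Ψ' G' →
      ∀ᵐ p ∂(M3 μ Φ), ∃ L, Tendsto (fun N => A3 Ψ Ψ' F G' N p) atTop (𝓝 L) := by
    intro G' hG'
    obtain ⟨C, hC0, hCb⟩ := bd G' (qi_bmr hG')
    refine conv_of_approx (M3 μ Φ) (fun N p => A3 Ψ Ψ' F G' N p) fun δ hδ ε hε => ?_
    obtain ⟨v, hv, hve⟩ := hF.2 (ε * δ / C) (by positivity)
    refine ⟨fun N p => A3 Ψ Ψ' v G' N p, hQ X μ Φ Ψ Ψ' hΦ hΨ hΨ' hC hΨΨ v G' hv hG', ?_⟩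
    have h1 := abs_step (M3 μ Φ) (S2 μ Φ) (fun p : X × (X × X) => (p.1, p.2.1)) m1 (D2 Ψ 1) (hA.mp 1)
      F v hF.1 (qi_bmr hv) (fun n p => G' (Ψ' (n + 1) p.1, Ψ' (n + 1) p.2.2)) C hC0
      (fun n p => hCb _) _ hve δ hδ
    have h2 : C * (ε * δ / C) / δ = ε := by field_simp
    rw [h2] at h1
    refine le_trans (le_of_eq ?_) h1
    simp only [e1]
    rfl
  -- the second function
  obtain ⟨C, hC0, hCb⟩ := bd F hF.1
  refine conv_of_approx (M3 μ Φ) (fun N p => A3 Ψ Ψ' F G N p) fun δ hδ ε hε => ?_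
  obtain ⟨v, hv, hve⟩ := hG.2 (ε * δ / C) (by positivity)
  refine ⟨fun N p => A3 Ψ Ψ' F v N p, stepF v hv, ?_⟩
  have h1 := abs_step (M3 μ Φ) (S2 μ Φ) (fun p : X × (X × X) => (p.1, p.2.2)) m2 (D2 Ψ' 1) (hA'.mp 1)
    G v hG.1 (qi_bmr hv) (fun n p => F (Ψ (n + 1) p.1, Ψ (n + 1) p.2.1)) C hC0
    (fun n p => hCb _) _ hve δ hδ
  have h2 : C * (ε * δ / C) / δ = ε := by field_simp
  rw [h2] at h1
  refine le_trans (le_of_eq ?_) h1
  simp only [e2, mul_comm (G _), mul_comm (v _)]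
  rfl

end Pool.Agent.H80C.CON
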