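import Pool.Agent.H80C.Stm

/-!
Project CE (helper80): stub EOI, functions orthogonal to the factor `ZI` have zero energy.
-/

set_option autoImplicit false

open Filter Topology MeasureTheory ProbabilityTheory
open scoped ENNReal ComplexConjugate

noncomputable section

namespace Pool.Agent.H80C.EOI

open Pool.Agent.Y311.UB Pool.Agent.Y311.CX Pool.Agent.H80GE Pool.Agent.H80IE

theorem t (hZ : ZKI) : EOI := by
  intro X _ _ μ _ Φ Ψ hΦ hcom u huB horth
  obtain ⟨hu, C, hu1⟩ := id huB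
  have hu2 : ∀ x, |u x| ≤ |C| := fun x => (hu1 x).trans (le_abs_self C)
  have hFB : BMr fun z : X × X => u z.1 * u z.2 :=
    (huB.comp measurable_fst).mul (huB.comp measurable_snd)
  have hFD : ∀ z : X × X, |u z.1 * u z.2| ≤ |C| * |C| := fun z => by
    rw [abs_mul]
    exact mul_le_mul (hu2 _) (hu2 _) (abs_nonneg _) (abs_nonneg _)
  obtain ⟨H, hHm, hH1, hHint⟩ := condExp_version (inv_le (D2 Ψ) 1)
    (ν := S2 μ Φ) hFB.1 (mul_nonneg (abs_nonneg _) (abs_nonneg _)) hFD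
  have hHB : BMr H := ⟨hHm.mono (inv_le _ _) le_rfl, _, hH1⟩
  have hinv : ∀ z, H (D2 Ψ 1 z) = H z := by
    intro z
    exact congrFun (MeasurableSpace.comp_eq_of_measurable_invariants hHm) z
  unfold En2
  rw [hHint]
  have h1 : ∫ z, u z.1 * (H z * u z.2) ∂(S2 μ Φ) = 0 := by
    have h2 : ∫ z, u z.1 * (H z * u z.2) ∂(S2 μ Φ) = ∫ x, u x * Kf μ Φ 1 H u x ∂μ :=
      int_Kf huB hHB huB
    rw [h2]
    exact horth _ (hZ X μ Φ Ψ hΦ hcom H hHB hinv u huB)
  rw [← h1]
  congr 1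
  funext z
  ring

end Pool.Agent.H80C.EOI
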