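import Pool.Agent.H80C.Stm
import Pool.Agent.H80IE.COR

set_option autoImplicit false

open Filter Topology MeasureTheory ProbabilityTheory

namespace Pool.Agent.H80C

open Pool.Agent.Y311.UB Pool.Agent.Y311.CX Pool.Agent.H80GE Pool.Agent.H80IE

theorem HKC.t (h : INV) : HKC := by
  intro X _ _ μ _ Φ Ψ hA hB hcom w hw
  have h2 : Act (S2 μ Φ) (D2 Ψ) := (h X μ Φ Ψ hA hB hcom).1
  have hW : BMr (fun z : X × X => w z.1 * w z.2) := (hw.comp measurable_fst).mul (hw.comp measurable_snd)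
  have h3 := COR.t (X × X) (S2 μ Φ) (D2 Ψ) h2 _ hW
  refine h3.congr fun M => ?_
  congr 1
  refine Finset.sum_congr rfl fun m _ => ?_
  have hwm : BMr (fun z => w (Ψ (m : ℤ) z) * w z) := (hw.comp (hB.measurable _)).mul hw
  have h4 := int_relSq (μ := μ) (Φ := Φ) (w := 1) hwm hwm
  have h5 : ∫ x, (μ[fun z => w (Ψ (m : ℤ) z) * w z | inv Φ 1]) x ^ 2 ∂μ =
      ∫ x, (μ[fun z => w (Ψ (m : ℤ) z) * w z | inv Φ 1]) x * (μ[fun z => w (Ψ (m : ℤ) z) * w z | inv Φ 1]) x ∂μ := by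
    congr 1
    funext x
    ring
  rw [h5, ← h4]
  refine integral_congr_ae (Eventually.of_forall fun z => ?_)
  simp only [D2_apply]
  ring

end Pool.Agent.H80C
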