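import Pool.Agent.H80C.Stm

/-!
Project CE, stub M3P: the projections of the conditionally independent triples.
-/

set_option autoImplicit false

open Filter Topology MeasureTheory ProbabilityTheory
open scoped ENNReal ComplexConjugate

namespace Pool.Agent.H80C

open Pool.Agent.Y311.UB Pool.Agent.Y311.CX Pool.Agent.H80GE Pool.Agent.H80IE

section gen

variable {X : Type} [MeasurableSpace X] (μ : Measure X) [IsProbabilityMeasure μ] (κ : Kernel X X)
  [IsMarkovKernel κ]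

theorem m3_one :
    MeasurePreserving (fun p : X × (X × X) => (p.1, p.2.1)) (μ ⊗ₘ (κ ×ₖ κ)) (μ ⊗ₘ κ) := by
  refine ⟨by fun_prop, ?_⟩
  have h := Measure.compProd_map (μ := μ) (κ := κ ×ₖ κ) (f := Prod.fst) measurable_fst
  have h2 : (κ ×ₖ κ).map Prod.fst = κ := by
    rw [← Kernel.fst_eq, Kernel.fst_prod]
  rw [h2] at h
  rw [h]
  rfl

theorem m3_two :
    MeasurePreserving (fun p : X × (X × X) => (p.1, p.2.2)) (μ ⊗ₘ (κ ×ₖ κ)) (μ ⊗ₘ κ) := by
  refine ⟨by fun_prop, ?_⟩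
  have h := Measure.compProd_map (μ := μ) (κ := κ ×ₖ κ) (f := Prod.snd) measurable_snd
  have h2 : (κ ×ₖ κ).map Prod.snd = κ := by
    rw [← Kernel.snd_eq, Kernel.snd_prod]
  rw [h2] at h
  rw [h]
  rfl

theorem m3_three (hD : ∀ F : X × X → ℝ≥0∞, Measurable F →
    ∫⁻ z, F z ∂(μ ⊗ₘ κ) = ∫⁻ x, ∫⁻ z, F z ∂((κ x).prod (κ x)) ∂μ) :
    MeasurePreserving (fun p : X × (X × X) => p.2) (μ ⊗ₘ (κ ×ₖ κ)) (μ ⊗ₘ κ) := by
  refine ⟨by fun_prop, ?_⟩
  refine Measure.ext_of_lintegral _ fun F hF => ?_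
  have hF2 : Measurable (fun p : X × (X × X) => F p.2) := hF.comp measurable_snd
  rw [hD F hF, lintegral_map hF (by fun_prop), Measure.lintegral_compProd hF2]
  refine lintegral_congr fun x => ?_
  rw [Kernel.prod_apply]

theorem m3_four : MeasurePreserving (fun p : X × (X × X) => p.1) (μ ⊗ₘ (κ ×ₖ κ)) μ := by
  refine ⟨by fun_prop, ?_⟩
  exact Measure.fst_compProd μ (κ ×ₖ κ)

end gen

theorem M3P.t : M3P := by
  intro X _ _ μ _ Φ h
  exact ⟨m3_one μ _, m3_two μ _, m3_three μ _ (DIS.t RCO.t X μ Φ h), m3_four μ _⟩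

end Pool.Agent.H80C
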