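import Pool.Agent.H80C.Stm

/-!
Project CE (helper80): stub ZIC, convergence for functions in the factors `ZI`.
-/

set_option autoImplicit false

open Filter Topology MeasureTheory ProbabilityTheory
open scoped ENNReal ComplexConjugate

noncomputable section

namespace Pool.Agent.H80C.ZIC

open Pool.Agent.Y311.UB Pool.Agent.Y311.CX Pool.Agent.H80GE Pool.Agent.H80IE

theorem t (_hM : M3P) (h : CON) : ZIC := by
  intro X _ _ μ _ Φ Ψ Ψ' hΦ hΨ hΨ' hc hP s s' hs hs'
  have h1 := h X μ Φ Ψ Ψ' hΦ hΨ hΨ' hc hP (fun z => s z.1) (fun z => s' z.1) hs.2 hs'.2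
  unfold M3 at h1
  have h2 := Measure.ae_ae_of_ae_compProd h1
  filter_upwards [h2] with x hx
  obtain ⟨b, hb⟩ := hx.exists
  exact hb

end Pool.Agent.H80C.ZIC
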