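import Pool.Agent.H80C.LIALG

set_option autoImplicit false

open Filter Topology MeasureTheory ProbabilityTheory
open scoped ENNReal ProbabilityTheory

namespace Pool.Agent.H80C

open Pool.Agent.Y311.UB Pool.Agent.Y311.CX Pool.Agent.H80GE Pool.Agent.H80IE

theorem QI.sumZ {X : Type} [MeasurableSpace X] {Ψ : ℤ → Equiv.Perm X}
    {F : ℕ → X × X → ℝ} (hF : ∀ n, QI Ψ (F n)) (H : ℕ) : QI Ψ (fun z => ∑ n ∈ Finset.range H, F n z) := by
  induction H with
  | zero =>
    have h1 := QI.base (Ψ := Ψ) (fun _ => (0 : ℝ)) (fun _ : X => (1 : ℝ)) ⟨measurable_const, 0, fun _ => by simp⟩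
      (fun _ => rfl) BMr.one
    simpa using h1
  | succ H ih =>
    have h1 : (fun z : X × X => ∑ n ∈ Finset.range (H + 1), F n z) = fun z => ∑ n ∈ Finset.range H, F n z + F H z := by
      funext z
      rw [Finset.sum_range_succ]
    rw [h1]
    exact QI.add _ _ ih (hF H)

theorem QI.smulZ {X : Type} [MeasurableSpace X] {Ψ : ℤ → Equiv.Perm X} {u : X × X → ℝ} (h : QI Ψ u) (c : ℝ) :
    QI Ψ (fun z => c * u z) := by
  induction h with
  | base k g hk hki hg =>
    have h1 := QI.base (Ψ := Ψ) (fun z => c * k z) g (BMr.smul' hk c) (fun z => by rw [hki]) hg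
    have h2 : (fun z : X × X => c * (k z * g z.2)) = fun z => (c * k z) * g z.2 := by
      funext z
      ring
    rw [h2]
    exact h1
  | add u v _ _ ihu ihv =>
    have h2 : (fun z : X × X => c * (u z + v z)) = fun z => c * u z + c * v z := by
      funext z
      ring
    rw [h2]
    exact QI.add _ _ ihu ihv

theorem ZKI.t (hFA : FAV) : ZKI := by
  intro X _ _ μ _ Φ Ψ h hc k hk hki w hw
  have hKB : BMr (Kf μ Φ 1 k w) := Kf_BMr hk hw
  refine ⟨hKB, hKB.comp measurable_fst, fun ε hε => ?_⟩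
  have hu : BMr (fun z : X × X => k z * w z.2) := hk.mul (hw.comp measurable_snd)
  have h1 := hFA X μ Φ h _ hu
  obtain ⟨H, hH⟩ := ((tendsto_order.1 h1).2 ε hε).exists
  refine ⟨fun z => (H : ℝ)⁻¹ * ∑ n ∈ Finset.range H, k (z.1, Φ (n : ℤ) z.2) * w (Φ (n : ℤ) z.2), ?_, ?_⟩
  · refine (QI.sumZ (fun n => ?_) H).smulZ _
    refine QI.base (fun z : X × X => k (z.1, Φ (n : ℤ) z.2)) (fun y => w (Φ (n : ℤ) y)) ?_ (fun z => ?_)
      (hw.comp (h.measurable _))
    · exact hk.comp (measurable_fst.prodMk ((h.measurable _).comp measurable_snd))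
    · rw [D2_apply]
      simp only
      rw [hc]
      have h2 := hki (z.1, Φ (n : ℤ) z.2)
      rw [D2_apply] at h2
      exact h2
  · refine le_trans (le_of_eq ?_) hH.le
    refine integral_congr_ae (Eventually.of_forall fun z => ?_)
    simp only
    rw [abs_sub_comm]
    rfl

end Pool.Agent.H80C
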