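import Pool.Agent.H80C.INV
import Pool.Agent.H80C.M3P
import Pool.Agent.H80C.CONQ
import Pool.Agent.H80C.CONV
import Pool.Agent.H80C.ZIC
import Pool.Agent.H80C.ZKI
import Pool.Agent.H80C.EOI
import Pool.Agent.H80C.HKC
import Pool.Agent.H80IE.FERG
import Pool.Agent.H80IE.FAV

set_option autoImplicit false

namespace Pool.Agent.H80C

theorem hkc : HKC := HKC.t INV.t

theorem eoi : EOI := EOI.t (ZKI.t (Pool.Agent.H80IE.FAV.t Pool.Agent.H80IE.FERG.t))

theorem zic : ZIC := ZIC.t M3P.t (CON.t INV.t M3P.t (CONQ.t INV.t M3P.t))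

end Pool.Agent.H80C
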