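import Pool.Agent.H80C.Stm2
import Pool.Agent.H80GE.Transfer

/-!
# CLF of project CE: functions which are close in the mean have close averages

Copy of `close` (`H80GE/Transfer.lean`) for several maps.
-/

set_option autoImplicit false

open Filter Topology MeasureTheory ProbabilityTheory Finset
open scoped ENNReal ComplexConjugate

noncomputable section

namespace Pool.Agent.H80C.CLF

open Pool.Agent.Y311.UB Pool.Agent.Y311.CX Pool.Agent.H80GE Pool.Agent.H80IE Pool.Agent.H80C

theorem t : Pool.Agent.H80C.CLF := by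
  intro X _ ν _ m T hT f g hf hg C hC hfC hgC ε hfg δ hδ
  have hC0 : 0 < C := by linarith
  set δ' : ℝ := δ / (C ^ m * (m + 1)) with hδ'
  have hδ'0 : 0 < δ' := by positivity
  set u : Fin m → X → ℝ := fun j x => ‖f j x - g j x‖ with hu
  have hum : ∀ j, Measurable (u j) := fun j => ((hf j).sub (hg j)).norm
  have hub : ∀ j x, u j x ≤ C + C := fun j x => (norm_sub_le _ _).trans (add_le_add (hfC j x) (hgC j x))
  set U : Fin m → Set X := fun j =>
    {z | ¬ ∀ᶠ N : ℕ in atTop, (N : ℝ)⁻¹ * ∑ n ∈ range N, u j ((T j)^[n + 1] z) ≤ δ'} with hU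
  have hsub : {x | ¬ ∀ᶠ N : ℕ in atTop, ‖AVF T f N x - AVF T g N x‖ ≤ δ} ⊆ ⋃ j ∈ (Finset.univ : Finset (Fin m)), U j := by
    intro x hx
    by_contra hcon
    apply hx
    have hev : ∀ j : Fin m, ∀ᶠ N : ℕ in atTop, (N : ℝ)⁻¹ * ∑ n ∈ range N, u j ((T j)^[n + 1] x) ≤ δ' := by
      intro j
      by_contra hne
      exact hcon (Set.mem_biUnion (Finset.mem_coe.2 (Finset.mem_univ j)) hne)
    filter_upwards [Filter.eventually_all.2 hev] with N hN
    unfold AVF av
    rw [← mul_sub, ← Finset.sum_sub_distrib, norm_mul, norm_inv, Complex.norm_natCast]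
    calc (N : ℝ)⁻¹ * ‖∑ n ∈ range N, (∏ j, f j ((T j)^[n + 1] x) - ∏ j, g j ((T j)^[n + 1] x))‖
        ≤ (N : ℝ)⁻¹ * ∑ n ∈ range N, C ^ m * ∑ j, u j ((T j)^[n + 1] x) := by
          gcongr
          refine norm_sum_le_of_le _ fun n _ => ?_
          have := prod_sub_le C hC Finset.univ (fun j => f j ((T j)^[n + 1] x))
            (fun j => g j ((T j)^[n + 1] x)) (fun j => hfC j _) (fun j => hgC j _)
          rw [Finset.card_univ, Fintype.card_fin] at this
          exact this
      _ = C ^ m * ∑ j, (N : ℝ)⁻¹ * ∑ n ∈ range N, u j ((T j)^[n + 1] x) := by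
          rw [← Finset.mul_sum, Finset.sum_comm, ← Finset.mul_sum]
          ring
      _ ≤ C ^ m * ∑ _j : Fin m, δ' := by
          gcongr with j _
          exact hN j
      _ ≤ δ := by
          rw [Finset.sum_const, Finset.card_univ, Fintype.card_fin, nsmul_eq_mul, hδ']
          have e : C ^ m * ((m : ℝ) * (δ / (C ^ m * (m + 1)))) = δ * (m / (m + 1)) := by field_simp
          rw [e]
          have e3 : (m : ℝ) / (m + 1) ≤ 1 := by rw [div_le_one (by positivity)]; linarith
          nlinarith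
  refine (measure_mono hsub).trans ((measure_biUnion_finset_le _ _).trans ?_)
  have hUb : ∀ j ∈ (Finset.univ : Finset (Fin m)), ν (U j) ≤ ENNReal.ofReal (C ^ m * (m + 1) * ε / δ) := by
    intro j _
    have hsm := avg_small ν (hT j) 1 (u j) (hum j) (C + C) (fun z => norm_nonneg _) (hub j) δ' hδ'0
    simp only [one_mul] at hsm
    refine hsm.trans ?_
    apply ENNReal.ofReal_le_ofReal
    have e : C ^ m * (m + 1) * ε / δ = ε / δ' := by rw [hδ']; field_simp
    rw [e]
    gcongr
    exact hfg j
  refine (Finset.sum_le_sum hUb).trans ?_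
  rw [Finset.sum_const, Finset.card_univ, Fintype.card_fin, nsmul_eq_mul, ← ENNReal.ofReal_natCast,
    ← ENNReal.ofReal_mul (by positivity)]


end Pool.Agent.H80C.CLF
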