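import Pool.Agent.H80C.Stm2

/-!
Project CE, stub CORF: the core estimate for a family of skew products over commuting maps. A copy of the proofs in
`Pool/Agent/H80GE/Core.lean`.
-/

set_option autoImplicit false

open Filter Topology MeasureTheory ProbabilityTheory Finset
open scoped ENNReal ComplexConjugate

noncomputable section

namespace Pool.Agent.H80C.CORF

open Pool.Agent.H80GE

section Core

variable {Y K : Type} [MeasurableSpace Y] [Group K] [MeasurableSpace K] [MeasurableMul₂ K]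
  {μ : Measure Y} [IsProbabilityMeasure μ] {ρ : Measure K} [IsProbabilityMeasure ρ] [ρ.IsMulLeftInvariant]
  {m : ℕ} {S : Fin m → Y → Y} {σ : Fin m → Y → K} {g : Fin m → Y × K → ℂ}

lemma uuF_meas (hS : ∀ j, Measurable (S j)) (hσ : ∀ j, Measurable (σ j)) (hg : ∀ j, Measurable (g j)) (n : ℕ) :
    Measurable (fun p : Y × (Fin m → K) => uuF S σ g n p.1 p.2) := by
  unfold uuF
  refine Finset.measurable_prod _ fun j _ => (hg j).comp ?_
  exact ((sk_meas (hS _) (hσ _)).iterate _).comp (measurable_fst.prodMk ((measurable_pi_apply j).comp measurable_snd))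

lemma uuF_bound {D : ℝ} (hD : ∀ j z, ‖g j z‖ ≤ D) (n : ℕ) (y : Y) (κ : Fin m → K) :
    ‖uuF S σ g n y κ‖ ≤ D ^ m := by
  unfold uuF
  rw [norm_prod]
  calc ∏ j, ‖g j ((sk (S j) (σ j))^[n + 1] (y, κ j))‖ ≤ ∏ _j : Fin m, D :=
        Finset.prod_le_prod (fun _ _ => norm_nonneg _) fun j _ => hD j _
    _ = D ^ m := by simp

lemma uuF_cor (hg : ∀ j, Measurable (g j)) (y : Y) (d n : ℕ) :
    ∫ κ, uuF S σ g (n + d) y κ * conj (uuF S σ g n y κ) ∂(Measure.pi fun _ : Fin m => ρ) =
      ∏ j, psiF ρ S σ g d j ((S j)^[n + 1] y) := by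
  have e : ∀ κ : Fin m → K, uuF S σ g (n + d) y κ * conj (uuF S σ g n y κ) =
      ∏ j, (fun x : K => g j ((sk (S j) (σ j))^[n + d + 1] (y, x)) * conj (g j ((sk (S j) (σ j))^[n + 1] (y, x))))
        (κ j) := by
    intro κ
    unfold uuF
    rw [map_prod, ← Finset.prod_mul_distrib]
  simp_rw [e]
  rw [integral_fintype_prod_eq_prod (μ := fun _ : Fin m => ρ) (fun (j : Fin m) (x : K) =>
    g j ((sk (S j) (σ j))^[n + d + 1] (y, x)) * conj (g j ((sk (S j) (σ j))^[n + 1] (y, x))))]
  refine Finset.prod_congr rfl fun j _ => ?_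
  unfold psiF
  rw [← integral_mul_left_eq_self (μ := ρ) (fun κ => g j ((sk (S j) (σ j))^[d] ((S j)^[n + 1] y, κ)) *
    conj (g j ((S j)^[n + 1] y, κ))) (co (S j) (σ j) (n + 1) y)]
  refine integral_congr_ae (Eventually.of_forall fun κ => ?_)
  simp only
  have h1 : (sk (S j) (σ j))^[n + 1] (y, κ) = ((S j)^[n + 1] y, co (S j) (σ j) (n + 1) y * κ) := sk_iter _ _ _ _
  have h2 : (sk (S j) (σ j))^[n + d + 1] (y, κ) =
      (sk (S j) (σ j))^[d] ((sk (S j) (σ j))^[n + 1] (y, κ)) := by
    rw [← Function.iterate_add_apply, show n + d + 1 = d + (n + 1) by ring]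
  rw [h2, h1]

lemma psiF_meas (hS : ∀ j, Measurable (S j)) (hσ : ∀ j, Measurable (σ j)) (hg : ∀ j, Measurable (g j)) (d : ℕ) (j : Fin m) :
    Measurable (psiF ρ S σ g d j) := by
  unfold psiF
  have h : StronglyMeasurable (fun p : Y × K => g j ((sk (S j) (σ j))^[d] p) * conj (g j p)) :=
    (((hg j).comp ((sk_meas (hS _) (hσ _)).iterate _)).mul (Complex.continuous_conj.measurable.comp (hg j))).stronglyMeasurable
  exact (h.integral_prod_right' (ν := ρ)).measurable

lemma psiF_bound {D : ℝ} (hD : ∀ j z, ‖g j z‖ ≤ D) (d : ℕ) (j : Fin m) (w : Y) :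
    ‖psiF ρ S σ g d j w‖ ≤ D ^ 2 := by
  unfold psiF
  refine (norm_integral_le_of_norm_le_const (C := D ^ 2) (Eventually.of_forall fun κ => ?_)).trans (by simp)
  rw [norm_mul, RCLike.norm_conj, sq]
  exact mul_le_mul (hD _ _) (hD _ _) (norm_nonneg _) ((norm_nonneg _).trans (hD j (w, κ)))

lemma BBF_meas (hS : ∀ j, Measurable (S j)) (hσ : ∀ j, Measurable (σ j)) (hg : ∀ j, Measurable (g j)) (N : ℕ) :
    Measurable (BBF ρ S σ g N) := by
  unfold BBF
  have h : StronglyMeasurable (fun p : Y × (Fin m → K) => ‖av N (fun n => uuF S σ g n p.1 p.2)‖ ^ 2) := by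
    refine (Measurable.pow_const (Measurable.norm ?_) 2).stronglyMeasurable
    exact (Finset.measurable_sum _ fun n _ => uuF_meas hS hσ hg n).const_mul _
  exact (h.integral_prod_right' (ν := Measure.pi fun _ : Fin m => ρ)).measurable

lemma uuF_meas_right (hS : ∀ j, Measurable (S j)) (hσ : ∀ j, Measurable (σ j)) (hg : ∀ j, Measurable (g j)) (n : ℕ) (y : Y) :
    Measurable (fun κ => uuF S σ g n y κ) :=
  (uuF_meas hS hσ hg n).comp (measurable_const.prodMk measurable_id)

/-- The averages are small in the mean square over the fibres, for most points of the base, if the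
correlations over the base are small in the mean and converge almost everywhere. -/
theorem core (hS : ∀ j, MeasurePreserving (S j) μ μ) (hσ : ∀ j, Measurable (σ j)) (hg : ∀ j, Measurable (g j)) {D : ℝ}
    (hD : ∀ j z, ‖g j z‖ ≤ D)
    (hconv : ∀ d : ℕ, ∀ᵐ y ∂μ, ∃ L, Tendsto (fun N => av N (fun n => ∏ j, psiF ρ S σ g d j ((S j)^[n + 1] y)))
      atTop (𝓝 L)) (ε : ℝ) (H : ℕ) (hH : 0 < H)
    (hε : ∀ᶠ N : ℕ in atTop, ((H : ℝ)⁻¹) ^ 2 * ∑ h ∈ range H, ∑ h' ∈ range H,
      (av N (fun n => ∫ y, ∏ j, psiF ρ S σ g (Nat.dist h h') j ((S j)^[n + 1] y) ∂μ)).re ≤ ε)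
    (η : ℝ) (hη : 0 < η) :
    μ {y | ¬ ∀ᶠ N : ℕ in atTop, BBF ρ S σ g N y ≤ η} ≤ ENNReal.ofReal (ε / η) := by
  set c : Y → ℕ → ℕ → ℂ := fun y d n => ∏ j, psiF ρ S σ g d j ((S j)^[n + 1] y) with hc
  have hcm : ∀ d n, Measurable (fun y => c y d n) := fun d n =>
    Finset.measurable_prod _ fun j _ => (psiF_meas (fun j => (hS j).measurable) hσ hg d j).comp ((hS j).measurable.iterate _)
  have hcb : ∀ y d n, ‖c y d n‖ ≤ (D ^ 2) ^ m := by
    intro y d n
    simp only [hc]
    rw [norm_prod]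
    calc ∏ j, ‖psiF ρ S σ g d j ((S j)^[n + 1] y)‖ ≤ ∏ _j : Fin m, D ^ 2 :=
          Finset.prod_le_prod (fun _ _ => norm_nonneg _) fun j _ => psiF_bound hD d j _
      _ = (D ^ 2) ^ m := by simp
  set C : ℝ := (D ^ 2) ^ m with hC
  have hC0 : 0 ≤ C := by positivity
  -- the double averages
  set G : ℕ → Y → ℝ := fun N y => ((H : ℝ)⁻¹) ^ 2 * ∑ h ∈ range H, ∑ h' ∈ range H,
    (av N (c y (Nat.dist h h'))).re with hG
  have hvdc : ∀ N y, 0 < N → BBF ρ S σ g N y ≤ G N y + 6 * (D ^ m) ^ 2 * H / N := by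
    intro N y hN
    exact vdc_cor (Measure.pi fun _ : Fin m => ρ) (fun n => (uuF_meas_right (fun j => (hS j).measurable) hσ hg n y).aestronglyMeasurable)
      (fun n κ => uuF_bound hD n y κ) (c y) (fun d n => uuF_cor hg y d n) N H hN hH
  have hGm : ∀ N, Measurable (G N) := by
    intro N
    refine (Finset.measurable_sum _ fun h _ => Finset.measurable_sum _ fun h' _ => ?_).const_mul _
    refine Complex.measurable_re.comp ?_
    exact (Finset.measurable_sum _ fun n _ => hcm _ _).const_mul _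
  have hHR : (0 : ℝ) < H := by exact_mod_cast hH
  have hGb : ∀ N y, ‖G N y‖ ≤ C := by
    intro N y
    simp only [hG]
    rw [norm_mul, norm_pow, norm_inv, Real.norm_natCast]
    calc ((H : ℝ)⁻¹) ^ 2 * ‖∑ h ∈ range H, ∑ h' ∈ range H, (av N (c y (Nat.dist h h'))).re‖
        ≤ ((H : ℝ)⁻¹) ^ 2 * ∑ h ∈ range H, ∑ h' ∈ range H, C := by
          gcongr
          refine norm_sum_le_of_le _ fun h _ => norm_sum_le_of_le _ fun h' _ => ?_
          rw [Real.norm_eq_abs]
          exact (Complex.abs_re_le_norm _).trans (av_norm_le hC0 fun n => hcb y _ n)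
      _ = C := by
          simp only [Finset.sum_const, Finset.card_range, nsmul_eq_mul]
          field_simp
  have hall : ∀ᵐ y ∂μ, ∀ d : ℕ, ∃ L, Tendsto (fun N => av N (c y d)) atTop (𝓝 L) := ae_all_iff.2 hconv
  have hGlim : ∀ᵐ y ∂μ, ∃ L : ℝ, Tendsto (fun N => G N y) atTop (𝓝 L) := by
    filter_upwards [hall] with y hy
    choose γ hγ using hy
    refine ⟨((H : ℝ)⁻¹) ^ 2 * ∑ h ∈ range H, ∑ h' ∈ range H, (γ (Nat.dist h h')).re, ?_⟩
    refine Tendsto.const_mul _ (tendsto_finsetSum _ fun h _ => tendsto_finsetSum _ fun h' _ => ?_)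
    exact (Complex.continuous_re.tendsto _).comp (hγ _)
  set W : Y → ℝ := fun y => limUnder atTop (fun N => G N y) with hW
  have hWlim : ∀ᵐ y ∂μ, Tendsto (fun N => G N y) atTop (𝓝 (W y)) := by
    filter_upwards [hGlim] with y hy
    exact tendsto_nhds_limUnder hy
  have hWm : AEStronglyMeasurable W μ :=
    aestronglyMeasurable_of_tendsto_ae atTop (fun N => (hGm N).aestronglyMeasurable) hWlim
  have hWint : Tendsto (fun N => ∫ y, G N y ∂μ) atTop (𝓝 (∫ y, W y ∂μ)) :=
    tendsto_integral_of_dominated_convergence (fun _ => C) (fun N => (hGm N).aestronglyMeasurable)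
      (integrable_const _) (fun N => Eventually.of_forall fun y => hGb N y) hWlim
  have hWε : ∫ y, W y ∂μ ≤ ε := by
    refine le_of_tendsto hWint ?_
    filter_upwards [hε] with N hN
    refine le_trans (le_of_eq ?_) hN
    simp only [hG]
    have hi : ∀ d, Integrable (fun y => (av N (c y d)).re) μ := by
      intro d
      refine Integrable.of_bound (Complex.measurable_re.comp
        ((Finset.measurable_sum _ fun n _ => hcm _ _).const_mul _)).aestronglyMeasurable C
        (Eventually.of_forall fun y => ?_)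
      rw [Real.norm_eq_abs]
      exact (Complex.abs_re_le_norm _).trans (av_norm_le hC0 fun n => hcb y _ n)
    rw [integral_const_mul, integral_finsetSum _ fun h _ => integrable_finsetSum _ fun h' _ => hi _]
    congr 1
    refine Finset.sum_congr rfl fun h _ => ?_
    rw [integral_finsetSum _ fun h' _ => hi _]
    refine Finset.sum_congr rfl fun h' _ => ?_
    have hic : ∀ n, Integrable (fun y => c y (Nat.dist h h') n) μ := fun n =>
      Integrable.of_bound (hcm _ _).aestronglyMeasurable C (Eventually.of_forall fun y => hcb y _ n)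
    have hiav : Integrable (fun y => av N (c y (Nat.dist h h'))) μ := by
      unfold av
      exact (integrable_finsetSum _ fun n _ => hic n).const_mul _
    have h1 : ∫ y, (av N (c y (Nat.dist h h'))).re ∂μ = (∫ y, av N (c y (Nat.dist h h')) ∂μ).re :=
      integral_re hiav
    rw [h1]
    congr 1
    unfold av
    rw [integral_const_mul, integral_finsetSum _ fun n _ => hic n]
  -- the limit is nonnegative
  have herr : Tendsto (fun N : ℕ => 6 * (D ^ m) ^ 2 * H / (N : ℝ)) atTop (𝓝 0) :=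
    tendsto_const_div_atTop_nhds_zero_nat _
  have hW0 : 0 ≤ᵐ[μ] W := by
    filter_upwards [hWlim] with y hy
    have h1 := hy.add herr
    rw [add_zero] at h1
    refine ge_of_tendsto h1 ?_
    filter_upwards [eventually_gt_atTop 0] with N hN
    exact (integral_nonneg fun κ => by positivity).trans (hvdc N y hN)
  have hWi : Integrable W μ := by
    refine Integrable.of_bound hWm C ?_
    filter_upwards [hWlim] with y hy
    exact le_of_tendsto hy.norm (Eventually.of_forall fun N => hGb N y)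
  have hmark := mul_meas_ge_le_integral_of_nonneg hW0 hWi η
  have hsub : {y | ¬ ∀ᶠ N : ℕ in atTop, BBF ρ S σ g N y ≤ η} ≤ᵐ[μ] {y | η ≤ W y} := by
    filter_upwards [hWlim] with y hy hbad
    change η ≤ W y
    by_contra hcon
    rw [not_le] at hcon
    apply hbad
    have h1 := hy.add herr
    rw [add_zero] at h1
    filter_upwards [(tendsto_order.1 h1).2 _ hcon, eventually_gt_atTop 0] with N hN hN0
    exact (hvdc N y hN0).trans hN.le
  calc μ {y | ¬ ∀ᶠ N : ℕ in atTop, BBF ρ S σ g N y ≤ η} ≤ μ {y | η ≤ W y} := measure_mono_ae hsub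
    _ = ENNReal.ofReal (μ.real {y | η ≤ W y}) := by rw [ofReal_measureReal]
    _ ≤ ENNReal.ofReal (ε / η) := by
        apply ENNReal.ofReal_le_ofReal
        rw [le_div_iff₀ hη, mul_comm]
        exact hmark.trans hWε

end Core

theorem t : CORF := by
  intro Y K _ _ _ _ μ _ ρ _ _ m S σ g hS hσ hg D hD hconv ε H hH hε η hη
  exact core hS hσ hg hD hconv ε H hH hε η hη

end Pool.Agent.H80C.CORF
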