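import Pool.Agent.H80C.Stm2

/-!
The multilinear expansion and the decomposition.
-/

set_option autoImplicit false
set_option linter.unusedSectionVars false

open Filter Topology MeasureTheory ProbabilityTheory
open scoped ENNReal ProbabilityTheory ComplexConjugate

namespace Pool.Agent.H80C

open Pool.Agent.Y311.UB Pool.Agent.Y311.CX Pool.Agent.H80GE Pool.Agent.H80IE

section Slot

variable {X : Type} {m : ℕ} {T : Fin m → X → X}

lemma AVF_slot_add (f : Fin m → X → ℂ) (j0 : Fin m) (g h : X → ℂ) (N : ℕ) (x : X) :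
    AVF T (slot f j0 (g + h)) N x = AVF T (slot f j0 g) N x + AVF T (slot f j0 h) N x := by
  unfold AVF av
  rw [← mul_add, ← Finset.sum_add_distrib]
  congr 1
  refine Finset.sum_congr rfl fun n _ => ?_
  beta_reduce
  rw [slot_prod f j0 (g + h) (fun j => (T j)^[n + 1] x), slot_prod f j0 g (fun j => (T j)^[n + 1] x),
    slot_prod f j0 h (fun j => (T j)^[n + 1] x), Pi.add_apply]
  ring

lemma AVF_slot_smul (f : Fin m → X → ℂ) (j0 : Fin m) (c : ℂ) (g : X → ℂ) (N : ℕ) (x : X) :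
    AVF T (slot f j0 (c • g)) N x = c * AVF T (slot f j0 g) N x := by
  unfold AVF av
  rw [mul_left_comm]
  congr 1
  rw [Finset.mul_sum]
  refine Finset.sum_congr rfl fun n _ => ?_
  beta_reduce
  rw [slot_prod f j0 (c • g) (fun j => (T j)^[n + 1] x), slot_prod f j0 g (fun j => (T j)^[n + 1] x),
    Pi.smul_apply, smul_eq_mul]
  ring

end Slot

section

variable {X : Type} [MeasurableSpace X] [StandardBorelSpace X] {μ : Measure X} [IsProbabilityMeasure μ]
  {Φ Ψ : ℤ → Equiv.Perm X}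

theorem ZI_calg (hL : LIALG) (μ : Measure X) [IsProbabilityMeasure μ] (Φ Ψ : ℤ → Equiv.Perm X) :
    CAlg μ (ZI μ Φ Ψ) := by
  have h := hL X (S2 μ Φ) Ψ
  refine ⟨fun f hf => hf.1, fun f g hf hg => ⟨BMr.add' hf.1 hg.1, h.add _ _ hf.2 hg.2⟩,
    fun f g hf hg => ⟨hf.1.mul hg.1, h.mul _ _ hf.2 hg.2⟩, fun c f hf => ⟨BMr.smul' hf.1 c, h.smul c _ hf.2⟩,
    fun c => ⟨⟨measurable_const, |c|, fun _ => le_rfl⟩, h.const c⟩, fun f hf hcl => ⟨hf, ?_⟩⟩
  refine h.closed _ (hf.comp measurable_fst) fun ε hε => ?_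
  obtain ⟨s, hs, h1⟩ := hcl ε hε
  refine ⟨fun z => s z.1, hs.2, ?_⟩
  have h2 := integral_map (μ := S2 μ Φ) (φ := Prod.fst) (relSq_fst μ Φ 1).measurable.aemeasurable
    (f := fun x => |f x - s x|) (BMr.absSub hf hs.1).1.aestronglyMeasurable
  rw [(relSq_fst μ Φ 1).map_eq] at h2
  rw [← h2]
  exact h1

/-- the decomposition of a bounded function into a structured function and a function with energy zero -/
theorem decompI (hL : LIALG) (hE : EOI) (h : Act μ Φ) (hc : Com Φ Ψ) {f : X → ℝ} (hf : BMr f) :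
    ∃ s w : X → ℝ, ZI μ Φ Ψ s ∧ BMr w ∧ En2 μ Φ Ψ w = 0 ∧ ∀ x, f x = s x + w x := by
  obtain ⟨hfm, C, hC⟩ := hf
  have hfB : BMr f := ⟨hfm, C, hC⟩
  set c : ℝ := |C| + 1 with hc'
  have hc0 : 0 < c := by positivity
  have hf1 : ∀ x, |c⁻¹ * f x| ≤ 1 := by
    intro x
    rw [abs_mul, abs_of_pos (inv_pos.2 hc0), inv_mul_le_iff₀ hc0, mul_one]
    exact (hC x).trans ((le_abs_self C).trans (by rw [hc']; linarith))
  obtain ⟨fs, hfs, -, hort⟩ := GPROJ.t X μ (ZI μ Φ Ψ) (ZI_calg hL μ Φ Ψ) (fun x => c⁻¹ * f x) (hfm.const_mul _) hf1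
  have hs : ZI μ Φ Ψ (fun x => c * fs x) := (ZI_calg hL μ Φ Ψ).smul c fs hfs
  have hw : BMr (fun x => f x - c * fs x) := by
    have := BMr.add' hfB (BMr.smul' hs.1 (-1))
    refine ⟨?_, ?_⟩
    · exact hfm.sub hs.1.1
    · obtain ⟨D, hD⟩ := this.2
      refine ⟨D, fun x => ?_⟩
      have e : f x - c * fs x = f x + -1 * (c * fs x) := by ring
      show |f x - c * fs x| ≤ D
      rw [e]
      exact hD x
  refine ⟨fun x => c * fs x, fun x => f x - c * fs x, hs, hw, ?_, fun x => by ring⟩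
  refine hE X μ Φ Ψ h hc _ hw fun s hs' => ?_
  have h1 := hort s hs'
  have h2 : ∫ x, (f x - c * fs x) * s x ∂μ = c * ∫ x, (c⁻¹ * f x - fs x) * s x ∂μ := by
    rw [← integral_const_mul]
    refine integral_congr_ae (Eventually.of_forall fun x => ?_)
    simp only
    field_simp
  rw [h2, h1, mul_zero]

end

section

variable {X : Type} [MeasurableSpace X] [StandardBorelSpace X] {μ : Measure X}

/-- the multilinear expansion -/
theorem conv_expandF {m : ℕ} (T : Fin m → X → X) (Z E : Fin m → (X → ℝ) → Prop) (hZB : ∀ j s, Z j s → BMr s)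
    (hdec : ∀ j f, BMr f → ∃ s w : X → ℝ, Z j s ∧ BMr w ∧ E j w ∧ ∀ x, f x = s x + w x)
    (hZ : ∀ s : Fin m → X → ℝ, (∀ j, Z j (s j)) →
      ∀ᵐ x ∂μ, ∃ L, Tendsto (fun N => AVF T (fun j x => ((s j x : ℝ) : ℂ)) N x) atTop (𝓝 L))
    (hzero : ∀ f : Fin m → X → ℂ, (∀ j, Measurable (f j)) → (∃ C, ∀ j x, ‖f j x‖ ≤ C) →
      (∃ j w, BMr w ∧ E j w ∧ ∀ x, f j x = ((w x : ℝ) : ℂ)) → ∀ᵐ x ∂μ, Tendsto (fun N => AVF T f N x) atTop (𝓝 0))
    (f : Fin m → X → ℂ) (hf : ∀ j, BMc (f j)) :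
    ∀ᵐ x ∂μ, ∃ L, Tendsto (fun N => AVF T f N x) atTop (𝓝 L) := by
  classical
  have key : ∀ J : Finset (Fin m), ∀ f : Fin m → X → ℂ, (∀ j, BMc (f j)) →
      (∀ j, j ∉ J → ∃ s, Z j s ∧ f j = fun x => ((s x : ℝ) : ℂ)) →
      ∀ᵐ x ∂μ, ∃ L, Tendsto (fun N => AVF T f N x) atTop (𝓝 L) := by
    intro J
    induction J using Finset.induction_on with
    | empty =>
      intro f _ hs
      choose s hs1 hs2 using fun j => hs j (Finset.notMem_empty j)
      have e : f = fun j x => ((s j x : ℝ) : ℂ) := funext hs2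
      rw [e]
      exact hZ s hs1
    | insert i J hi ih =>
      intro f hf hs
      obtain ⟨hm, C, hC⟩ := hf i
      have hre : BMr (fun x => (f i x).re) :=
        ⟨Complex.measurable_re.comp hm, C, fun x => (Complex.abs_re_le_norm _).trans (hC x)⟩
      have him : BMr (fun x => (f i x).im) :=
        ⟨Complex.measurable_im.comp hm, C, fun x => (Complex.abs_im_le_norm _).trans (hC x)⟩
      obtain ⟨s1, w1, hs1, hw1, hb1, he1⟩ := hdec i _ hre
      obtain ⟨s2, w2, hs2, hw2, hb2, he2⟩ := hdec i _ him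
      have hslot : ∀ g : X → ℂ, BMc g → ∀ j, BMc (slot f i g j) := by
        intro g hg j
        unfold slot
        split_ifs
        · exact hg
        · exact hf j
      have hS : ∀ s, Z i s → ∀ᵐ x ∂μ, ∃ L,
          Tendsto (fun N => AVF T (slot f i (fun x => ((s x : ℝ) : ℂ))) N x) atTop (𝓝 L) := by
        intro s hs'
        refine ih _ (hslot _ (BMc.of_real (hZB i s hs'))) fun j hj => ?_
        by_cases hji : j = i
        · subst hji
          exact ⟨s, hs', by simp [slot]⟩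
        · obtain ⟨t, ht1, ht2⟩ := hs j (by simp [hji, hj])
          exact ⟨t, ht1, by simp [slot, hji, ht2]⟩
      have hWt : ∀ w, BMr w → E i w → ∀ᵐ x ∂μ,
          Tendsto (fun N => AVF T (slot f i (fun x => ((w x : ℝ) : ℂ))) N x) atTop (𝓝 0) := by
        intro w hw hb
        refine hzero _ (fun j => (hslot _ (BMc.of_real hw) j).1) (unif_bound (hslot _ (BMc.of_real hw)))
          ⟨i, w, hw, hb, fun x => ?_⟩
        simp [slot]
      have e : f i = (fun x => ((s1 x : ℝ) : ℂ)) + (fun x => ((w1 x : ℝ) : ℂ)) +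
          Complex.I • ((fun x => ((s2 x : ℝ) : ℂ)) + (fun x => ((w2 x : ℝ) : ℂ))) := by
        funext x
        simp only [Pi.add_apply, Pi.smul_apply, smul_eq_mul]
        rw [← Complex.ofReal_add, ← he1, ← Complex.ofReal_add, ← he2, mul_comm Complex.I, Complex.re_add_im]
      filter_upwards [hS s1 hs1, hWt w1 hw1 hb1, hS s2 hs2, hWt w2 hw2 hb2] with x h1 h2 h3 h4
      obtain ⟨L1, h1⟩ := h1
      obtain ⟨L3, h3⟩ := h3
      refine ⟨(L1 + 0) + Complex.I * (L3 + 0), ((h1.add h2).add ((h3.add h4).const_mul _)).congr fun N => ?_⟩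
      have e2 := slot_self f i
      conv_rhs => rw [← e2, e]
      rw [AVF_slot_add, AVF_slot_add, AVF_slot_smul, AVF_slot_add]
  exact key Finset.univ f hf fun j hj => absurd (Finset.mem_univ j) hj

end

end Pool.Agent.H80C
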