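import Pool.Agent.H80C.Neg2
import Pool.Agent.H80C.Exp

/-!
The theorem for skew products over two commuting maps.
-/

set_option autoImplicit false
set_option linter.unusedSectionVars false

open Filter Topology MeasureTheory ProbabilityTheory
open scoped ENNReal ProbabilityTheory ComplexConjugate

namespace Pool.Agent.H80C

open Pool.Agent.Y311.UB Pool.Agent.Y311.CX Pool.Agent.H80GE Pool.Agent.H80IE

theorem En2_smul {X : Type} [MeasurableSpace X] [StandardBorelSpace X] {μ : Measure X} [IsProbabilityMeasure μ]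
    {Φ Ψ : ℤ → Equiv.Perm X} {w : X → ℝ} (hE : En2 μ Φ Ψ w = 0) (c : ℝ) :
    En2 μ Φ Ψ (fun x => c * w x) = 0 := by
  unfold En2 at hE ⊢
  have h1 : (fun z : X × X => c * w z.1 * (c * w z.2)) = (c * c) • fun z : X × X => w z.1 * w z.2 := by
    funext z
    simp only [Pi.smul_apply, smul_eq_mul]
    ring
  rw [h1]
  have h2 := condExp_smul (μ := S2 μ Φ) (c * c) (fun z : X × X => w z.1 * w z.2) (inv (D2 Ψ) 1)
  have h3 : ∫ z, ((S2 μ Φ)[(c * c) • fun z : X × X => w z.1 * w z.2 | inv (D2 Ψ) 1]) z ^ 2 ∂(S2 μ Φ) =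
      (c * c) ^ 2 * ∫ z, ((S2 μ Φ)[fun z : X × X => w z.1 * w z.2 | inv (D2 Ψ) 1]) z ^ 2 ∂(S2 μ Φ) := by
    rw [← integral_const_mul]
    refine integral_congr_ae ?_
    filter_upwards [h2] with z hz
    rw [hz]
    simp only [Pi.smul_apply, smul_eq_mul]
    ring
  rw [h3, hE, mul_zero]

theorem sbK (K : Type) [TopologicalSpace K] [CompactSpace K] [T2Space K] [SecondCountableTopology K]
    [MeasurableSpace K] [BorelSpace K] : StandardBorelSpace K := by
  let _ := TopologicalSpace.metrizableSpaceMetric K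
  have : PolishSpace K := inferInstance
  infer_instance

section

variable {Y K : Type} [MeasurableSpace Y] [StandardBorelSpace Y] [Group K] [TopologicalSpace K] [IsTopologicalGroup K]
  [CompactSpace K] [T2Space K] [SecondCountableTopology K] [MeasurableSpace K] [BorelSpace K]
  {μ : Measure Y} [IsProbabilityMeasure μ] {ρ : Measure K} [ρ.IsHaarMeasure] [IsProbabilityMeasure ρ]

theorem skE_commute (S : Fin 2 → Y ≃ᵐ Y) (σ : Fin 2 → Y → K) (hS : ∀ y, S 0 (S 1 y) = S 1 (S 0 y))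
    (hσ : ∀ y, σ 0 (S 1 y) * σ 1 y = σ 1 (S 0 y) * σ 0 y) :
    Commute (skE (S 0) (σ 0)) (skE (S 1) (σ 1)) := by
  refine Equiv.ext fun z => ?_
  change sk (S 0) (σ 0) (sk (S 1) (σ 1) z) = sk (S 1) (σ 1) (sk (S 0) (σ 0) z)
  simp only [sk, ← mul_assoc, hσ, hS]

/-- group extensions -/
theorem conv_K (hC : CORF) (hA : AVZF) (hH : HKC) (hL : LIALG) (hE : EOI) (hZ : ZIC) (S : Fin 2 → Y ≃ᵐ Y)
    (hS : ∀ j, MeasurePreserving (S j) μ μ) {σ : Fin 2 → Y → K} (hσ : ∀ j, Measurable (σ j))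
    (hS01 : ∀ y, S 0 (S 1 y) = S 1 (S 0 y)) (hcoc : ∀ y, σ 0 (S 1 y) * σ 1 y = σ 1 (S 0 y) * σ 0 y)
    (hY : ∀ g : Fin 2 → Y → ℂ, (∀ j, Measurable (g j)) → (∃ C, ∀ j y, ‖g j y‖ ≤ C) →
      ∀ᵐ y ∂μ, ∃ L, Tendsto (fun N => AVF (fun j => (S j : Y → Y)) g N y) atTop (𝓝 L))
    (f : Fin 2 → Y × K → ℂ) (hf : ∀ j, Measurable (f j)) (hfb : ∃ C, ∀ j x, ‖f j x‖ ≤ C) :
    ∀ᵐ x ∂(μ.prod ρ), ∃ L, Tendsto (fun N => AVF (fun j => sk (S j) (σ j)) f N x) atTop (𝓝 L) := by
  have : StandardBorelSpace K := sbK K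
  have hcom := skE_commute S σ hS01 hcoc
  have hmp : ∀ j, MeasurePreserving (skE (S j) (σ j)) (μ.prod ρ) (μ.prod ρ) := fun j => mp_sk μ ρ (hS j) (hσ j)
  have hmi : ∀ j, Measurable (skE (S j) (σ j)).symm := fun j => skE_symm_meas (S j) (hσ j)
  set Φ : ℤ → Equiv.Perm (Y × K) := aR (skE (S 0) (σ 0)) (skE (S 1) (σ 1)) with hΦ
  have haΦ : Act (μ.prod ρ) Φ := act_aR (hmp 0) (hmi 0) (hmp 1) (hmi 1)
  have haT : ∀ j, Act (μ.prod ρ) (aT (skE (S j) (σ j))) := fun j => act_aT (hmp j) (hmi j)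
  have hcomj : ∀ j, Com Φ (aT (skE (S j) (σ j))) := by
    intro j
    fin_cases j
    · exact com_aR hcom
    · exact com_aR' hcom
  have e4 : ∀ (l : Fin 2) (n : ℕ) (x : Y × K), (sk (S l) (σ l))^[n + 1] x =
      aT (skE (S l) (σ l)) ((n : ℤ) + 1) x := by
    intro l n x
    have := aT_iter (P := skE (S l) (σ l)) (n + 1) x
    push_cast at this
    exact this
  refine conv_expandF (fun j => sk (S j) (σ j)) (fun j => ZI (μ.prod ρ) Φ (aT (skE (S j) (σ j))))
    (fun j w => En2 (μ.prod ρ) Φ (aT (skE (S j) (σ j))) w = 0) (fun j s hs => hs.1)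
    (fun j f hf => decompI hL hE haΦ (hcomj j) hf) (fun s hs => ?_) (fun f hf hfb hj => ?_) f (fun j => ⟨hf j, by
      obtain ⟨C, hC⟩ := hfb
      exact ⟨C, fun x => hC j x⟩⟩)
  · have h1 := hZ (Y × K) (μ.prod ρ) Φ _ _ haΦ (haT 0) (haT 1) (hcomj 0) (aR_mul hcom) (s 0) (s 1) (hs 0) (hs 1)
    filter_upwards [h1] with x hx
    obtain ⟨L, hL⟩ := hx
    refine ⟨L, hL.congr fun N => ?_⟩
    unfold AVF
    congr 1
    funext n
    rw [Fin.prod_univ_two, e4, e4, ← Complex.ofReal_mul]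
  · obtain ⟨j0, w, hw, hEw, hfw⟩ := hj
    obtain ⟨C, hfC⟩ := hfb
    set c : ℝ := (|C| + 1)⁻¹ with hc
    have hc0 : 0 < c := by positivity
    have hcC : ∀ j x, ‖((c : ℝ) : ℂ) * f j x‖ ≤ 1 := by
      intro j x
      rw [norm_mul, Complex.norm_real, Real.norm_eq_abs, abs_of_pos hc0, hc, inv_mul_le_iff₀ (by positivity), mul_one]
      exact (hfC j x).trans ((le_abs_self C).trans (by linarith))
    have h1 := neg_main (ρ := ρ) hC hA hH S hS hσ hcom hY (fun j x => ((c : ℝ) : ℂ) * f j x)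
      (fun j => (hf j).const_mul _) hcC j0 (fun x => c * w x) (BMr.smul' hw c) (fun x => by
        rw [hfw, ← Complex.ofReal_mul]) (En2_smul hEw c)
    filter_upwards [h1] with x hx
    have h2 : ∀ N, AVF (fun j => sk (S j) (σ j)) f N x =
        (((c : ℝ) : ℂ)⁻¹ ^ 2) * AVF (fun j => sk (S j) (σ j)) (fun j x => ((c : ℝ) : ℂ) * f j x) N x := by
      intro N
      have hcne : ((c : ℝ) : ℂ) ≠ 0 := by exact_mod_cast hc0.ne'
      unfold AVF av
      rw [mul_left_comm]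
      congr 1
      rw [Finset.mul_sum]
      refine Finset.sum_congr rfl fun n _ => ?_
      simp only [Fin.prod_univ_two]
      field_simp
    simp_rw [h2]
    have h3 := hx.const_mul (((c : ℝ) : ℂ)⁻¹ ^ 2)
    rwa [mul_zero] at h3

end

section Fac

variable {X' X : Type} {m : ℕ} {T' : Fin m → X' → X'} {T : Fin m → X → X} {π : X' → X}

lemma AVF_fac (hc : ∀ j x, π (T' j x) = T j (π x)) (f : Fin m → X → ℂ) (N : ℕ) (x : X') :
    AVF T' (fun j x => f j (π x)) N x = AVF T f N (π x) := by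
  unfold AVF
  have h : ∀ j n, π ((T' j)^[n] x) = (T j)^[n] (π x) := fun j n => fac_iter (hc j) n x
  simp only [h]

lemma AVF_meas [MeasurableSpace X] (hT : ∀ j, Measurable (T j)) {f : Fin m → X → ℂ} (hf : ∀ j, Measurable (f j)) (N : ℕ) :
    Measurable (fun x => AVF T f N x) := by
  unfold AVF av
  refine (Finset.measurable_fun_sum _ fun n _ => ?_).const_mul _
  exact Finset.measurable_fun_prod _ fun j _ => (hf j).comp ((hT j).iterate _)

end Fac

section

variable {Y K W : Type} [MeasurableSpace Y] [StandardBorelSpace Y] [Group K] [TopologicalSpace K]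
  [IsTopologicalGroup K] [CompactSpace K] [T2Space K] [SecondCountableTopology K] [MeasurableSpace K] [BorelSpace K]
  [MeasurableSpace W] [MulAction K W] [MeasurableSMul₂ K W]
  {μ : Measure Y} [IsProbabilityMeasure μ] {ρ : Measure K} [ρ.IsHaarMeasure] [IsProbabilityMeasure ρ]

/-- isometric extensions -/
theorem conv_W (hC : CORF) (hA : AVZF) (hH : HKC) (hL : LIALG) (hE : EOI) (hZ : ZIC) (w₀ : W) (S : Fin 2 → Y ≃ᵐ Y)
    (hS : ∀ j, MeasurePreserving (S j) μ μ) {σ : Fin 2 → Y → K} (hσ : ∀ j, Measurable (σ j))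
    (hS01 : ∀ y, S 0 (S 1 y) = S 1 (S 0 y)) (hcoc : ∀ y, σ 0 (S 1 y) * σ 1 y = σ 1 (S 0 y) * σ 0 y)
    (hY : ∀ g : Fin 2 → Y → ℂ, (∀ j, Measurable (g j)) → (∃ C, ∀ j y, ‖g j y‖ ≤ C) →
      ∀ᵐ y ∂μ, ∃ L, Tendsto (fun N => AVF (fun j => (S j : Y → Y)) g N y) atTop (𝓝 L))
    (f : Fin 2 → Y × W → ℂ) (hf : ∀ j, Measurable (f j)) (hfb : ∃ C, ∀ j x, ‖f j x‖ ≤ C) :
    ∀ᵐ x ∂(μ.prod (ρ.map fun k => k • w₀)), ∃ L,
      Tendsto (fun N => AVF (fun j => exs (W := W) (S j) (σ j)) f N x) atTop (𝓝 L) := by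
  have hπm : Measurable (fun k : K => k • w₀) := measurable_id.smul_const w₀
  have hρ' : IsProbabilityMeasure (ρ.map fun k : K => k • w₀) :=
    Measure.isProbabilityMeasure_map hπm.aemeasurable
  have hmp : MeasurePreserving (Prod.map id fun k : K => k • w₀) (μ.prod ρ) (μ.prod (ρ.map fun k => k • w₀)) :=
    (MeasurePreserving.id μ).prod ⟨hπm, rfl⟩
  have hfac : ∀ (j : Fin 2) (x : Y × K), Prod.map id (fun k : K => k • w₀) (sk (S j) (σ j) x) =
      exs (S j) (σ j) (Prod.map id (fun k : K => k • w₀) x) := by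
    intro j x
    simp only [sk, exs, Prod.map, id_eq, mul_smul]
  have h1 := conv_K (ρ := ρ) hC hA hH hL hE hZ S hS hσ hS01 hcoc hY
    (fun j x => f j (Prod.map id (fun k : K => k • w₀) x)) (fun j => (hf j).comp hmp.measurable) (by
      obtain ⟨C, hC⟩ := hfb
      exact ⟨C, fun j x => hC j _⟩)
  have hms : MeasurableSet {x : Y × W | ∃ L, Tendsto (fun N => AVF (fun j => exs (W := W) (S j) (σ j)) f N x) atTop
      (𝓝 L)} := measurableSet_exists_tendsto fun N => AVF_meas (fun j => exs_meas (S j).measurable (hσ j)) hf N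
  rw [← hmp.map_eq]
  refine (ae_map_iff hmp.measurable.aemeasurable hms).2 ?_
  filter_upwards [h1] with x hx
  obtain ⟨L, hL⟩ := hx
  refine ⟨L, hL.congr fun N => ?_⟩
  exact AVF_fac hfac f N x

end

end Pool.Agent.H80C
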