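import Pool.Agent.H80C.Stm

set_option autoImplicit false

open Filter Topology MeasureTheory ProbabilityTheory
open scoped ENNReal ComplexConjugate

noncomputable section

namespace Pool.Agent.H80C.INV

open Pool.Agent.Y311.UB Pool.Agent.Y311.CX Pool.Agent.H80GE Pool.Agent.H80IE Pool.Agent.H80C

/-- the action of `ℤ × ℤ` given by two commuting actions -/
def Xi {X : Type} (Φ Ψ : ℤ → Equiv.Perm X) (p : ℤ × ℤ) : Equiv.Perm X := Φ p.1 * Ψ p.2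

theorem Xi_apply {X : Type} (Φ Ψ : ℤ → Equiv.Perm X) (p : ℤ × ℤ) (x : X) :
    Xi Φ Ψ p x = Φ p.1 (Ψ p.2 x) := rfl

theorem Xi_act {X : Type} [MeasurableSpace X] {μ : Measure X} {Φ Ψ : ℤ → Equiv.Perm X} (hΦ : Act μ Φ)
    (hΨ : Act μ Ψ) (hc : Com Φ Ψ) : Act μ (Xi Φ Ψ) := by
  refine ⟨fun a b => ?_, ?_, fun a => ?_⟩
  · ext x
    rw [Equiv.Perm.mul_apply, Xi_apply, Xi_apply, Xi_apply, Prod.fst_add, Prod.snd_add, hΦ.add_apply,
      hΨ.add_apply, hc]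
  · ext x
    rw [Xi_apply, Prod.fst_zero, Prod.snd_zero, hΦ.zero_apply, hΨ.zero_apply]
    rfl
  · exact (hΦ.mp a.1).comp (hΨ.mp a.2)

theorem relSq_congr {X G H : Type*} [MeasurableSpace X] [StandardBorelSpace X] [AddCommGroup G]
    [AddCommGroup H] (μ : Measure X) [IsProbabilityMeasure μ] (Φ : G → Equiv.Perm X) (w : G)
    (Φ' : H → Equiv.Perm X) (w' : H) (h : Φ w = Φ' w') : relSq μ Φ w = relSq μ Φ' w' := by
  unfold relSq relK inv
  generalize_proofs p q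
  revert p q
  rw [h]
  intro p q
  rfl

theorem t : INV := by
  intro X _ _ μ _ Φ Ψ hΦ hΨ hc
  have hA := Xi_act hΦ hΨ hc
  have hw : Xi Φ Ψ (1, 0) = Φ 1 := by
    ext x
    rw [Xi_apply, hΨ.zero_apply]
  have hS : relSq μ (Xi Φ Ψ) (1, 0) = S2 μ Φ := relSq_congr μ _ _ _ _ hw
  have h0 : Act (S2 μ Φ) (relΦ (Xi Φ Ψ) (1, 0) (0 : ℤ × ℤ →+ ℤ)) := by
    rw [← hS]
    exact hA.rel 0
  have h1 : Act (S2 μ Φ) (relΦ (Xi Φ Ψ) (1, 0) (-(AddMonoidHom.snd ℤ ℤ))) := by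
    rw [← hS]
    exact hA.rel _
  refine ⟨⟨fun a b => ?_, ?_, fun a => ?_⟩, ?_⟩
  · ext z
    · simp [relΦ_apply, hΨ.add_apply]
    · simp [relΦ_apply, hΨ.add_apply]
  · ext z
    · simp [relΦ_apply, hΨ.zero_apply]
    · simp [relΦ_apply, hΨ.zero_apply]
  · have h2 := h0.mp (0, a)
    have e : (relΦ (Xi Φ Ψ) (1, 0) (0 : ℤ × ℤ →+ ℤ) (0, a) : X × X → X × X) = D2 Ψ a := by
      funext z
      rw [relΦ_apply, D2_apply]
      simp [Xi_apply, hΦ.zero_apply]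
    rw [e] at h2
    exact h2
  · have h2 := h1.mp (0, 1)
    have e : (relΦ (Xi Φ Ψ) (1, 0) (-(AddMonoidHom.snd ℤ ℤ)) (0, 1) : X × X → X × X) =
        fun z : X × X => (Ψ 1 z.1, Φ 1 (Ψ 1 z.2)) := by
      funext z
      rw [relΦ_apply]
      simp [Xi_apply, hΦ.zero_apply]
    rw [e] at h2
    exact h2

end Pool.Agent.H80C.INV
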