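import Pool.Agent.H80C.Stm

set_option autoImplicit false

open Filter Topology MeasureTheory ProbabilityTheory

namespace Pool.Agent.H80C

open Pool.Agent.Y311.UB Pool.Agent.Y311.CX Pool.Agent.H80GE Pool.Agent.H80IE

section

variable {X : Type} [MeasurableSpace X] {ν : Measure (X × X)} {Ψ : ℤ → Equiv.Perm X}


theorem QI.bmr {u : X × X → ℝ} (h : QI Ψ u) : BMr u := by
  induction h with
  | base k g hk _ hg => exact hk.mul (hg.comp measurable_snd)
  | add u v _ _ ihu ihv => exact BMr.add' ihu ihv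

theorem QI.smul' {u : X × X → ℝ} (h : QI Ψ u) (c : ℝ) : QI Ψ (fun z => c * u z) := by
  induction h with
  | base k g hk hi hg =>
    have h1 := QI.base (Ψ := Ψ) (fun z => c * k z) g (BMr.smul' hk c) (fun z => by rw [hi z]) hg
    have h2 : (fun z : X × X => c * (k z * g z.2)) = fun z => (c * k z) * g z.2 := by
      funext z
      ring
    rw [h2]
    exact h1
  | add u v _ _ ihu ihv =>
    have h2 : (fun z : X × X => c * (u z + v z)) = fun z => c * u z + c * v z := by
      funext z
      ring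
    rw [h2]
    exact QI.add _ _ ihu ihv

theorem QI.mul_base {u : X × X → ℝ} (h : QI Ψ u) (k : X × X → ℝ) (g : X → ℝ) (hk : BMr k)
    (hi : ∀ z, k (D2 Ψ 1 z) = k z) (hg : BMr g) :
    QI Ψ (fun z => u z * (k z * g z.2)) := by
  induction h with
  | base k' g' hk' hi' hg' =>
    have h1 := QI.base (Ψ := Ψ) (fun z => k' z * k z) (fun y => g' y * g y) (hk'.mul hk)
      (fun z => by rw [hi' z, hi z]) (hg'.mul hg)
    have h2 : (fun z : X × X => k' z * g' z.2 * (k z * g z.2)) = fun z => (k' z * k z) * (g' z.2 * g z.2) := by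
      funext z
      ring
    rw [h2]
    exact h1
  | add u v _ _ ihu ihv =>
    have h2 : (fun z : X × X => (u z + v z) * (k z * g z.2)) =
        fun z => u z * (k z * g z.2) + v z * (k z * g z.2) := by
      funext z
      ring
    rw [h2]
    exact QI.add _ _ ihu ihv

theorem QI.mul' {u v : X × X → ℝ} (h : QI Ψ u) (hv : QI Ψ v) : QI Ψ (fun z => u z * v z) := by
  induction hv with
  | base k g hk hi hg => exact h.mul_base k g hk hi hg
  | add a b _ _ iha ihb =>
    have h2 : (fun z : X × X => u z * (a z + b z)) = fun z => u z * a z + u z * b z := by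
      funext z
      ring
    rw [h2]
    exact QI.add _ _ iha ihb

theorem QI.const' (c : ℝ) : QI Ψ (fun _ => c) := by
  have hc : BMr (fun _ : X × X => c) := ⟨measurable_const, |c|, fun _ => le_rfl⟩
  have h1 := QI.base (Ψ := Ψ) (fun _ : X × X => c) (fun _ : X => (1 : ℝ)) hc (fun _ => rfl) BMr.one
  simpa using h1

theorem LI.of_QI {u : X × X → ℝ} (h : QI Ψ u) : LI ν Ψ u :=
  ⟨h.bmr, fun ε hε => ⟨u, h, by simpa using hε.le⟩⟩

end

theorem LIALG.t : LIALG := by
  intro X _ ν _ Ψ
  refine ⟨fun f h => h.1, ?_, ?_, ?_, ?_, ?_⟩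
  · -- add
    intro f g hf hg
    refine ⟨BMr.add' hf.1 hg.1, fun ε hε => ?_⟩
    obtain ⟨v, hv, h1⟩ := hf.2 (ε / 2) (by positivity)
    obtain ⟨w, hw, h2⟩ := hg.2 (ε / 2) (by positivity)
    refine ⟨_, QI.add _ _ hv hw, ?_⟩
    have i1 : Integrable (fun z => |f z - v z|) ν := (BMr.absSub hf.1 hv.bmr).integrable
    have i2 : Integrable (fun z => |g z - w z|) ν := (BMr.absSub hg.1 hw.bmr).integrable
    have i3 : Integrable (fun z => |f z + g z - (v z + w z)|) ν :=
      (BMr.absSub (BMr.add' hf.1 hg.1) (BMr.add' hv.bmr hw.bmr)).integrable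
    calc ∫ z, |f z + g z - (v z + w z)| ∂ν ≤ ∫ z, (|f z - v z| + |g z - w z|) ∂ν := by
          refine integral_mono i3 (i1.add i2) fun z => ?_
          simp only
          have : f z + g z - (v z + w z) = (f z - v z) + (g z - w z) := by ring
          rw [this]
          exact abs_add_le _ _
      _ = ∫ z, |f z - v z| ∂ν + ∫ z, |g z - w z| ∂ν := integral_add i1 i2
      _ ≤ ε := by linarith
  · -- mul
    intro f g hf hg
    refine ⟨hf.1.mul hg.1, fun ε hε => ?_⟩
    obtain ⟨C, hC⟩ := hg.1.2
    obtain ⟨v, hv, h1⟩ := hf.2 (ε / (2 * (|C| + 1))) (by positivity)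
    obtain ⟨D, hD⟩ := hv.bmr.2
    obtain ⟨w, hw, h2⟩ := hg.2 (ε / (2 * (|D| + 1))) (by positivity)
    refine ⟨_, hv.mul' hw, ?_⟩
    have i1 : Integrable (fun z => |f z - v z|) ν := (BMr.absSub hf.1 hv.bmr).integrable
    have i2 : Integrable (fun z => |g z - w z|) ν := (BMr.absSub hg.1 hw.bmr).integrable
    have i3 : Integrable (fun z => |f z * g z - v z * w z|) ν :=
      (BMr.absSub (hf.1.mul hg.1) (hv.bmr.mul hw.bmr)).integrable
    calc ∫ z, |f z * g z - v z * w z| ∂ν ≤ ∫ z, (|C| * |f z - v z| + |D| * |g z - w z|) ∂ν := by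
          refine integral_mono i3 ((i1.const_mul _).add (i2.const_mul _)) fun z => ?_
          simp only
          have : f z * g z - v z * w z = g z * (f z - v z) + v z * (g z - w z) := by ring
          rw [this]
          refine (abs_add_le _ _).trans ?_
          rw [abs_mul, abs_mul]
          exact add_le_add (mul_le_mul_of_nonneg_right ((hC z).trans (le_abs_self _)) (abs_nonneg _))
            (mul_le_mul_of_nonneg_right ((hD z).trans (le_abs_self _)) (abs_nonneg _))
      _ = |C| * ∫ z, |f z - v z| ∂ν + |D| * ∫ z, |g z - w z| ∂ν := by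
          rw [integral_add (i1.const_mul _) (i2.const_mul _), integral_const_mul, integral_const_mul]
      _ ≤ |C| * (ε / (2 * (|C| + 1))) + |D| * (ε / (2 * (|D| + 1))) :=
          add_le_add (mul_le_mul_of_nonneg_left h1 (abs_nonneg _)) (mul_le_mul_of_nonneg_left h2 (abs_nonneg _))
      _ ≤ ε / 2 + ε / 2 := by
          have key : ∀ t : ℝ, 0 ≤ t → t * (ε / (2 * (t + 1))) ≤ ε / 2 := by
            intro t ht
            rw [mul_div_assoc', div_le_div_iff₀ (by positivity) (by positivity)]
            nlinarith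
          exact add_le_add (key _ (abs_nonneg _)) (key _ (abs_nonneg _))
      _ = ε := by ring
  · -- smul
    intro c f hf
    refine ⟨BMr.smul' hf.1 c, fun ε hε => ?_⟩
    obtain ⟨v, hv, h1⟩ := hf.2 (ε / (|c| + 1)) (by positivity)
    refine ⟨_, hv.smul' c, ?_⟩
    have e : ∀ z, |c * f z - c * v z| = |c| * |f z - v z| := fun z => by rw [← mul_sub, abs_mul]
    simp_rw [e]
    rw [integral_const_mul]
    refine (mul_le_mul_of_nonneg_left h1 (abs_nonneg c)).trans ?_
    rw [mul_div_assoc', div_le_iff₀ (by positivity)]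
    nlinarith [abs_nonneg c]
  · -- const
    intro c
    exact LI.of_QI (QI.const' c)
  · -- closed
    intro f hf hcl
    refine ⟨hf, fun ε hε => ?_⟩
    obtain ⟨s, hs, h1⟩ := hcl (ε / 2) (by positivity)
    obtain ⟨v, hv, h2⟩ := hs.2 (ε / 2) (by positivity)
    refine ⟨v, hv, ?_⟩
    have i1 : Integrable (fun z => |f z - s z|) ν := (BMr.absSub hf hs.1).integrable
    have i2 : Integrable (fun z => |s z - v z|) ν := (BMr.absSub hs.1 hv.bmr).integrable
    have i3 : Integrable (fun z => |f z - v z|) ν := (BMr.absSub hf hv.bmr).integrable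
    calc ∫ z, |f z - v z| ∂ν ≤ ∫ z, (|f z - s z| + |s z - v z|) ∂ν :=
          integral_mono i3 (i1.add i2) fun z => abs_sub_le _ _ _
      _ = ∫ z, |f z - s z| ∂ν + ∫ z, |s z - v z| ∂ν := integral_add i1 i2
      _ ≤ ε := by linarith

end Pool.Agent.H80C
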