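import Pool.Agent.H80C.Stm2

/-!
The correlation bound.
-/

set_option autoImplicit false
set_option linter.unusedSectionVars false

open Filter Topology MeasureTheory ProbabilityTheory Finset
open scoped ENNReal ComplexConjugate

noncomputable section

namespace Pool.Agent.H80C

open Pool.Agent.Y311.UB Pool.Agent.Y311.CX Pool.Agent.H80GE Pool.Agent.H80IE

section Abs

variable {X : Type} [MeasurableSpace X] {μ : Measure X} [IsProbabilityMeasure μ] {Φ : ℤ → Equiv.Perm X}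

/-- the mean square of the averages -/
def msq (μ : Measure X) (Φ : ℤ → Equiv.Perm X) (F : X → ℝ) (N : ℕ) : ℝ :=
  ∫ x, ((N : ℝ)⁻¹ * ∑ n ∈ range N, F (Φ (n : ℤ) x)) ^ 2 ∂μ

theorem msq_tendsto (h : Act μ Φ) {F : X → ℝ} (hF : BMr F) :
    Tendsto (msq μ Φ F) atTop (𝓝 (∫ x, (μ[F | inv Φ 1]) x ^ 2 ∂μ)) := by
  have h1 := h.mean_sq 1 hF
  refine h1.congr fun N => ?_
  unfold msq
  simp only [smul_one_int]

theorem msq_shift (h : Act μ Φ) {F : X → ℝ} (hF : BMr F) (N : ℕ) :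
    ∫ x, ((N : ℝ)⁻¹ * ∑ n ∈ range N, F (Φ ((n : ℤ) + 1) x)) ^ 2 ∂μ = msq μ Φ F N := by
  unfold msq
  have hm : Measurable (fun x => ((N : ℝ)⁻¹ * ∑ n ∈ range N, F (Φ (n : ℤ) x)) ^ 2) :=
    ((Finset.measurable_fun_sum _ fun n _ => hF.1.comp (h.measurable _)).const_mul _).pow_const 2
  have h4 := integral_map (μ := μ) (φ := Φ 1) (f := fun x => ((N : ℝ)⁻¹ * ∑ n ∈ range N, F (Φ (n : ℤ) x)) ^ 2)
    (h.measurable 1).aemeasurable hm.aestronglyMeasurable
  rw [(h.mp 1).map_eq] at h4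
  rw [h4]
  refine integral_congr_ae (Eventually.of_forall fun x => ?_)
  simp only [h.add_apply]

theorem msq_neg (h : Act μ Φ) {F : X → ℝ} (hF : BMr F) (N : ℕ) :
    ∫ x, ((N : ℝ)⁻¹ * ∑ n ∈ range N, F (Φ (-((n : ℤ) + 1)) x)) ^ 2 ∂μ = msq μ Φ F N := by
  unfold msq
  have hm : Measurable (fun x => ((N : ℝ)⁻¹ * ∑ n ∈ range N, F (Φ (-((n : ℤ) + 1)) x)) ^ 2) :=
    ((Finset.measurable_fun_sum _ fun n _ => hF.1.comp (h.measurable _)).const_mul _).pow_const 2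
  have h4 := integral_map (μ := μ) (φ := Φ (N : ℤ))
    (f := fun x => ((N : ℝ)⁻¹ * ∑ n ∈ range N, F (Φ (-((n : ℤ) + 1)) x)) ^ 2)
    (h.measurable _).aemeasurable hm.aestronglyMeasurable
  rw [(h.mp _).map_eq] at h4
  rw [h4]
  refine integral_congr_ae (Eventually.of_forall fun x => ?_)
  simp only
  congr 2
  rw [← Finset.sum_range_reflect]
  refine Finset.sum_congr rfl fun n hn => ?_
  rw [Finset.mem_range] at hn
  rw [← h.add_apply]
  congr 2
  have : ((N - 1 - n : ℕ) : ℤ) = (N : ℤ) - 1 - n := by omega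
  rw [this]
  ring_nf

theorem cor_bd (h : Act μ Φ) {F : X → ℝ} (hF : BMr F) {P : X → ℂ} (hP1 : ∀ x, ‖P x‖ ≤ 1) (hPm : Measurable P)
    (e : ℕ → ℤ) (N : ℕ) :
    ‖av N (fun n => ∫ x, ((F (Φ (e n) x) : ℝ) : ℂ) * P x ∂μ)‖ ^ 2 ≤
      ∫ x, ((N : ℝ)⁻¹ * ∑ n ∈ range N, F (Φ (e n) x)) ^ 2 ∂μ := by
  obtain ⟨hFm, C, hC⟩ := hF
  have hFm' : ∀ k : ℤ, Measurable (fun x => F (Φ k x)) := fun k => hFm.comp (h.measurable _)
  have e1 : av N (fun n => ∫ x, ((F (Φ (e n) x) : ℝ) : ℂ) * P x ∂μ) =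
      ∫ x, P x * (((N : ℝ)⁻¹ * ∑ n ∈ range N, F (Φ (e n) x) : ℝ) : ℂ) ∂μ := by
    unfold av
    rw [← integral_finsetSum, ← integral_const_mul]
    · refine integral_congr_ae (Eventually.of_forall fun x => ?_)
      simp only
      push_cast
      rw [← Finset.sum_mul]
      ring
    · intro n _
      refine Integrable.of_bound ((Complex.measurable_ofReal.comp (hFm' _)).mul hPm).aestronglyMeasurable (C * 1)
        (Eventually.of_forall fun x => ?_)
      rw [norm_mul]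
      refine mul_le_mul ?_ (hP1 x) (norm_nonneg _) ((abs_nonneg _).trans (hC x))
      rw [Complex.norm_real]
      exact hC _
  rw [e1]
  have hgm : Measurable (fun x => (((N : ℝ)⁻¹ * ∑ n ∈ range N, F (Φ (e n) x) : ℝ) : ℂ)) :=
    Complex.measurable_ofReal.comp ((Finset.measurable_fun_sum _ fun n _ => hFm' _).const_mul _)
  refine (norm_int_sq_le μ hP1 hgm.aestronglyMeasurable (D := |C|) fun x => ?_).trans (le_of_eq ?_)
  · rw [Complex.norm_real, Real.norm_eq_abs]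
    exact abs_avg_le (abs_nonneg _) (fun n => (hC _).trans (le_abs_self _)) N
  · refine integral_congr_ae (Eventually.of_forall fun x => ?_)
    simp only
    rw [Complex.norm_real, Real.norm_eq_abs, sq_abs]

theorem cor0 {Ψ Ψ' : ℤ → Equiv.Perm X} (h : Act μ Φ) (h' : Act μ Ψ')
    (hr : ∀ n, Ψ' n = Φ n * Ψ n) {F : X → ℝ} (hF : BMr F) {P : X → ℂ} (hPm : Measurable P) (n : ℤ) :
    ∫ x, ((F (Ψ n x) : ℝ) : ℂ) * P (Ψ' n x) ∂μ = ∫ x, ((F (Φ (-n) x) : ℝ) : ℂ) * P x ∂μ := by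
  have hm : Measurable (fun x => ((F (Φ (-n) x) : ℝ) : ℂ) * P x) :=
    (Complex.measurable_ofReal.comp (hF.1.comp (h.measurable _))).mul hPm
  have h4 := integral_map (μ := μ) (φ := Ψ' n) (f := fun x => ((F (Φ (-n) x) : ℝ) : ℂ) * P x)
    (h'.measurable _).aemeasurable hm.aestronglyMeasurable
  rw [(h'.mp _).map_eq] at h4
  rw [h4]
  refine integral_congr_ae (Eventually.of_forall fun x => ?_)
  simp only
  rw [hr n, Equiv.Perm.mul_apply, h.neg_apply]

theorem cor1 {Ψ Ψ' : ℤ → Equiv.Perm X} (h : Act μ Φ) (h0 : Act μ Ψ)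
    (hr : ∀ n, Ψ' n = Φ n * Ψ n) {F : X → ℝ} (hF : BMr F) {P : X → ℂ} (hPm : Measurable P) (n : ℤ) :
    ∫ x, ((F (Ψ' n x) : ℝ) : ℂ) * P (Ψ n x) ∂μ = ∫ x, ((F (Φ n x) : ℝ) : ℂ) * P x ∂μ := by
  have hm : Measurable (fun x => ((F (Φ n x) : ℝ) : ℂ) * P x) :=
    (Complex.measurable_ofReal.comp (hF.1.comp (h.measurable _))).mul hPm
  have h4 := integral_map (μ := μ) (φ := Ψ n) (f := fun x => ((F (Φ n x) : ℝ) : ℂ) * P x)
    (h0.measurable _).aemeasurable hm.aestronglyMeasurable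
  rw [(h0.mp _).map_eq] at h4
  rw [h4]
  refine integral_congr_ae (Eventually.of_forall fun x => ?_)
  simp only
  rw [hr n, Equiv.Perm.mul_apply]

/-- the numerical part: the double averages are small -/
theorem dbl {c : ℕ → ℕ → ℂ} {e : ℕ → ℝ} (he0 : ∀ d, 0 ≤ e d)
    (hlim : Tendsto (fun M : ℕ => (M : ℝ)⁻¹ * ∑ m ∈ range M, e m) atTop (𝓝 0))
    (hc : ∀ d, ∀ ε : ℝ, 0 < ε → ∀ᶠ N : ℕ in atTop, ‖av N (c d)‖ ^ 2 ≤ e d + ε) (ε : ℝ) (hε : 0 < ε) :
    ∃ H : ℕ, 0 < H ∧ ∀ᶠ N : ℕ in atTop,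
      ((H : ℝ)⁻¹) ^ 2 * ∑ h ∈ range H, ∑ h' ∈ range H, (av N (c (Nat.dist h h'))).re ≤ ε := by
  set δ : ℝ := ε / 4 with hδ
  have hδ0 : 0 < δ := by positivity
  have h1 := (tendsto_order.1 hlim).2 (δ ^ 2) (by positivity)
  obtain ⟨H, hH1, hH⟩ := ((eventually_gt_atTop 0).and h1).exists
  have hHR : (0 : ℝ) < H := by exact_mod_cast hH1
  set lb : ℕ → ℝ := fun d => Real.sqrt (e d + δ ^ 2) with hlb
  have hlb0 : ∀ d, 0 ≤ lb d := fun d => Real.sqrt_nonneg _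
  have hsum : ∑ d ∈ range H, lb d ≤ 2 * δ * H := by
    have h2 : (∑ d ∈ range H, lb d) ^ 2 ≤ (2 * δ * H) ^ 2 := by
      have h3 := sq_sum_le_card_mul_sum_sq (s := range H) (f := lb)
      rw [Finset.card_range] at h3
      refine h3.trans ?_
      have h4 : ∑ d ∈ range H, lb d ^ 2 = ∑ d ∈ range H, e d + H * δ ^ 2 := by
        rw [Finset.sum_congr rfl fun d _ => Real.sq_sqrt (by have := he0 d; positivity : 0 ≤ e d + δ ^ 2)]
        rw [Finset.sum_add_distrib, Finset.sum_const, Finset.card_range, nsmul_eq_mul]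
      rw [h4]
      have h5 : ∑ d ∈ range H, e d ≤ H * δ ^ 2 := by
        rw [inv_mul_lt_iff₀ hHR] at hH
        exact hH.le
      have h6 : (H : ℝ) * (∑ d ∈ range H, e d + H * δ ^ 2) ≤ H * (H * δ ^ 2 + H * δ ^ 2) := by gcongr
      refine h6.trans ?_
      have h7 : (0 : ℝ) ≤ (H : ℝ) ^ 2 * δ ^ 2 := by positivity
      nlinarith
    exact le_of_sq_le_sq h2 (by positivity)
  refine ⟨H, hH1, ?_⟩
  have hev : ∀ᶠ N : ℕ in atTop, ∀ d ∈ range H, ‖av N (c d)‖ ^ 2 ≤ e d + δ ^ 2 := by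
    rw [Filter.eventually_all_finset]
    exact fun d _ => hc d _ (by positivity)
  filter_upwards [hev] with N hN
  have hle : ∀ h ∈ range H, ∀ h' ∈ range H, (av N (c (Nat.dist h h'))).re ≤ lb (Nat.dist h h') := by
    intro h hh h' hh'
    rw [Finset.mem_range] at hh hh'
    have hdH : Nat.dist h h' < H := by unfold Nat.dist; omega
    refine (Complex.re_le_norm _).trans ?_
    exact Real.le_sqrt_of_sq_le (hN _ (Finset.mem_range.2 hdH))
  calc ((H : ℝ)⁻¹) ^ 2 * ∑ h ∈ range H, ∑ h' ∈ range H, (av N (c (Nat.dist h h'))).re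
      ≤ ((H : ℝ)⁻¹) ^ 2 * ∑ h ∈ range H, ∑ h' ∈ range H, lb (Nat.dist h h') := by
        gcongr with h hh h' hh'
        exact hle h hh h' hh'
    _ ≤ ((H : ℝ)⁻¹) ^ 2 * (2 * H * (2 * δ * H)) := by
        gcongr
        refine (sum_dist_le H lb hlb0).trans ?_
        gcongr
    _ = ε := by
        rw [hδ]
        field_simp
        ring

end Abs

section Mix

variable {Y K : Type} [MeasurableSpace Y] [Group K] [MeasurableSpace K] [MeasurableMul₂ K]
  {μ : Measure Y} [IsProbabilityMeasure μ] {ρ : Measure K} [IsProbabilityMeasure ρ] [ρ.IsMulLeftInvariant]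
  {m : ℕ} {S : Fin m → Y → Y} {σ : Fin m → Y → K} {f : Fin m → Y × K → ℂ}

lemma psiF_meas (hS : ∀ j, Measurable (S j)) (hσ : ∀ j, Measurable (σ j)) (hg : ∀ j, Measurable (f j)) (d : ℕ)
    (j : Fin m) : Measurable (psiF ρ S σ f d j) := by
  unfold psiF
  have h : StronglyMeasurable (fun p : Y × K => f j ((sk (S j) (σ j))^[d] p) * conj (f j p)) :=
    (((hg j).comp ((sk_meas (hS j) (hσ j)).iterate _)).mul
      (Complex.continuous_conj.measurable.comp (hg j))).stronglyMeasurable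
  exact (h.integral_prod_right' (ν := ρ)).measurable

omit [MeasurableSpace Y] [MeasurableMul₂ K] [ρ.IsMulLeftInvariant] in
lemma psiF_bound (hf1 : ∀ j x, ‖f j x‖ ≤ 1) (d : ℕ) (j : Fin m) (w : Y) : ‖psiF ρ S σ f d j w‖ ≤ 1 := by
  unfold psiF
  refine (norm_integral_le_of_norm_le_const (C := 1) (Eventually.of_forall fun κ => ?_)).trans (by simp)
  rw [norm_mul, RCLike.norm_conj]
  exact mul_le_one₀ (hf1 _ _) (norm_nonneg _) (hf1 _ _)

/-- the functions of the correlation on the extension -/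
def mixF (ρ : Measure K) (S : Fin m → Y → Y) (σ : Fin m → Y → K) (f : Fin m → Y × K → ℂ) (d : ℕ)
    (j0 l : Fin m) (x : Y × K) : ℂ :=
  if l = j0 then f j0 ((sk (S j0) (σ j0))^[d] x) * conj (f j0 x) else psiF ρ S σ f d l x.1

lemma mixF_meas (hS : ∀ j, Measurable (S j)) (hσ : ∀ j, Measurable (σ j)) (hf : ∀ j, Measurable (f j)) (d : ℕ)
    (j0 l : Fin m) : Measurable (mixF ρ S σ f d j0 l) := by
  unfold mixF
  split_ifs
  · exact ((hf j0).comp ((sk_meas (hS _) (hσ _)).iterate _)).mul (Complex.continuous_conj.measurable.comp (hf j0))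
  · exact (psiF_meas hS hσ hf d l).comp measurable_fst

omit [MeasurableSpace Y] [MeasurableMul₂ K] [ρ.IsMulLeftInvariant] in
lemma mixF_bound (hf1 : ∀ j x, ‖f j x‖ ≤ 1) (d : ℕ) (j0 l : Fin m) (x : Y × K) :
    ‖mixF ρ S σ f d j0 l x‖ ≤ 1 := by
  unfold mixF
  split_ifs
  · rw [norm_mul, RCLike.norm_conj]
    exact mul_le_one₀ (hf1 _ _) (norm_nonneg _) (hf1 _ _)
  · exact psiF_bound hf1 d l _

lemma mixF_cor (hS : ∀ j, Measurable (S j)) (hσ : ∀ j, Measurable (σ j)) (hf : ∀ j, Measurable (f j))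
    (hf1 : ∀ j x, ‖f j x‖ ≤ 1) (d : ℕ) (j0 : Fin m) (t : ℕ) :
    ∫ y, ∏ j, psiF ρ S σ f d j ((S j)^[t] y) ∂μ =
      ∫ x, ∏ l, mixF ρ S σ f d j0 l ((sk (S l) (σ l))^[t] x) ∂(μ.prod ρ) := by
  have hm : Measurable (fun x => ∏ l, mixF ρ S σ f d j0 l ((sk (S l) (σ l))^[t] x)) :=
    Finset.measurable_prod _ fun l _ => (mixF_meas hS hσ hf d j0 l).comp ((sk_meas (hS l) (hσ l)).iterate _)
  have hi : Integrable (fun x => ∏ l, mixF ρ S σ f d j0 l ((sk (S l) (σ l))^[t] x)) (μ.prod ρ) :=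
    Integrable.of_bound hm.aestronglyMeasurable 1 (Eventually.of_forall fun x =>
      prod_norm_le_one _ _ fun l => mixF_bound hf1 d j0 l _)
  rw [integral_prod _ hi]
  refine integral_congr_ae (Eventually.of_forall fun y => ?_)
  simp only
  have e1 : ∀ κ : K, ∏ l, mixF ρ S σ f d j0 l ((sk (S l) (σ l))^[t] (y, κ)) =
      mixF ρ S σ f d j0 j0 ((sk (S j0) (σ j0))^[t] (y, κ)) *
        ∏ l ∈ Finset.univ.erase j0, psiF ρ S σ f d l ((S l)^[t] y) := by
    intro κ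
    rw [← Finset.mul_prod_erase Finset.univ _ (Finset.mem_univ j0)]
    congr 1
    refine Finset.prod_congr rfl fun l hl => ?_
    rw [Finset.mem_erase] at hl
    rw [sk_iter]
    unfold mixF
    rw [if_neg hl.1]
  simp_rw [e1]
  rw [integral_mul_const, ← Finset.mul_prod_erase Finset.univ _ (Finset.mem_univ j0)]
  congr 1
  unfold mixF
  simp only [if_true]
  unfold psiF
  rw [← integral_mul_left_eq_self (μ := ρ) (fun κ => f j0 ((sk (S j0) (σ j0))^[d] ((S j0)^[t] y, κ)) *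
    conj (f j0 ((S j0)^[t] y, κ))) (co (S j0) (σ j0) t y)]
  refine integral_congr_ae (Eventually.of_forall fun κ => ?_)
  simp only [sk_iter (S := S j0) (σ := σ j0) t]

end Mix

end Pool.Agent.H80C
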