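import Pool.Agent.H80C.Neg

/-!
The negligible functions.
-/

set_option autoImplicit false
set_option linter.unusedSectionVars false

open Filter Topology MeasureTheory ProbabilityTheory Finset
open scoped ENNReal ComplexConjugate

noncomputable section

namespace Pool.Agent.H80C

open Pool.Agent.Y311.UB Pool.Agent.Y311.CX Pool.Agent.H80GE Pool.Agent.H80IE

section Perm

variable {X : Type} (P Q : Equiv.Perm X)

/-- the action of the powers of `Q P⁻¹` -/
def aR (n : ℤ) : Equiv.Perm X := (Q * P⁻¹) ^ n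

/-- the action of the powers of `P` -/
def aT (n : ℤ) : Equiv.Perm X := P ^ n

variable {P Q}

theorem aR_mul (h : Commute P Q) (n : ℤ) : aT Q n = aR P Q n * aT P n := by
  unfold aT aR
  have h1 : Commute (Q * P⁻¹) P := by
    refine Commute.mul_left h.symm ?_
    exact (Commute.refl P).inv_left
  rw [← h1.mul_zpow, inv_mul_cancel_right]

theorem com_aR (h : Commute P Q) : Com (aR P Q) (aT P) := by
  intro m n x
  have h1 : Commute (Q * P⁻¹) P := by
    refine Commute.mul_left h.symm ?_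
    exact (Commute.refl P).inv_left
  have h2 := (h1.zpow_zpow m n).eq
  have h3 := congrArg (fun T : Equiv.Perm X => T x) h2
  exact h3

theorem com_aR' (h : Commute P Q) : Com (aR P Q) (aT Q) := by
  intro m n x
  have h1 : Commute (Q * P⁻¹) Q := by
    refine Commute.mul_left (Commute.refl Q) ?_
    exact h.inv_left
  have h2 := (h1.zpow_zpow m n).eq
  have h3 := congrArg (fun T : Equiv.Perm X => T x) h2
  exact h3

variable [MeasurableSpace X] {μ : Measure X}

theorem mp_inv (hP : MeasurePreserving P μ μ) (hPi : Measurable P.symm) :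
    MeasurePreserving (P⁻¹ : Equiv.Perm X) μ μ := by
  have h := mp_zpow hP hPi (-1)
  rwa [zpow_neg_one] at h

theorem act_aR (hP : MeasurePreserving P μ μ) (hPi : Measurable P.symm) (hQ : MeasurePreserving Q μ μ)
    (hQi : Measurable Q.symm) : Act μ (aR P Q) :=
  act_zpow (T := Q * P⁻¹) (hQ.comp (mp_inv hP hPi)) (hP.measurable.comp hQi)

theorem act_aT (hP : MeasurePreserving P μ μ) (hPi : Measurable P.symm) : Act μ (aT P) := act_zpow hP hPi

theorem aT_iter (n : ℕ) (x : X) : P^[n] x = aT P (n : ℤ) x := iter_eq n x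

end Perm

section BB

variable {Y K : Type} [MeasurableSpace Y] [Group K] [MeasurableSpace K]
  {μ : Measure Y} {ρ : Measure K} {m : ℕ} {S : Fin m → Y → Y} {σ : Fin m → Y → K} {f : Fin m → Y × K → ℂ}

lemma BBF_zero
    (h : ∀ η : ℝ, 0 < η → ∀ ε : ℝ, 0 < ε → μ {y | ¬ ∀ᶠ N : ℕ in atTop, BBF ρ S σ f N y ≤ η} ≤ ENNReal.ofReal ε) :
    ∀ᵐ y ∂μ, Tendsto (fun N => BBF ρ S σ f N y) atTop (𝓝 0) := by
  have hBn : ∀ N y, 0 ≤ BBF ρ S σ f N y := fun N y => integral_nonneg fun κ => by positivity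
  have h1 := zero_of_approx μ (fun N y => ((BBF ρ S σ f N y : ℝ) : ℂ)) (fun δ hδ ε hε => by
    refine le_trans (le_of_eq ?_) (h δ hδ ε hε)
    congr 1
    ext y
    simp only [Complex.norm_real, Real.norm_eq_abs, abs_of_nonneg (hBn _ _)])
  filter_upwards [h1] with y hy
  have := (Complex.continuous_re.tendsto _).comp hy
  simpa [Function.comp_def] using this

end BB

section Main

variable {Y K : Type} [MeasurableSpace Y] [Group K] [TopologicalSpace K] [IsTopologicalGroup K]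
  [CompactSpace K] [T2Space K] [SecondCountableTopology K] [MeasurableSpace K] [BorelSpace K]
  {μ : Measure Y} [IsProbabilityMeasure μ] {ρ : Measure K} [ρ.IsHaarMeasure] [IsProbabilityMeasure ρ]

/-- the functions with vanishing seminorm are negligible almost everywhere -/
theorem neg_main [StandardBorelSpace (Y × K)] (hC : CORF) (hA : AVZF) (hH : HKC) (S : Fin 2 → Y ≃ᵐ Y)
    (hS : ∀ j, MeasurePreserving (S j) μ μ) {σ : Fin 2 → Y → K} (hσ : ∀ j, Measurable (σ j))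
    (hcom : Commute (skE (S 0) (σ 0)) (skE (S 1) (σ 1)))
    (hY : ∀ g : Fin 2 → Y → ℂ, (∀ j, Measurable (g j)) → (∃ C, ∀ j y, ‖g j y‖ ≤ C) →
      ∀ᵐ y ∂μ, ∃ L, Tendsto (fun N => AVF (fun j => (S j : Y → Y)) g N y) atTop (𝓝 L))
    (f : Fin 2 → Y × K → ℂ) (hf : ∀ j, Measurable (f j)) (hf1 : ∀ j x, ‖f j x‖ ≤ 1) (j0 : Fin 2)
    (w : Y × K → ℝ) (hw : BMr w) (hfw : ∀ x, f j0 x = ((w x : ℝ) : ℂ))
    (hE : En2 (μ.prod ρ) (aR (skE (S 0) (σ 0)) (skE (S 1) (σ 1))) (aT (skE (S j0) (σ j0))) w = 0) :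
    ∀ᵐ x ∂(μ.prod ρ), Tendsto (fun N => AVF (fun j => sk (S j) (σ j)) f N x) atTop (𝓝 0) := by
  have hSm : ∀ j, Measurable ((S j : Y → Y)) := fun j => (S j).measurable
  apply hA Y K μ ρ 2 (fun j => (S j : Y → Y)) σ f hS hσ hf hf1
  apply BBF_zero
  intro η hη ε hε
  have hmp : ∀ j, MeasurePreserving (skE (S j) (σ j)) (μ.prod ρ) (μ.prod ρ) := fun j => mp_sk μ ρ (hS j) (hσ j)
  have hmi : ∀ j, Measurable (skE (S j) (σ j)).symm := fun j => skE_symm_meas (S j) (hσ j)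
  set Φ : ℤ → Equiv.Perm (Y × K) := aR (skE (S 0) (σ 0)) (skE (S 1) (σ 1)) with hΦ
  have haΦ : Act (μ.prod ρ) Φ := act_aR (hmp 0) (hmi 0) (hmp 1) (hmi 1)
  have haT : ∀ j, Act (μ.prod ρ) (aT (skE (S j) (σ j))) := fun j => act_aT (hmp j) (hmi j)
  have hcomj : Com Φ (aT (skE (S j0) (σ j0))) := by
    fin_cases j0
    · exact com_aR hcom
    · exact com_aR' hcom
  set F : ℕ → Y × K → ℝ := fun d x => w (aT (skE (S j0) (σ j0)) (d : ℤ) x) * w x with hF
  have hFB : ∀ d, BMr (F d) := fun d => (hw.comp ((haT j0).measurable _)).mul hw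
  set e : ℕ → ℝ := fun d => ∫ x, ((μ.prod ρ)[F d | inv Φ 1]) x ^ 2 ∂(μ.prod ρ) with he
  have he0 : ∀ d, 0 ≤ e d := fun d => integral_nonneg fun x => sq_nonneg _
  have hlim : Tendsto (fun M : ℕ => (M : ℝ)⁻¹ * ∑ m ∈ range M, e m) atTop (𝓝 0) := by
    have h1 := hH (Y × K) (μ.prod ρ) Φ (aT (skE (S j0) (σ j0))) haΦ (haT j0) hcomj w hw
    rw [hE] at h1
    exact h1
  set c : ℕ → ℕ → ℂ := fun d n => ∫ y, ∏ j, psiF ρ (fun j => (S j : Y → Y)) σ f d j ((S j)^[n + 1] y) ∂μ with hc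
  have key : ∀ d N, ‖av N (c d)‖ ^ 2 ≤ msq (μ.prod ρ) Φ (F d) N := by
    intro d N
    have e1 : ∀ n, c d n = ∫ x, ∏ l, mixF ρ (fun j => (S j : Y → Y)) σ f d j0 l ((sk (S l) (σ l))^[n + 1] x)
        ∂(μ.prod ρ) := fun n => mixF_cor hSm hσ hf hf1 d j0 (n + 1)
    have e2 : ∀ x, mixF ρ (fun j => (S j : Y → Y)) σ f d j0 j0 x = ((F d x : ℝ) : ℂ) := by
      intro x
      unfold mixF
      rw [if_pos rfl, hfw, hfw, Complex.conj_ofReal, ← Complex.ofReal_mul]
      rfl
    have e3 : ∀ l, l ≠ j0 → ∀ x, mixF ρ (fun j => (S j : Y → Y)) σ f d j0 l x =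
        psiF ρ (fun j => (S j : Y → Y)) σ f d l x.1 := by
      intro l hl x
      unfold mixF
      rw [if_neg hl]
    have e4 : ∀ (l : Fin 2) (n : ℕ) (x : Y × K), (sk (S l) (σ l))^[n + 1] x =
        aT (skE (S l) (σ l)) ((n : ℤ) + 1) x := by
      intro l n x
      have := aT_iter (P := skE (S l) (σ l)) (n + 1) x
      push_cast at this
      exact this
    have hPm : ∀ l, Measurable (fun x : Y × K => psiF ρ (fun j => (S j : Y → Y)) σ f d l x.1) := fun l =>
      (psiF_meas hSm hσ hf d l).comp measurable_fst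
    have hP1 : ∀ l (x : Y × K), ‖psiF ρ (fun j => (S j : Y → Y)) σ f d l x.1‖ ≤ 1 := fun l x => psiF_bound hf1 d l _
    have hcases : j0 = 0 ∨ j0 = 1 := by
      fin_cases j0
      · exact Or.inl rfl
      · exact Or.inr rfl
    rcases hcases with h0 | h0
    · have e5 : ∀ n : ℕ, c d n = ∫ x, ((F d (Φ (-((n : ℤ) + 1)) x) : ℝ) : ℂ) *
          psiF ρ (fun j => (S j : Y → Y)) σ f d 1 x.1 ∂(μ.prod ρ) := by
        intro n
        rw [e1 n, ← cor0 haΦ (haT 1) (aR_mul hcom) (hFB d) (hPm 1) ((n : ℤ) + 1)]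
        refine integral_congr_ae (Eventually.of_forall fun x => ?_)
        simp only
        rw [Fin.prod_univ_two, e4, e4, e3 1 (by rw [h0]; decide)]
        congr 1
        rw [← e2, h0]
      have e6 : av N (c d) = av N (fun n : ℕ => ∫ x, ((F d (Φ (-((n : ℤ) + 1)) x) : ℝ) : ℂ) *
          psiF ρ (fun j => (S j : Y → Y)) σ f d 1 x.1 ∂(μ.prod ρ)) := by
        congr 1
        funext n
        exact e5 n
      rw [e6, ← msq_neg haΦ (hFB d) N]
      exact cor_bd haΦ (hFB d) (hP1 1) (hPm 1) (fun n : ℕ => -((n : ℤ) + 1)) N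
    · have e5 : ∀ n : ℕ, c d n = ∫ x, ((F d (Φ ((n : ℤ) + 1) x) : ℝ) : ℂ) *
          psiF ρ (fun j => (S j : Y → Y)) σ f d 0 x.1 ∂(μ.prod ρ) := by
        intro n
        rw [e1 n, ← cor1 haΦ (haT 0) (aR_mul hcom) (hFB d) (hPm 0) ((n : ℤ) + 1)]
        refine integral_congr_ae (Eventually.of_forall fun x => ?_)
        simp only
        rw [Fin.prod_univ_two, e4, e4, e3 0 (by rw [h0]; decide), mul_comm]
        congr 1
        rw [← e2, h0]
      have e6 : av N (c d) = av N (fun n : ℕ => ∫ x, ((F d (Φ ((n : ℤ) + 1) x) : ℝ) : ℂ) *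
          psiF ρ (fun j => (S j : Y → Y)) σ f d 0 x.1 ∂(μ.prod ρ)) := by
        congr 1
        funext n
        exact e5 n
      rw [e6, ← msq_shift haΦ (hFB d) N]
      exact cor_bd haΦ (hFB d) (hP1 0) (hPm 0) (fun n : ℕ => (n : ℤ) + 1) N
  have hcd : ∀ d, ∀ ε : ℝ, 0 < ε → ∀ᶠ N : ℕ in atTop, ‖av N (c d)‖ ^ 2 ≤ e d + ε := by
    intro d ε' hε'
    have h1 := (tendsto_order.1 (msq_tendsto haΦ (hFB d))).2 (e d + ε') (by simp only [he]; linarith)
    filter_upwards [h1] with N hN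
    exact (key d N).trans hN.le
  obtain ⟨H, hH0, hev⟩ := dbl he0 hlim hcd (ε * η) (by positivity)
  have hfin := hC Y K μ ρ 2 (fun j => (S j : Y → Y)) σ f hS hσ hf 1 hf1 (fun d => by
    refine hY (fun l => psiF ρ (fun j => (S j : Y → Y)) σ f d l) (fun l => psiF_meas hSm hσ hf d l)
      ⟨1, fun l y => psiF_bound hf1 d l y⟩) (ε * η) H hH0 hev η hη
  refine hfin.trans (ENNReal.ofReal_le_ofReal ?_)
  apply le_of_eq
  field_simp

end Main

end Pool.Agent.H80C
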