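import Pool.Agent.H80C.TowF
import Pool.Agent.H80C.CORF
import Pool.Agent.H80C.AVZF
import Pool.Agent.H80C.LIALG

/-!
Isometric steps and inverse limits for σ-algebras, for families of maps.
-/

set_option autoImplicit false
set_option linter.unusedSectionVars false

open Filter Topology MeasureTheory ProbabilityTheory
open scoped ENNReal ProbabilityTheory ComplexConjugate

namespace Pool.Agent.H80C

open Pool.Agent.Y311.UB Pool.Agent.Y311.CX Pool.Agent.H80GE Pool.Agent.H80IE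

section

variable {X : Type} (𝓑 𝓐 : MeasurableSpace X) [mX : MeasurableSpace X] {μ : Measure X} [IsProbabilityMeasure μ]

/-- the class for one σ-algebra up to null sets and for the supremum of a directed family -/
theorem cvf_fam {F : Set (MeasurableSpace X)} (hne : F.Nonempty) (hdir : DirectedOn (· ≤ ·) F)
    (hle : ∀ 𝓒 ∈ F, 𝓒 ≤ mX) {m : ℕ} {T : Fin m → X → X} (hT : ∀ j, MeasurePreserving (T j) μ μ)
    (hc : ∀ 𝓒 ∈ F, CvF μ T 𝓒)
    (hB : ∀ s, MeasurableSet[𝓑] s → MeasurableSet s ∧ cl μ (Afam F) (s.indicator fun _ => (1 : ℝ))) :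
    CvF μ T 𝓑 := by
  classical
  refine cvf_of_alg 𝓑 (Afam_alg hne hdir hle) hT (fun f hf => ?_) hB
  have hcom : ∀ J : Finset (Fin m), ∃ 𝓒 ∈ F, ∀ j ∈ J, Measurable[𝓒] (f j) := by
    intro J
    induction J using Finset.induction_on with
    | empty =>
      obtain ⟨𝓒, hC⟩ := hne
      exact ⟨𝓒, hC, fun j hj => absurd hj (Finset.notMem_empty j)⟩
    | insert i J _ ih =>
      obtain ⟨𝓒₁, h1, h2⟩ := ih
      obtain ⟨𝓒₂, h3, h4, -⟩ := hf i
      obtain ⟨𝓒, hC, h5, h6⟩ := hdir 𝓒₁ h1 𝓒₂ h3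
      refine ⟨𝓒, hC, fun j hj => ?_⟩
      rcases Finset.mem_insert.1 hj with rfl | hj
      · exact h4.mono h6 le_rfl
      · exact (h2 j hj).mono h5 le_rfl
  obtain ⟨𝓒, hC, h1⟩ := hcom Finset.univ
  choose D hD using fun j => (hf j).choose_spec.2.2
  refine hc 𝓒 hC _ (fun j => Complex.measurable_ofReal.comp (h1 j (Finset.mem_univ j))) ⟨∑ j, |D j|, fun j x => ?_⟩
  rw [Complex.norm_real]
  exact (hD j x).trans ((le_abs_self _).trans
    (Finset.single_le_sum (f := fun j => |D j|) (fun _ _ => abs_nonneg _) (Finset.mem_univ j)))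

theorem cvf_mod (hle : 𝓐 ≤ mX) {m : ℕ} {T : Fin m → X → X} (hT : ∀ j, MeasurePreserving (T j) μ μ)
    (hc : CvF μ T 𝓐) (hB : ∀ s, MeasurableSet[𝓑] s → MeasurableSet s ∧ ∃ t, MeasurableSet[𝓐] t ∧ s =ᵐ[μ] t) :
    CvF μ T 𝓑 := by
  refine cvf_fam 𝓑 (F := {𝓐}) (Set.singleton_nonempty _) (directedOn_singleton _)
    (by rintro 𝓒 rfl; exact hle) hT (by rintro 𝓒 rfl; exact hc) fun s hs => ?_
  obtain ⟨h1, t, h2, h3⟩ := hB s hs
  refine ⟨h1, BMr.indicator h1, fun ε hε => ⟨t.indicator fun _ => (1 : ℝ), ⟨𝓐, rfl, ?_, ?_⟩, ?_⟩⟩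
  · exact (@measurable_const _ _ _ 𝓐 (1 : ℝ)).indicator h2
  · exact (BMr.indicator (hle t h2)).2
  · rw [ind_sub_zero h3]
    exact hε.le

theorem cvf_sup {F : Set (MeasurableSpace X)} (hne : F.Nonempty) (hdir : DirectedOn (· ≤ ·) F)
    (hle : ∀ 𝓒 ∈ F, 𝓒 ≤ mX) {m : ℕ} {T : Fin m → X → X} (hT : ∀ j, MeasurePreserving (T j) μ μ)
    (hc : ∀ 𝓒 ∈ F, CvF μ T 𝓒) : CvF μ T (sSup F) := by
  refine cvf_fam (sSup F) hne hdir hle hT hc fun s hs => ?_
  have hA := Afam_alg hne hdir hle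
  have hAf : ∀ t : Set X, Afam F (t.indicator fun _ => (1 : ℝ)) → cl μ (Afam F) (t.indicator fun _ => (1 : ℝ)) :=
    fun t ht => cl.of hA ht
  have h1 : sSup F ≤ Gs (cl_calg (μ := μ) hA) := by
    refine sSup_le fun 𝓒 hC t ht => ⟨hle 𝓒 hC t ht, hAf t ⟨𝓒, hC, ?_, ind_bdd t⟩⟩
    exact (@measurable_const _ _ _ 𝓒 (1 : ℝ)).indicator ht
  exact h1 s hs

end

/-- transfer along equivariant maps: from the target to the functions of the map -/
theorem AVF_equiv {X Z : Type} {m : ℕ} {T : Fin m → X → X} {R : Fin m → Z → Z} {p : X → Z} {x : X}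
    (hx : ∀ j n, p ((T j)^[n] x) = (R j)^[n] (p x)) (g : Fin m → Z → ℂ) (N : ℕ) : AVF T (fun j x => g j (p x)) N x = AVF R g N (p x) := by
  unfold AVF
  simp only [hx]


theorem cvf_iso {X : Type} (𝓑 𝓐 : MeasurableSpace X) [mX : MeasurableSpace X] {μ : Measure X} [IsProbabilityMeasure μ]
    {Y K W : Type} [MeasurableSpace Y] [StandardBorelSpace Y] [Group K] [TopologicalSpace K]
    [IsTopologicalGroup K] [CompactSpace K] [T2Space K] [SecondCountableTopology K] [MeasurableSpace K] [BorelSpace K]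
    [MeasurableSpace W] [MulAction K W] [MeasurableSMul₂ K W]
    (hH : HKC) (hE : EOI) (hZ : ZIC)
    {ρ : Measure K} [ρ.IsHaarMeasure] [IsProbabilityMeasure ρ] (w₀ : W) (S : Fin 2 → Y ≃ᵐ Y)
    {σ : Fin 2 → Y → K} (hσ : ∀ j, Measurable (σ j)) (hS01 : ∀ y, S 0 (S 1 y) = S 1 (S 0 y))
    (hcoc : ∀ y, σ 0 (S 1 y) * σ 1 y = σ 1 (S 0 y) * σ 0 y)
    {π : X → Y} (hπ : Measurable π) {τ : X → W} (hτ : Measurable τ)
    {T : Fin 2 → X → X} (hT : ∀ j, MeasurePreserving (T j) μ μ) (h1 : ∀ j, ∀ᵐ x ∂μ, π (T j x) = S j (π x))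
    (h2 : ∀ j, ∀ᵐ x ∂μ, τ (T j x) = σ j (π x) • τ x)
    (h3 : μ.map (fun x => (π x, τ x)) = (μ.map π).prod (ρ.map fun k => k • w₀)) (hle : 𝓐 ≤ mX)
    (h4 : ∀ B, MeasurableSet B → ∃ A, MeasurableSet[𝓐] A ∧ π ⁻¹' B =ᵐ[μ] A)
    (h5 : ∀ B, MeasurableSet[𝓑] B → MeasurableSet B ∧
      ∃ C : Set (Y × W), MeasurableSet C ∧ B =ᵐ[μ] (fun x => (π x, τ x)) ⁻¹' C)
    (hc : CvF μ T 𝓐) : CvF μ T 𝓑 := by
  have hν : IsProbabilityMeasure (μ.map π) := Measure.isProbabilityMeasure_map hπ.aemeasurable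
  have hS : ∀ j, MeasurePreserving (S j) (μ.map π) (μ.map π) := by
    intro j
    refine ⟨(S j).measurable, ?_⟩
    rw [Measure.map_map (S j).measurable hπ]
    have e1 : (S j ∘ π) =ᵐ[μ] (π ∘ T j) := by
      filter_upwards [h1 j] with x hx
      exact hx.symm
    rw [Measure.map_congr e1, ← Measure.map_map hπ (hT j).measurable, (hT j).map_eq]
  -- convergence on the base
  have hcπ : CvF μ T (MeasurableSpace.comap π inferInstance) := by
    refine cvf_mod _ 𝓐 hle hT hc fun s hs => ?_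
    obtain ⟨B, hB, rfl⟩ := hs
    exact ⟨hπ hB, h4 B hB⟩
  have hY : ∀ g : Fin 2 → Y → ℂ, (∀ j, Measurable (g j)) → (∃ C, ∀ j y, ‖g j y‖ ≤ C) →
      ∀ᵐ y ∂(μ.map π), ∃ L, Tendsto (fun N => AVF (fun j => (S j : Y → Y)) g N y) atTop (𝓝 L) := by
    intro g hg hgb
    rw [ae_map_iff hπ.aemeasurable (measurableSet_exists_tendsto
      (fun N => AVF_meas (fun j => (S j).measurable) hg N))]
    have h6 := hcπ (fun j x => g j (π x)) (fun j => (hg j).comp (comap_measurable π)) (by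
      obtain ⟨C, hC⟩ := hgb
      exact ⟨C, fun j x => hC j _⟩)
    have h7 : ∀ᵐ x ∂μ, ∀ j : Fin 2, ∀ n : ℕ, π ((T j)^[n] x) = (S j)^[n] (π x) :=
      ae_all_iff.2 fun j => equiv_iter (hT j) (h1 j)
    filter_upwards [h6, h7] with x hx1 hx2
    obtain ⟨L, hL⟩ := hx1
    exact ⟨L, hL.congr fun N => AVF_equiv (R := fun j => (S j : Y → Y)) hx2 g N⟩
  -- the extension
  have hp : Measurable (fun x => (π x, τ x)) := hπ.prodMk hτ
  have hmp : MeasurePreserving (fun x => (π x, τ x)) μ ((μ.map π).prod (ρ.map fun k => k • w₀)) := ⟨hp, h3⟩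
  have hpT : ∀ j, ∀ᵐ x ∂μ, (π (T j x), τ (T j x)) = exs (S j) (σ j) (π x, τ x) := by
    intro j
    filter_upwards [h1 j, h2 j] with x hx1 hx2
    unfold exs
    simp only
    rw [hx1, hx2]
  have hiter : ∀ᵐ x ∂μ, ∀ j : Fin 2, ∀ n : ℕ, (fun x => (π x, τ x)) ((T j)^[n] x) =
      (exs (S j) (σ j))^[n] (π x, τ x) :=
    ae_all_iff.2 fun j => equiv_iter (p := fun x => (π x, τ x)) (R := exs (S j) (σ j)) (hT j) (hpT j)
  set A : (X → ℝ) → Prop := fun f => ∃ g : Y × W → ℝ, BMr g ∧ f = fun x => g (π x, τ x) with hA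
  have hAlg : Alg0 A := by
    refine ⟨?_, ?_, ?_, ?_, ?_, ?_⟩
    · rintro f ⟨g, hg, rfl⟩
      exact hg.comp hp
    · rintro f f' ⟨g, hg, rfl⟩ ⟨g', hg', rfl⟩
      exact ⟨_, BMr.add' hg hg', rfl⟩
    · rintro f f' ⟨g, hg, rfl⟩ ⟨g', hg', rfl⟩
      exact ⟨_, hg.mul hg', rfl⟩
    · rintro c f ⟨g, hg, rfl⟩
      exact ⟨_, BMr.smul' hg c, rfl⟩
    · intro c
      exact ⟨fun _ => c, ⟨measurable_const, |c|, fun _ => le_rfl⟩, rfl⟩
    · rintro c f ⟨g, hg, rfl⟩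
      refine ⟨fun z => max (-c) (min c (g z)), ⟨measurable_const.max (measurable_const.min hg.1), |c|, fun x => ?_⟩, rfl⟩
      have h3 : -|c| ≤ -c := by linarith [le_abs_self c]
      have h4 : -c ≤ |c| := neg_le_abs c
      rw [abs_le]
      exact ⟨h3.trans (le_max_left _ _), max_le h4 ((min_le_left _ _).trans (le_abs_self c))⟩
  refine cvf_of_alg 𝓑 hAlg hT (fun f hf => ?_) fun s hs => ?_
  · choose g hg1 hg2 using hf
    choose D hD using fun j => (hg1 j).2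
    have h7 := conv_W (ρ := ρ) CORF.t (AVZF.t CLF.t) hH LIALG.t hE hZ w₀ S hS hσ hS01 hcoc hY (fun j z => ((g j z : ℝ) : ℂ))
      (fun j => Complex.measurable_ofReal.comp (hg1 j).1) ⟨∑ j, |D j|, fun j x => by
        rw [Complex.norm_real]
        exact (hD j x).trans ((le_abs_self _).trans
          (Finset.single_le_sum (f := fun j => |D j|) (fun _ _ => abs_nonneg _) (Finset.mem_univ j)))⟩
    filter_upwards [hmp.quasiMeasurePreserving.ae h7, hiter] with x hx1 hx2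
    obtain ⟨L, hL⟩ := hx1
    refine ⟨L, hL.congr fun N => ?_⟩
    rw [← AVF_equiv (T := T) (R := fun j => exs (S j) (σ j)) (p := fun x => (π x, τ x)) hx2 (fun j z => ((g j z : ℝ) : ℂ)) N]
    congr 1
    funext j x
    rw [hg2 j]
  · obtain ⟨hsm, C, hC, h8⟩ := h5 s hs
    refine ⟨hsm, BMr.indicator hsm, fun ε hε => ⟨_, ⟨C.indicator fun _ => (1 : ℝ), BMr.indicator hC, rfl⟩, ?_⟩⟩
    have h9 := ind_sub_zero h8
    have e : ∀ x, ((fun x => (π x, τ x)) ⁻¹' C).indicator (fun _ => (1 : ℝ)) x =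
        C.indicator (fun _ => (1 : ℝ)) (π x, τ x) := fun x => rfl
    simp only [e] at h9
    rw [h9]
    exact hε.le

end Pool.Agent.H80C
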