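import Pool.Agent.H80C.AsmC
import Pool.Agent.H80C.TowF2

/-!
The averages of two functions, in the form of the results file.
-/

set_option autoImplicit false
set_option linter.unusedSectionVars false

open Filter Topology MeasureTheory ProbabilityTheory Finset
open scoped ENNReal ComplexConjugate

namespace Pool.Agent.H80C

open Pool.Agent.Y311.UB Pool.Agent.Y311.CX Pool.Agent.H80GE Pool.Agent.H80IE

/-- the averages over `1, …, N` -/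
theorem avg_pair {X : Type} (T₀ T₁ : X → X) (f : Fin 2 → X → ℂ) (N : ℕ) (x : X) :
    (1 / (N : ℂ)) * ∑ n ∈ Finset.Icc 1 N, f 0 (T₀^[n] x) * f 1 (T₁^[n] x) = AVF ![T₀, T₁] f N x := by
  unfold AVF av
  rw [one_div]
  congr 1
  have e0 : Finset.Icc 1 N = Finset.Ico 1 (N + 1) := by ext; simp
  rw [e0, Finset.sum_Ico_eq_sum_range]
  refine Finset.sum_congr (by simp) fun n _ => ?_
  simp only [Fin.prod_univ_two]
  rw [add_comm 1 n]
  rfl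

theorem conv_pair {X : Type} (𝓐 : MeasurableSpace X) [mX : MeasurableSpace X] (ν : Measure X) (T₀ T₁ : X → X) :
    (∀ f₀ f₁ : X → ℂ, Measurable[𝓐] f₀ → Measurable[𝓐] f₁ → (∃ C, ∀ x, ‖f₀ x‖ ≤ C ∧ ‖f₁ x‖ ≤ C) →
      ∀ᵐ x ∂ν, ∃ L, Tendsto (fun N : ℕ => (1 / (N : ℂ)) * ∑ n ∈ Finset.Icc 1 N, f₀ (T₀^[n] x) * f₁ (T₁^[n] x))
        atTop (𝓝 L)) ↔ CvF ν ![T₀, T₁] 𝓐 := by
  constructor
  · intro h f hf hfb
    have h1 := h (f 0) (f 1) (hf 0) (hf 1) (by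
      obtain ⟨C, hC⟩ := hfb
      exact ⟨C, fun x => ⟨hC 0 x, hC 1 x⟩⟩)
    filter_upwards [h1] with x hx
    obtain ⟨L, hL⟩ := hx
    exact ⟨L, hL.congr fun N => avg_pair T₀ T₁ f N x⟩
  · intro h f₀ f₁ hf₀ hf₁ hfb
    have h1 := h ![f₀, f₁] (fun j => by
      fin_cases j
      · exact hf₀
      · exact hf₁) (by
      obtain ⟨C, hC⟩ := hfb
      refine ⟨C, fun j x => ?_⟩
      fin_cases j
      · exact (hC x).1
      · exact (hC x).2)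
    filter_upwards [h1] with x hx
    obtain ⟨L, hL⟩ := hx
    refine ⟨L, hL.congr fun N => ?_⟩
    rw [← avg_pair T₀ T₁ ![f₀, f₁] N x]
    rfl

/-- isometric extensions -/
theorem pair_W {Y K W : Type} [MeasurableSpace Y] [StandardBorelSpace Y] [Group K] [TopologicalSpace K]
    [IsTopologicalGroup K] [CompactSpace K] [T2Space K] [SecondCountableTopology K] [MeasurableSpace K] [BorelSpace K]
    [MeasurableSpace W] [MulAction K W] [MeasurableSMul₂ K W]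
    (μ : Measure Y) [IsProbabilityMeasure μ] (ρ : Measure K) [ρ.IsHaarMeasure] [IsProbabilityMeasure ρ]
    (w₀ : W) (S₀ S₁ : Y ≃ᵐ Y) (hS₀ : MeasurePreserving S₀ μ μ) (hS₁ : MeasurePreserving S₁ μ μ) {σ₀ σ₁ : Y → K}
    (hσ₀ : Measurable σ₀) (hσ₁ : Measurable σ₁) (hS01 : ∀ y, S₀ (S₁ y) = S₁ (S₀ y))
    (hcoc : ∀ y, σ₀ (S₁ y) * σ₁ y = σ₁ (S₀ y) * σ₀ y)
    (hY : CvF μ ![(S₀ : Y → Y), S₁] inferInstance) :
    CvF (μ.prod (ρ.map fun k => k • w₀)) ![exs (W := W) S₀ σ₀, exs S₁ σ₁] inferInstance := by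
  intro f hf hfb
  have e1 : (fun j => ((![S₀, S₁] : Fin 2 → Y ≃ᵐ Y) j : Y → Y)) = ![(S₀ : Y → Y), S₁] := by
    funext j
    fin_cases j <;> rfl
  have e2 : (fun j => exs (W := W) ((![S₀, S₁] : Fin 2 → Y ≃ᵐ Y) j) ((![σ₀, σ₁] : Fin 2 → Y → K) j)) =
      ![exs (W := W) S₀ σ₀, exs S₁ σ₁] := by
    funext j
    fin_cases j <;> rfl
  have h1 := conv_W (ρ := ρ) CORF.t (AVZF.t CLF.t) hkc LIALG.t eoi zic w₀ ![S₀, S₁] (fun j => by
      fin_cases j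
      · exact hS₀
      · exact hS₁) (σ := ![σ₀, σ₁]) (fun j => by
      fin_cases j
      · exact hσ₀
      · exact hσ₁) hS01 hcoc (by
      rw [e1]
      exact hY) f hf hfb
  rw [e2] at h1
  exact h1

/-- isometric extensions, σ-algebras -/
theorem pair_iso {X : Type} (𝓑 𝓐 : MeasurableSpace X) [mX : MeasurableSpace X] {μ : Measure X} [IsProbabilityMeasure μ]
    {Y K W : Type} [MeasurableSpace Y] [StandardBorelSpace Y] [Group K] [TopologicalSpace K]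
    [IsTopologicalGroup K] [CompactSpace K] [T2Space K] [SecondCountableTopology K] [MeasurableSpace K] [BorelSpace K]
    [MeasurableSpace W] [MulAction K W] [MeasurableSMul₂ K W]
    {ρ : Measure K} [ρ.IsHaarMeasure] [IsProbabilityMeasure ρ] (w₀ : W) (S₀ S₁ : Y ≃ᵐ Y)
    {σ₀ σ₁ : Y → K} (hσ₀ : Measurable σ₀) (hσ₁ : Measurable σ₁) (hS01 : ∀ y, S₀ (S₁ y) = S₁ (S₀ y))
    (hcoc : ∀ y, σ₀ (S₁ y) * σ₁ y = σ₁ (S₀ y) * σ₀ y)
    {π : X → Y} (hπ : Measurable π) {τ : X → W} (hτ : Measurable τ)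
    {T₀ T₁ : X → X} (hT₀ : MeasurePreserving T₀ μ μ) (hT₁ : MeasurePreserving T₁ μ μ)
    (h1 : ∀ᵐ x ∂μ, π (T₀ x) = S₀ (π x) ∧ π (T₁ x) = S₁ (π x))
    (h2 : ∀ᵐ x ∂μ, τ (T₀ x) = σ₀ (π x) • τ x ∧ τ (T₁ x) = σ₁ (π x) • τ x)
    (h3 : μ.map (fun x => (π x, τ x)) = (μ.map π).prod (ρ.map fun k => k • w₀)) (hle : 𝓐 ≤ mX)
    (h4 : ∀ B, MeasurableSet B → ∃ A, MeasurableSet[𝓐] A ∧ π ⁻¹' B =ᵐ[μ] A)
    (h5 : ∀ B, MeasurableSet[𝓑] B → MeasurableSet B ∧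
      ∃ C : Set (Y × W), MeasurableSet C ∧ B =ᵐ[μ] (fun x => (π x, τ x)) ⁻¹' C)
    (hc : CvF μ ![T₀, T₁] 𝓐) : CvF μ ![T₀, T₁] 𝓑 := by
  refine cvf_iso (ρ := ρ) 𝓑 𝓐 hkc eoi zic w₀ ![S₀, S₁] (σ := ![σ₀, σ₁]) (fun j => ?_) hS01 hcoc hπ hτ (fun j => ?_)
    (fun j => ?_) (fun j => ?_) h3 hle h4 h5 hc
  · fin_cases j
    · exact hσ₀
    · exact hσ₁
  · fin_cases j
    · exact hT₀
    · exact hT₁
  · fin_cases j
    · exact h1.mono fun x hx => hx.1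
    · exact h1.mono fun x hx => hx.2
  · fin_cases j
    · exact h2.mono fun x hx => hx.1
    · exact h2.mono fun x hx => hx.2

/-- directed suprema -/
theorem pair_sup {X : Type} [mX : MeasurableSpace X] {μ : Measure X} [IsProbabilityMeasure μ]
    {F : Set (MeasurableSpace X)} (hne : F.Nonempty) (hdir : DirectedOn (· ≤ ·) F)
    (hle : ∀ 𝓒 ∈ F, 𝓒 ≤ mX) {T₀ T₁ : X → X} (hT₀ : MeasurePreserving T₀ μ μ) (hT₁ : MeasurePreserving T₁ μ μ)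
    (hc : ∀ 𝓒 ∈ F, CvF μ ![T₀, T₁] 𝓒) : CvF μ ![T₀, T₁] (sSup F) := by
  refine cvf_sup hne hdir hle (fun j => ?_) hc
  fin_cases j
  · exact hT₀
  · exact hT₁

end Pool.Agent.H80C
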