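import Pool.Agent.H80C.Pair

/-!
Unconditional bases: σ-algebras generated by sets `A` such that every `T j ⁻¹' A` is `A` or `Q ⁻¹' A`.
-/

set_option autoImplicit false
set_option linter.unusedSectionVars false

open Filter Topology MeasureTheory ProbabilityTheory
open scoped ENNReal ComplexConjugate

noncomputable section

namespace Pool.Agent.H80C

open Pool.Agent.Y311.UB Pool.Agent.Y311.CX Pool.Agent.H80GE Pool.Agent.H80IE

section

variable {X : Type}

open Classical in
/-- the atom of `x` -/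
def kap (G : Finset (Set X)) (x : X) : Finset (Set X) := G.filter (fun A => x ∈ A)

theorem mem_kap {G : Finset (Set X)} {x : X} {A : Set X} : A ∈ kap G x ↔ A ∈ G ∧ x ∈ A := by
  classical
  unfold kap
  exact Finset.mem_filter

theorem kap_iff {G : Finset (Set X)} {x y : X} : kap G x = kap G y ↔ ∀ A ∈ G, (x ∈ A ↔ y ∈ A) := by
  constructor
  · intro h A hA
    have h1 : A ∈ kap G x ↔ A ∈ kap G y := by rw [h]
    rw [mem_kap, mem_kap] at h1
    simpa [hA] using h1
  · intro h
    ext A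
    rw [mem_kap, mem_kap]
    constructor
    · rintro ⟨h1, h2⟩
      exact ⟨h1, (h A h1).1 h2⟩
    · rintro ⟨h1, h2⟩
      exact ⟨h1, (h A h1).2 h2⟩

theorem kap_mono {G G' : Finset (Set X)} (h : G ⊆ G') {x y : X} (hk : kap G' x = kap G' y) : kap G x = kap G y :=
  kap_iff.2 fun A hA => kap_iff.1 hk A (h hA)

/-- functions of finitely many sets of `𝒢` -/
def At (𝒢 : Set (Set X)) (f : X → ℝ) : Prop :=
  ∃ G : Finset (Set X), (∀ A ∈ G, A ∈ 𝒢) ∧ ∀ x y, kap G x = kap G y → f x = f y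

theorem fac_kap {G : Finset (Set X)} {f : X → ℝ} (h : ∀ x y, kap G x = kap G y → f x = f y) :
    ∃ F : Finset (Set X) → ℝ, ∀ x, f x = F (kap G x) := by
  classical
  refine ⟨fun t => if ht : ∃ x, kap G x = t then f ht.choose else 0, fun x => ?_⟩
  have hx : ∃ y, kap G y = kap G x := ⟨x, rfl⟩
  simp only
  rw [dif_pos hx]
  exact h _ _ hx.choose_spec.symm

variable [MeasurableSpace X]

theorem kap_set {G : Finset (Set X)} (hG : ∀ A ∈ G, MeasurableSet A) (t : Finset (Set X)) :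
    MeasurableSet {x : X | kap G x = t} := by
  classical
  by_cases ht : t ⊆ G
  · have e : {x : X | kap G x = t} = ⋂ A ∈ G, {x | x ∈ A ↔ A ∈ t} := by
      ext x
      simp only [Set.mem_ofPred_eq, Set.mem_iInter]
      constructor
      · rintro rfl A hA
        rw [mem_kap]
        exact ⟨fun h => ⟨hA, h⟩, fun h => h.2⟩
      · intro h
        ext A
        rw [mem_kap]
        constructor
        · rintro ⟨h1, h2⟩
          exact (h A h1).1 h2
        · intro h1
          exact ⟨ht h1, (h A (ht h1)).2 h1⟩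
    rw [e]
    refine Finset.measurableSet_biInter _ fun A hA => ?_
    by_cases hAt : A ∈ t
    · have e2 : {x : X | x ∈ A ↔ A ∈ t} = A := by
        ext x
        simp [hAt]
      rw [e2]
      exact hG A hA
    · have e2 : {x : X | x ∈ A ↔ A ∈ t} = Aᶜ := by
        ext x
        simp [hAt]
      rw [e2]
      exact (hG A hA).compl
  · have e : {x : X | kap G x = t} = ∅ := by
      ext x
      simp only [Set.mem_ofPred_eq, Set.mem_empty_iff_false, iff_false]
      rintro rfl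
      exact ht fun A hA => (mem_kap.1 hA).1
    rw [e]
    exact MeasurableSet.empty

theorem kap_bmr {G : Finset (Set X)} (hG : ∀ A ∈ G, MeasurableSet A) (F : Finset (Set X) → ℝ) :
    BMr (fun x => F (kap G x)) := by
  classical
  have hmem : ∀ x, kap G x ∈ G.powerset := fun x =>
    Finset.mem_powerset.2 fun A hA => (mem_kap.1 hA).1
  have e : (fun x => F (kap G x)) = fun x => ∑ t ∈ G.powerset, Set.indicator {x : X | kap G x = t} (fun _ => F t) x := by
    funext x
    rw [Finset.sum_eq_single (kap G x)]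
    · rw [Set.indicator_of_mem]
      rfl
    · intro t _ ht
      rw [Set.indicator_of_notMem]
      exact fun h => ht (Eq.symm h)
    · exact fun h => absurd (hmem x) h
  refine ⟨?_, ∑ t ∈ G.powerset, |F t|, fun x => ?_⟩
  · rw [e]
    exact Finset.measurable_fun_sum _ fun t _ => measurable_const.indicator (kap_set hG t)
  · exact Finset.single_le_sum (f := fun t => |F t|) (fun _ _ => abs_nonneg _) (hmem x)

theorem At_alg {𝒢 : Set (Set X)} (h𝒢 : ∀ A ∈ 𝒢, MeasurableSet A) : Alg0 (At 𝒢) := by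
  classical
  refine ⟨?_, ?_, ?_, ?_, ?_, ?_⟩
  · rintro f ⟨G, hG, hf⟩
    obtain ⟨F, hF⟩ := fac_kap hf
    have e : f = fun x => F (kap G x) := funext hF
    rw [e]
    exact kap_bmr (fun A hA => h𝒢 A (hG A hA)) F
  · rintro f g ⟨G, hG, hf⟩ ⟨G', hG', hg⟩
    refine ⟨G ∪ G', fun A hA => (Finset.mem_union.1 hA).elim (hG A) (hG' A), fun x y h => ?_⟩
    simp only [hf x y (kap_mono Finset.subset_union_left h), hg x y (kap_mono Finset.subset_union_right h)]
  · rintro f g ⟨G, hG, hf⟩ ⟨G', hG', hg⟩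
    refine ⟨G ∪ G', fun A hA => (Finset.mem_union.1 hA).elim (hG A) (hG' A), fun x y h => ?_⟩
    simp only [hf x y (kap_mono Finset.subset_union_left h), hg x y (kap_mono Finset.subset_union_right h)]
  · rintro c f ⟨G, hG, hf⟩
    exact ⟨G, hG, fun x y h => by simp only [hf x y h]⟩
  · exact fun c => ⟨∅, fun A hA => absurd hA (Finset.notMem_empty A), fun _ _ _ => rfl⟩
  · rintro c f ⟨G, hG, hf⟩
    exact ⟨G, hG, fun x y h => by simp only [hf x y h]⟩

variable {μ : Measure X} [IsProbabilityMeasure μ]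

theorem pre_iter {T : X → X} (hT : MeasurePreserving T μ μ) {A : Set X} (h : T ⁻¹' A =ᵐ[μ] A) (n : ℕ) :
    (T^[n]) ⁻¹' A =ᵐ[μ] A := by
  induction n with
  | zero => exact Eventually.of_forall fun _ => rfl
  | succ n ih =>
    have h1 : T ⁻¹' ((T^[n]) ⁻¹' A) =ᵐ[μ] T ⁻¹' A := hT.quasiMeasurePreserving.preimage_ae_eq ih
    have e : (T^[n + 1]) ⁻¹' A = T ⁻¹' ((T^[n]) ⁻¹' A) := by
      rw [Function.iterate_succ]
      rfl
    rw [e]
    exact h1.trans h

theorem pre_iterQ {T Q : X → X} (hT : MeasurePreserving T μ μ) (hQ : MeasurePreserving Q μ μ)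
    (hc : ∀ x, Q (T x) = T (Q x)) {A : Set X} (h : T ⁻¹' A =ᵐ[μ] Q ⁻¹' A) (n : ℕ) :
    (T^[n]) ⁻¹' A =ᵐ[μ] (Q^[n]) ⁻¹' A := by
  have hcn : ∀ n x, Q^[n] (T x) = T (Q^[n] x) := by
    intro n
    induction n with
    | zero => intro x; rfl
    | succ n ih =>
      intro x
      rw [Function.iterate_succ_apply, Function.iterate_succ_apply, hc, ih]
  induction n with
  | zero => exact Eventually.of_forall fun _ => rfl
  | succ n ih =>
    have h1 : T ⁻¹' ((T^[n]) ⁻¹' A) =ᵐ[μ] T ⁻¹' ((Q^[n]) ⁻¹' A) := hT.quasiMeasurePreserving.preimage_ae_eq ih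
    have h2 : (Q^[n]) ⁻¹' (T ⁻¹' A) =ᵐ[μ] (Q^[n]) ⁻¹' (Q ⁻¹' A) :=
      (hQ.iterate n).quasiMeasurePreserving.preimage_ae_eq h
    have e : (T^[n + 1]) ⁻¹' A = T ⁻¹' ((T^[n]) ⁻¹' A) := by
      rw [Function.iterate_succ]
      rfl
    have e2 : T ⁻¹' ((Q^[n]) ⁻¹' A) = (Q^[n]) ⁻¹' (T ⁻¹' A) := by
      ext x
      simp only [Set.mem_preimage, hcn]
    have e3 : (Q^[n + 1]) ⁻¹' A = (Q^[n]) ⁻¹' (Q ⁻¹' A) := by
      rw [Function.iterate_succ']
      rfl
    rw [e, e3]
    rw [e2] at h1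
    exact h1.trans h2

/-- The averages converge for the functions measurable with respect to such a σ-algebra. -/
theorem qbase {m : ℕ} {T : Fin m → X → X} (hT : ∀ j, MeasurePreserving (T j) μ μ) {Q : X → X}
    (hQ : MeasurePreserving Q μ μ) (hc : ∀ j x, Q (T j x) = T j (Q x)) (𝒢 : Set (Set X))
    (h𝒢 : ∀ A ∈ 𝒢, MeasurableSet A)
    (hA : ∀ A ∈ 𝒢, ∀ j, T j ⁻¹' A =ᵐ[μ] A ∨ T j ⁻¹' A =ᵐ[μ] Q ⁻¹' A) :
    CvF μ T (MeasurableSpace.generateFrom 𝒢) := by
  classical
  have hAlg := At_alg h𝒢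
  refine cvf_of_alg _ hAlg hT (fun f hf => ?_) fun s hs => ?_
  · choose G hG hGf using hf
    set U : Finset (Set X) := Finset.univ.biUnion G with hU
    have hUG : ∀ j, G j ⊆ U := fun j => Finset.subset_biUnion_of_mem G (Finset.mem_univ j)
    have hU𝒢 : ∀ A ∈ U, A ∈ 𝒢 := by
      intro A hA'
      rw [hU, Finset.mem_biUnion] at hA'
      obtain ⟨j, _, hj⟩ := hA'
      exact hG j A hj
    choose F hF using fun j => fac_kap (G := U) (f := f j) fun x y h => hGf j x y (kap_mono (hUG j) h)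
    set ty : Fin m → Set X → Prop := fun j A => T j ⁻¹' A =ᵐ[μ] A with hty
    set M : Fin m → Finset (Set X) → Finset (Set X) → Finset (Set X) := fun j s t =>
      U.filter (fun A => (ty j A ∧ A ∈ s) ∨ (¬ ty j A ∧ A ∈ t)) with hM
    set h : Finset (Set X) → X → ℝ := fun s y => ∏ j, F j (M j s (kap U y)) with hh
    have hhB : ∀ s, BMr (h s) := fun s =>
      kap_bmr (fun A hA' => h𝒢 A (hU𝒢 A hA')) fun t => ∏ j, F j (M j s t)
    have hmove : ∀ᵐ x ∂μ, ∀ j : Fin m, ∀ n : ℕ, ∀ A ∈ U, ((T j)^[n] x ∈ A ↔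
        ((ty j A ∧ x ∈ A) ∨ (¬ ty j A ∧ Q^[n] x ∈ A))) := by
      rw [ae_all_iff]
      intro j
      rw [ae_all_iff]
      intro n
      rw [Finset.eventually_all]
      intro A hA'
      by_cases h1 : ty j A
      · filter_upwards [pre_iter (hT j) h1 n] with x hx
        have h2 : (x ∈ (T j)^[n] ⁻¹' A) = (x ∈ A) := hx
        simp only [Set.mem_preimage] at h2
        rw [h2]
        simp [h1]
      · have h3 := (hA A (hU𝒢 A hA') j).resolve_left h1
        filter_upwards [pre_iterQ (hT j) hQ (hc j) h3 n] with x hx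
        have h2 : (x ∈ (T j)^[n] ⁻¹' A) = (x ∈ Q^[n] ⁻¹' A) := hx
        simp only [Set.mem_preimage] at h2
        rw [h2]
        simp [h1]
    have hbirk : ∀ᵐ x ∂μ, ∀ s ∈ U.powerset, ∃ L : ℝ,
        Tendsto (fun N : ℕ => (N : ℝ)⁻¹ * ∑ n ∈ Finset.range N, h s (Q^[n + 1] x)) atTop (𝓝 L) := by
      rw [Finset.eventually_all]
      intro s _
      obtain ⟨h1, C, hC⟩ := (hhB s).comp hQ.measurable
      have h2 := Pool.Agent.H165R3.BPE.birkhoff hQ (fun x => h s (Q x)) h1 C hC
      filter_upwards [h2] with x hx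
      refine ⟨_, hx.congr fun N => ?_⟩
      simp only [Function.iterate_succ_apply']
    filter_upwards [hmove, hbirk] with x hx1 hx2
    have hkm : kap U x ∈ U.powerset := Finset.mem_powerset.2 fun A hA' => (mem_kap.1 hA').1
    obtain ⟨L, hL⟩ := hx2 _ hkm
    refine ⟨(L : ℂ), ?_⟩
    have h5 := (Complex.continuous_ofReal.tendsto L).comp hL
    refine h5.congr fun N => ?_
    simp only [Function.comp_apply]
    unfold AVF av
    push_cast
    congr 1
    refine Finset.sum_congr rfl fun n _ => ?_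
    simp only [hh]
    push_cast
    refine Finset.prod_congr rfl fun j _ => ?_
    rw [hF j]
    congr 2
    ext A
    simp only [hM, Finset.mem_filter, mem_kap]
    constructor
    · rintro ⟨h6, h7⟩
      refine ⟨h6, (hx1 j (n + 1) A h6).2 ?_⟩
      rcases h7 with ⟨h8, h9⟩ | ⟨h8, h9⟩
      · exact Or.inl ⟨h8, h9.2⟩
      · exact Or.inr ⟨h8, h9.2⟩
    · rintro ⟨h6, h7⟩
      refine ⟨h6, ?_⟩
      rcases (hx1 j (n + 1) A h6).1 h7 with ⟨h8, h9⟩ | ⟨h8, h9⟩
      · exact Or.inl ⟨h8, h6, h9⟩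
      · exact Or.inr ⟨h8, h6, h9⟩
  · have h1 : MeasurableSpace.generateFrom 𝒢 ≤ Gs (cl_calg (μ := μ) hAlg) := by
      refine MeasurableSpace.generateFrom_le fun t ht => ⟨h𝒢 t ht, cl.of hAlg ⟨{t}, ?_, ?_⟩⟩
      · intro A hA'
        rw [Finset.mem_singleton] at hA'
        rw [hA']
        exact ht
      · intro x y hxy
        have h2 := kap_iff.1 hxy t (Finset.mem_singleton_self t)
        by_cases h3 : x ∈ t
        · rw [Set.indicator_of_mem h3, Set.indicator_of_mem (h2.1 h3)]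
        · rw [Set.indicator_of_notMem h3, Set.indicator_of_notMem fun h4 => h3 (h2.2 h4)]
    exact h1 s hs

end

end Pool.Agent.H80C
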