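import Pool.Agent.H80IE.Tower2

/-!
Project CE: the averages `(1/N) ∑ f (S^n x) g (T^n x)` for two commuting maps `S, T`; statements. Definitions and
library as in project IE (`Pool/Agent/H80IE/Stm.lean`), all stubs of which are proved.

`Φ` is the action of `R = S⁻¹ T`, `Ψ` the action of `S` (or of `T`). `S2 μ Φ` is the relatively independent square of `μ`
over the `R`-invariant sets, `D2 Ψ n = Ψ n × Ψ n`.
-/

set_option autoImplicit false

open Filter Topology MeasureTheory ProbabilityTheory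
open scoped ENNReal ComplexConjugate

noncomputable section

namespace Pool.Agent.H80C

open Pool.Agent.Y311.UB Pool.Agent.Y311.CX Pool.Agent.H80GE Pool.Agent.H80IE

/-- the two actions commute -/
def Com {X : Type} (Φ Ψ : ℤ → Equiv.Perm X) : Prop := ∀ m n x, Φ m (Ψ n x) = Ψ n (Φ m x)

/-- the energy: the fourth power of the box seminorm of `f` for `R` and `S` -/
def En2 {X : Type} [MeasurableSpace X] [StandardBorelSpace X] (μ : Measure X) [IsProbabilityMeasure μ]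
    (Φ Ψ : ℤ → Equiv.Perm X) (f : X → ℝ) : ℝ :=
  ∫ z, ((S2 μ Φ)[fun z : X × X => f z.1 * f z.2 | inv (D2 Ψ) 1]) z ^ 2 ∂(S2 μ Φ)

/-- finite sums of the functions `z ↦ k z * g z.2` with `k` invariant -/
inductive QI {X : Type} [MeasurableSpace X] (Ψ : ℤ → Equiv.Perm X) : (X × X → ℝ) → Prop
  | base (k : X × X → ℝ) (g : X → ℝ) : BMr k → (∀ z, k (D2 Ψ 1 z) = k z) → BMr g → QI Ψ (fun z => k z * g z.2)
  | add (u v : X × X → ℝ) : QI Ψ u → QI Ψ v → QI Ψ (fun z => u z + v z)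

/-- the bounded functions in the closure of `QI` in the mean -/
def LI {X : Type} [MeasurableSpace X] (ν : Measure (X × X)) (Ψ : ℤ → Equiv.Perm X) (u : X × X → ℝ) : Prop :=
  BMr u ∧ ∀ ε : ℝ, 0 < ε → ∃ v, QI Ψ v ∧ ∫ z, |u z - v z| ∂ν ≤ ε

/-- the functions `s` with `z ↦ s z.1` in `LI` on the relatively independent square -/
def ZI {X : Type} [MeasurableSpace X] [StandardBorelSpace X] (μ : Measure X) [IsProbabilityMeasure μ]
    (Φ Ψ : ℤ → Equiv.Perm X) (s : X → ℝ) : Prop := BMr s ∧ LI (S2 μ Φ) Ψ (fun z => s z.1)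

/-- INV. Proof: `Ξ (a, b) = Φ a * Ψ b` is an action of `ℤ × ℤ`; with `w = (1, 0)`, `Ξ w = Φ 1`, so `relSq μ Ξ w = S2 μ Φ`
(unfold, rewrite). `Act.rel` with `l = 0` at `(0, n)` gives the first part, with `l (a, b) = -b` at `(0, 1)` the second:
`relΦ Ξ w l (0, 1) = (Ξ (0, 1), Ξ ((0, 1) + (1, 0)))`. -/
def INV : Prop := ∀ (X : Type) [MeasurableSpace X] [StandardBorelSpace X] (μ : Measure X) [IsProbabilityMeasure μ]
  (Φ Ψ : ℤ → Equiv.Perm X), Act μ Φ → Act μ Ψ → Com Φ Ψ →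
  Act (S2 μ Φ) (D2 Ψ) ∧
  MeasurePreserving (fun z : X × X => (Ψ 1 z.1, Φ 1 (Ψ 1 z.2))) (S2 μ Φ) (S2 μ Φ)

/-- LIALG. Copy of `Pool.Agent.H80IE.LAALG` (file LAALG.lean). -/
def LIALG : Prop := ∀ (X : Type) [MeasurableSpace X] (ν : Measure (X × X)) [IsProbabilityMeasure ν]
  (Ψ : ℤ → Equiv.Perm X), CAlg ν (LI ν Ψ)

/-- ZKI. Copy of `Pool.Agent.H80IE.ZK` (file ZK.lean): the functions `z ↦ k (z.1, Φ h z.2)` are invariant under `D2 Ψ 1`
since the actions commute. `FAV.t FERG.t : FAV` is available. -/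
def ZKI : Prop := ∀ (X : Type) [MeasurableSpace X] [StandardBorelSpace X] (μ : Measure X) [IsProbabilityMeasure μ]
  (Φ Ψ : ℤ → Equiv.Perm X), Act μ Φ → Com Φ Ψ → ∀ k : X × X → ℝ, BMr k → (∀ z, k (D2 Ψ 1 z) = k z) →
  ∀ w : X → ℝ, BMr w → ZI μ Φ Ψ (Kf μ Φ 1 k w)

/-- EOI. Proof (from ZKI): as `energy_zero` (end of `Y311/CX/Ker.lean`): `condExp_version` gives a bounded
`inv (D2 Ψ) 1`-measurable `H` with `∫ (E[f ⊗ f|inv])² = ∫ (f ⊗ f) H = ∫ f · Kf μ Φ 1 H f dμ = 0` (`int_Kf`). -/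
def EOI : Prop := ∀ (X : Type) [MeasurableSpace X] [StandardBorelSpace X] (μ : Measure X) [IsProbabilityMeasure μ]
  (Φ Ψ : ℤ → Equiv.Perm X), Act μ Φ → Com Φ Ψ → ∀ w : X → ℝ, BMr w → (∀ s, ZI μ Φ Ψ s → ∫ x, w x * s x ∂μ = 0) →
  En2 μ Φ Ψ w = 0

/-- HKC. Proof (from INV, COR): as LEMS: `int_relSq` and COR for `S2 μ Φ`, `D2 Ψ`. -/
def HKC : Prop := ∀ (X : Type) [MeasurableSpace X] [StandardBorelSpace X] (μ : Measure X) [IsProbabilityMeasure μ]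
  (Φ Ψ : ℤ → Equiv.Perm X), Act μ Φ → Act μ Ψ → Com Φ Ψ → ∀ w : X → ℝ, BMr w →
  Tendsto (fun M : ℕ => (M : ℝ)⁻¹ * ∑ m ∈ Finset.range M, ∫ z, (μ[fun z => w (Ψ (m : ℤ) z) * w z | inv Φ 1]) z ^ 2 ∂μ)
    atTop (𝓝 (En2 μ Φ Ψ w))

/-- the measure of the conditionally independent triples -/
def M3 {X : Type} [MeasurableSpace X] [StandardBorelSpace X] (μ : Measure X) [IsProbabilityMeasure μ]
    (Φ : ℤ → Equiv.Perm X) : Measure (X × (X × X)) := μ ⊗ₘ (relK μ Φ 1 ×ₖ relK μ Φ 1)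

/-- M3P. The projections of the triples. Proof: `M3` is a composition product with a Markov kernel; first two: for rectangles or
`Measure.compProd_map`/`Kernel.fst_prod`, `Kernel.snd_prod`; third: `Measure.ext_of_lintegral` with `lintegral_compProd` and DIS
(`DIS.t RCO.t`). -/
def M3P : Prop := ∀ (X : Type) [MeasurableSpace X] [StandardBorelSpace X] (μ : Measure X) [IsProbabilityMeasure μ]
  (Φ : ℤ → Equiv.Perm X), Act μ Φ →
  MeasurePreserving (fun p : X × (X × X) => (p.1, p.2.1)) (M3 μ Φ) (S2 μ Φ) ∧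
  MeasurePreserving (fun p : X × (X × X) => (p.1, p.2.2)) (M3 μ Φ) (S2 μ Φ) ∧
  MeasurePreserving (fun p : X × (X × X) => p.2) (M3 μ Φ) (S2 μ Φ) ∧
  MeasurePreserving (fun p : X × (X × X) => p.1) (M3 μ Φ) μ

/-- averages along several maps -/
def AVF {X : Type} {m : ℕ} (T : Fin m → X → X) (f : Fin m → X → ℂ) (N : ℕ) (x : X) : ℂ :=
  av N (fun n => ∏ j, f j ((T j)^[n + 1] x))

/-- the averages on the triples -/
def A3 {X : Type} (Ψ Ψ' : ℤ → Equiv.Perm X) (F G : X × X → ℝ) (N : ℕ) (p : X × (X × X)) : ℂ :=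
  av N (fun n => ((F (Ψ (n + 1) p.1, Ψ (n + 1) p.2.1) * G (Ψ' (n + 1) p.1, Ψ' (n + 1) p.2.2) : ℝ) : ℂ))

/-- CONQ. Here `Ψ' n = Φ n * Ψ n`. Proof (from INV, M3P): (a) for `F = k g∘snd`, `G = k' g'∘snd` of the base form (`k` is `D2 Ψ`-invariant, `k'` is
`D2 Ψ'`-invariant) `A3 F G N (x, y, z) = k(x,y) k'(x,z) av N (g (Ψ (n+1) y) g' (Ψ' (n+1) z))`, and the map `τ (y, z) = (Ψ 1 y, Ψ' 1 z)` preserves
`S2 μ Φ` (INV, second part: `Ψ' 1 z = Φ 1 (Ψ 1 z)`), so Birkhoff's theorem (`Pool.Agent.H165R3.BPE.birkhoff`, used in `avg_small` of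
`H80GE/Transfer.lean`, for the function `(y, z) ↦ g y * g' z`, composed once with `τ` because of `n + 1`) and the third map of M3P give convergence a.e.;
(b) `A3` is additive in `F` and in `G`: induction on `QI` for `F`, inside it induction on `QI` for `G`. -/
def CONQ : Prop := ∀ (X : Type) [MeasurableSpace X] [StandardBorelSpace X] (μ : Measure X) [IsProbabilityMeasure μ]
  (Φ Ψ Ψ' : ℤ → Equiv.Perm X), Act μ Φ → Act μ Ψ → Act μ Ψ' → Com Φ Ψ → (∀ n, Ψ' n = Φ n * Ψ n) →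
  ∀ F G : X × X → ℝ, QI Ψ F → QI Ψ' G →
  ∀ᵐ p ∂(M3 μ Φ), ∃ L, Tendsto (fun N => A3 Ψ Ψ' F G N p) atTop (𝓝 L)

/-- CON. Closure of CONQ. Proof (from CONQ, INV, M3P): first for `F ∈ LI` and fixed `G ∈ QI` (it is bounded by some `C`), then for `F ∈ LI`
(bounded by `C`) and `G ∈ LI`: `|A3 F G - A3 v G| ≤ C N⁻¹ ∑_{n<N} |F - v|(D2 Ψ (n+1) (x, y))`, and `avg_small` (`H80GE/Transfer.lean`, `a = 1`) for
the map `D2 Ψ 1` on `S2 μ Φ` (it preserves the measure by INV) and `u = |F - v|` bounds the measure of the set of the `(x, y)` where this is not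
eventually `≤ δ` by `C ∫ |F - v| / δ`; pull back by the first (second) map of M3P; conclude by `conv_of_approx` (`H80GE/Transfer.lean`). For `G`:
`D2 Ψ'` preserves `S2 μ Φ` by INV for `Ψ'` (which commutes with `Φ`). -/
def CON : Prop := ∀ (X : Type) [MeasurableSpace X] [StandardBorelSpace X] (μ : Measure X) [IsProbabilityMeasure μ]
  (Φ Ψ Ψ' : ℤ → Equiv.Perm X), Act μ Φ → Act μ Ψ → Act μ Ψ' → Com Φ Ψ → (∀ n, Ψ' n = Φ n * Ψ n) →
  ∀ F G : X × X → ℝ, LI (S2 μ Φ) Ψ F → LI (S2 μ Φ) Ψ' G →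
  ∀ᵐ p ∂(M3 μ Φ), ∃ L, Tendsto (fun N => A3 Ψ Ψ' F G N p) atTop (𝓝 L)

/-- ZIC. Proof (from CON, M3P): `F z = s z.1`, `G z = s' z.1`, and the fourth map of M3P. -/
def ZIC : Prop := ∀ (X : Type) [MeasurableSpace X] [StandardBorelSpace X] (μ : Measure X) [IsProbabilityMeasure μ]
  (Φ Ψ Ψ' : ℤ → Equiv.Perm X), Act μ Φ → Act μ Ψ → Act μ Ψ' → Com Φ Ψ → (∀ n, Ψ' n = Φ n * Ψ n) →
  ∀ s s' : X → ℝ, ZI μ Φ Ψ s → ZI μ Φ Ψ' s' →
  ∀ᵐ x ∂μ, ∃ L, Tendsto (fun N => av N (fun n => ((s (Ψ (n + 1) x) * s' (Ψ' (n + 1) x) : ℝ) : ℂ))) atTop (𝓝 L)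

end Pool.Agent.H80C
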