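import Pool.Agent.H80C.Stm

/-!
Project CE, second part: families of skew products over commuting maps. The proofs are copies of the proofs in `H80GE/Core.lean`,
`H80GE/Smooth.lean`, `H80GE/Transfer.lean` (`close`), `H80GE/HKMain.lean` (`AV_zero_of_BB`), where all maps are powers of one map:
replace `(sk S σ)^[a j * (n + 1)]` by `(sk (S j) (σ j))^[n + 1]`, `(sk S σ)^[a j * d]` by `(sk (S j) (σ j))^[d]` and `S^[a j * (n + 1)]` by
`(S j)^[n + 1]`.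
-/

set_option autoImplicit false

open Filter Topology MeasureTheory ProbabilityTheory Finset
open scoped ENNReal ComplexConjugate

noncomputable section

namespace Pool.Agent.H80C

open Pool.Agent.Y311.UB Pool.Agent.Y311.CX Pool.Agent.H80GE Pool.Agent.H80IE

section

variable {Y K : Type} [Group K] {m : ℕ}

/-- the products along the orbits of the points `(y, κ_j)` -/
def uuF (S : Fin m → Y → Y) (σ : Fin m → Y → K) (g : Fin m → Y × K → ℂ) (n : ℕ) (y : Y) (κ : Fin m → K) : ℂ :=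
  ∏ j, g j ((sk (S j) (σ j))^[n + 1] (y, κ j))

/-- the fibre correlations -/
def psiF [MeasurableSpace K] (ρ : Measure K) (S : Fin m → Y → Y) (σ : Fin m → Y → K) (g : Fin m → Y × K → ℂ) (d : ℕ)
    (j : Fin m) (w : Y) : ℂ := ∫ κ, g j ((sk (S j) (σ j))^[d] (w, κ)) * conj (g j (w, κ)) ∂ρ

/-- the average of the products, in the mean square over all fibre coordinates -/
def BBF [MeasurableSpace K] (ρ : Measure K) (S : Fin m → Y → Y) (σ : Fin m → Y → K) (g : Fin m → Y × K → ℂ) (N : ℕ)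
    (y : Y) : ℝ := ∫ κ, ‖av N (fun n => uuF S σ g n y κ)‖ ^ 2 ∂(Measure.pi fun _ : Fin m => ρ)

end

/-- CORF. Copy of `core` (`H80GE/Core.lean`), with the lemmas `uu_meas`, `uu_bound`, `uu_cor`, `psi_meas`, `psi_bound` before it. -/
def CORF : Prop := ∀ (Y K : Type) [MeasurableSpace Y] [Group K] [MeasurableSpace K] [MeasurableMul₂ K]
  (μ : Measure Y) [IsProbabilityMeasure μ] (ρ : Measure K) [IsProbabilityMeasure ρ] [ρ.IsMulLeftInvariant]
  (m : ℕ) (S : Fin m → Y → Y) (σ : Fin m → Y → K) (g : Fin m → Y × K → ℂ), (∀ j, MeasurePreserving (S j) μ μ) →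
  (∀ j, Measurable (σ j)) → (∀ j, Measurable (g j)) → ∀ D : ℝ, (∀ j z, ‖g j z‖ ≤ D) →
  (∀ d : ℕ, ∀ᵐ y ∂μ, ∃ L, Tendsto (fun N => av N (fun n => ∏ j, psiF ρ S σ g d j ((S j)^[n + 1] y))) atTop (𝓝 L)) →
  ∀ (ε : ℝ) (H : ℕ), 0 < H →
  (∀ᶠ N : ℕ in atTop, ((H : ℝ)⁻¹) ^ 2 * ∑ h ∈ range H, ∑ h' ∈ range H,
      (av N (fun n => ∫ y, ∏ j, psiF ρ S σ g (Nat.dist h h') j ((S j)^[n + 1] y) ∂μ)).re ≤ ε) →
  ∀ η : ℝ, 0 < η → μ {y | ¬ ∀ᶠ N : ℕ in atTop, BBF ρ S σ g N y ≤ η} ≤ ENNReal.ofReal (ε / η)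

/-- CLF. Copy of `close` (`H80GE/Transfer.lean`): `avg_small` for the map `T j` with `a = 1`. -/
def CLF : Prop := ∀ (X : Type) [MeasurableSpace X] (ν : Measure X) [IsProbabilityMeasure ν] (m : ℕ) (T : Fin m → X → X),
  (∀ j, MeasurePreserving (T j) ν ν) → ∀ f g : Fin m → X → ℂ, (∀ j, Measurable (f j)) → (∀ j, Measurable (g j)) →
  ∀ C : ℝ, 1 ≤ C → (∀ j x, ‖f j x‖ ≤ C) → (∀ j x, ‖g j x‖ ≤ C) → ∀ ε : ℝ, (∀ j, ∫ x, ‖f j x - g j x‖ ∂ν ≤ ε) →
  ∀ δ : ℝ, 0 < δ → ν {x | ¬ ∀ᶠ N : ℕ in atTop, ‖AVF T f N x - AVF T g N x‖ ≤ δ} ≤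
      ENNReal.ofReal (m * (C ^ m * (m + 1) * ε / δ))

/-- AVZF. Copy of `smooth_le` (`H80GE/Smooth.lean`) and `AV_zero_of_BB` (`H80GE/HKMain.lean`); uses CLF in place of `close`; `approx`, `cv` and the
lemmas on `cv` can be used as they are. -/
def AVZF : Prop := ∀ (Y K : Type) [MeasurableSpace Y] [Group K] [TopologicalSpace K] [IsTopologicalGroup K]
  [CompactSpace K] [T2Space K] [SecondCountableTopology K] [MeasurableSpace K] [BorelSpace K]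
  (μ : Measure Y) [IsProbabilityMeasure μ] (ρ : Measure K) [ρ.IsHaarMeasure] [IsProbabilityMeasure ρ]
  (m : ℕ) (S : Fin m → Y → Y) (σ : Fin m → Y → K) (f : Fin m → Y × K → ℂ), (∀ j, MeasurePreserving (S j) μ μ) →
  (∀ j, Measurable (σ j)) → (∀ j, Measurable (f j)) → (∀ j x, ‖f j x‖ ≤ 1) →
  (∀ᵐ y ∂μ, Tendsto (fun N => BBF ρ S σ f N y) atTop (𝓝 0)) →
  ∀ᵐ x ∂(μ.prod ρ), Tendsto (fun N => AVF (fun j => sk (S j) (σ j)) f N x) atTop (𝓝 0)

end Pool.Agent.H80C
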