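import Pool.Agent.H80C.FinC
import Pool.Agent.H80C.CLF

/-!
Towers for families of maps.
-/

set_option autoImplicit false
set_option linter.unusedSectionVars false

open Filter Topology MeasureTheory ProbabilityTheory
open scoped ENNReal ProbabilityTheory ComplexConjugate

namespace Pool.Agent.H80C

open Pool.Agent.Y311.UB Pool.Agent.Y311.CX Pool.Agent.H80GE Pool.Agent.H80IE

section gen

variable {X : Type} [mX : MeasurableSpace X] {μ : Measure X}

/-- convergence of the averages passes to the closure -/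
theorem conv_clF {A : (X → ℝ) → Prop} (hA : Alg0 A) [IsProbabilityMeasure μ] {m : ℕ} {T : Fin m → X → X}
    (hT : ∀ j, MeasurePreserving (T j) μ μ)
    (hc : ∀ f : Fin m → X → ℝ, (∀ j, A (f j)) →
      ∀ᵐ x ∂μ, ∃ L, Tendsto (fun N => AVF T (fun j x => ((f j x : ℝ) : ℂ)) N x) atTop (𝓝 L))
    (f : Fin m → X → ℝ) (hf : ∀ j, cl μ A (f j)) :
    ∀ᵐ x ∂μ, ∃ L, Tendsto (fun N => AVF T (fun j x => ((f j x : ℝ) : ℂ)) N x) atTop (𝓝 L) := by
  choose D hD using fun j => (hf j).1.2
  set C : ℝ := ∑ j, |D j| + 1 with hC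
  have hC1 : 1 ≤ C := by
    have : 0 ≤ ∑ j, |D j| := Finset.sum_nonneg fun _ _ => abs_nonneg _
    linarith
  have hfC : ∀ j x, |f j x| ≤ C := by
    intro j x
    have h1 : |D j| ≤ ∑ j, |D j| := Finset.single_le_sum (f := fun j => |D j|) (fun _ _ => abs_nonneg _) (Finset.mem_univ j)
    have h2 := hD j x
    have h3 := le_abs_self (D j)
    linarith
  refine conv_of_approx μ _ fun δ hδ ε hε => ?_
  set ε' : ℝ := ε * δ / ((m + 1) * (C ^ m * (m + 1))) with hε'
  have hε'0 : 0 < ε' := by positivity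
  choose g hg1 hg2 using fun j => (hf j).2 ε' hε'0
  set G : Fin m → X → ℝ := fun j x => max (-C) (min C (g j x)) with hG
  have hGA : ∀ j, A (G j) := fun j => hA.clip C _ (hg1 j)
  have hGC : ∀ j x, |G j x| ≤ C := by
    intro j x
    rw [abs_le]
    exact ⟨le_max_left _ _, max_le (by linarith) (min_le_left _ _)⟩
  have hclip : ∀ s t : ℝ, |s| ≤ C → |s - max (-C) (min C t)| ≤ |s - t| := by
    intro s t hs
    rw [abs_le] at hs
    rcases le_or_gt t C with h1 | h1
    · rw [min_eq_right h1]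
      rcases le_or_gt (-C) t with h2 | h2
      · rw [max_eq_right h2]
      · rw [max_eq_left h2.le]
        rw [abs_of_nonneg (by linarith), abs_of_nonneg (by linarith)]
        linarith
    · rw [min_eq_left h1.le, max_eq_right (by linarith)]
      rw [abs_of_nonpos (by linarith), abs_of_nonpos (by linarith)]
      linarith
  refine ⟨fun N x => AVF T (fun j x => ((G j x : ℝ) : ℂ)) N x, hc G hGA, ?_⟩
  have hcl := CLF.t X μ m T hT (fun j x => ((f j x : ℝ) : ℂ)) (fun j x => ((G j x : ℝ) : ℂ))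
    (fun j => Complex.measurable_ofReal.comp (hf j).1.1) (fun j => Complex.measurable_ofReal.comp (hA.bmr _ (hGA j)).1)
    C hC1 (fun j x => by rw [Complex.norm_real]; exact hfC j x) (fun j x => by rw [Complex.norm_real]; exact hGC j x)
    ε' (fun j => by
      have e : ∀ x, ‖((f j x : ℝ) : ℂ) - ((G j x : ℝ) : ℂ)‖ = |f j x - G j x| := fun x => by
        rw [← Complex.ofReal_sub, Complex.norm_real, Real.norm_eq_abs]
      simp_rw [e]
      refine (integral_mono (BMr.absSub (hf j).1 (hA.bmr _ (hGA j))).integrable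
        (BMr.absSub (hf j).1 (hA.bmr _ (hg1 j))).integrable fun x => ?_).trans (hg2 j)
      exact hclip _ _ (hfC j x)) δ hδ
  refine hcl.trans (ENNReal.ofReal_le_ofReal ?_)
  have e : (m : ℝ) * (C ^ m * (m + 1) * ε' / δ) = ε * (m / (m + 1)) := by
    rw [hε']; field_simp
  rw [e]
  have e3 : (m : ℝ) / (m + 1) ≤ 1 := by rw [div_le_one (by positivity)]; linarith
  nlinarith

/-- from real functions to complex functions -/
theorem conv_complexF {m : ℕ} {T : Fin m → X → X} (A : (X → ℝ) → Prop)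
    (hc : ∀ f : Fin m → X → ℝ, (∀ j, A (f j)) →
      ∀ᵐ x ∂μ, ∃ L, Tendsto (fun N => AVF T (fun j x => ((f j x : ℝ) : ℂ)) N x) atTop (𝓝 L))
    (f : Fin m → X → ℂ) (hf : ∀ j, A (fun x => (f j x).re) ∧ A (fun x => (f j x).im)) :
    ∀ᵐ x ∂μ, ∃ L, Tendsto (fun N => AVF T f N x) atTop (𝓝 L) := by
  classical
  have key : ∀ J : Finset (Fin m), ∀ f : Fin m → X → ℂ,
      (∀ j, A (fun x => (f j x).re) ∧ A (fun x => (f j x).im) ∨ ∃ s, A s ∧ f j = fun x => ((s x : ℝ) : ℂ)) →
      (∀ j, j ∉ J → ∃ s, A s ∧ f j = fun x => ((s x : ℝ) : ℂ)) →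
      ∀ᵐ x ∂μ, ∃ L, Tendsto (fun N => AVF T f N x) atTop (𝓝 L) := by
    intro J
    induction J using Finset.induction_on with
    | empty =>
      intro f _ hs
      choose s hs1 hs2 using fun j => hs j (Finset.notMem_empty j)
      have e : f = fun j x => ((s j x : ℝ) : ℂ) := funext hs2
      rw [e]
      exact hc s hs1
    | insert i J hi ih =>
      intro f hf hs
      have hS : ∀ s, A s → ∀ᵐ x ∂μ, ∃ L,
          Tendsto (fun N => AVF T (slot f i (fun x => ((s x : ℝ) : ℂ))) N x) atTop (𝓝 L) := by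
        intro s hs'
        refine ih _ (fun j => ?_) fun j hj => ?_
        · by_cases hji : j = i
          · exact Or.inr ⟨s, hs', by simp [slot, hji]⟩
          · have e : slot f i (fun x => ((s x : ℝ) : ℂ)) j = f j := by simp [slot, hji]
            rw [e]
            exact hf j
        · by_cases hji : j = i
          · exact ⟨s, hs', by simp [slot, hji]⟩
          · obtain ⟨t, ht1, ht2⟩ := hs j (by simp [hji, hj])
            exact ⟨t, ht1, by simp [slot, hji, ht2]⟩
      rcases hf i with ⟨h1, h2⟩ | ⟨s, hs1, hs2⟩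
      · have e : f i = (fun x => (((f i x).re : ℝ) : ℂ)) + Complex.I • (fun x => (((f i x).im : ℝ) : ℂ)) := by
          funext x
          simp only [Pi.add_apply, Pi.smul_apply, smul_eq_mul]
          rw [mul_comm Complex.I, Complex.re_add_im]
        filter_upwards [hS _ h1, hS _ h2] with x hx1 hx2
        obtain ⟨L1, hx1⟩ := hx1
        obtain ⟨L2, hx2⟩ := hx2
        refine ⟨L1 + Complex.I * L2, (hx1.add (hx2.const_mul _)).congr fun N => ?_⟩
        have e2 := slot_self f i
        conv_rhs => rw [← e2, e]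
        rw [AVF_slot_add, AVF_slot_smul]
      · have h3 := hS s hs1
        rw [← hs2, slot_self] at h3
        exact h3
  exact key Finset.univ f (fun j => Or.inl (hf j)) fun j hj => absurd (Finset.mem_univ j) hj

/-- convergence for the functions measurable with respect to a σ-algebra -/
def CvF (μ : Measure X) {m : ℕ} (T : Fin m → X → X) (𝓐 : MeasurableSpace X) : Prop :=
  ∀ f : Fin m → X → ℂ, (∀ j, Measurable[𝓐] (f j)) → (∃ C, ∀ j x, ‖f j x‖ ≤ C) →
    ∀ᵐ x ∂μ, ∃ L, Tendsto (fun N => AVF T f N x) atTop (𝓝 L)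

end gen

section gen2

variable {X : Type} (𝓑 𝓐 : MeasurableSpace X) [mX : MeasurableSpace X] {μ : Measure X}

/-- the general closure principle -/
theorem cvf_of_alg {A : (X → ℝ) → Prop} (hA : Alg0 A) [IsProbabilityMeasure μ] {m : ℕ} {T : Fin m → X → X}
    (hT : ∀ j, MeasurePreserving (T j) μ μ)
    (hc : ∀ f : Fin m → X → ℝ, (∀ j, A (f j)) →
      ∀ᵐ x ∂μ, ∃ L, Tendsto (fun N => AVF T (fun j x => ((f j x : ℝ) : ℂ)) N x) atTop (𝓝 L))
    (hB : ∀ s, MeasurableSet[𝓑] s → MeasurableSet s ∧ cl μ A (s.indicator fun _ => (1 : ℝ))) :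
    CvF μ T 𝓑 := by
  intro f hf hfb
  obtain ⟨C, hC⟩ := hfb
  have hle : 𝓑 ≤ Gs (cl_calg (μ := μ) hA) := fun s hs => hB s hs
  refine conv_complexF (cl μ A) (conv_clF hA hT hc) f fun j => ⟨?_, ?_⟩
  · exact galg_of_measurable (cl_calg hA) ((Complex.measurable_re.comp (hf j)).mono hle le_rfl)
      (C := C) fun x => (Complex.abs_re_le_norm _).trans (hC j x)
  · exact galg_of_measurable (cl_calg hA) ((Complex.measurable_im.comp (hf j)).mono hle le_rfl)
      (C := C) fun x => (Complex.abs_im_le_norm _).trans (hC j x)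

end gen2

end Pool.Agent.H80C
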